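import Mathlib

/-!
Compactness for colourings (Rado selection).
-/

set_option autoImplicit false

namespace Pool.Agent.S12

/-- If every finite part of `W` has a colouring with `K` colours such that all monochromatic sets
satisfy `Q`, then `W` has such a colouring. -/
theorem compactness {α : Type*} [DecidableEq α] (K : ℕ) (W : Set α) (Q : Finset α → Prop)
    (h : ∀ V : Finset α, (V : Set α) ⊆ W → ∃ c : α → Fin K, ∀ B : Finset α, B ⊆ V →
      (∀ x ∈ B, ∀ y ∈ B, c x = c y) → Q B) :
    ∃ c : α → Fin K, ∀ B : Finset α, (B : Set α) ⊆ W →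
      (∀ x ∈ B, ∀ y ∈ B, c x = c y) → Q B := by
  classical
  have h' : ∀ V : Finset α, ∃ c : α → Fin K, ∀ B : Finset α, B ⊆ V → (B : Set α) ⊆ W →
      (∀ x ∈ B, ∀ y ∈ B, c x = c y) → Q B := by
    intro V
    obtain ⟨c, hc⟩ := h (V.filter (fun x => x ∈ W)) (by
      intro x hx
      have := Finset.mem_coe.mp hx
      exact (Finset.mem_filter.mp this).2)
    refine ⟨c, fun B hB hBW hmono => hc B ?_ hmono⟩
    intro x hx
    exact Finset.mem_filter.mpr ⟨hB hx, hBW (Finset.mem_coe.mpr hx)⟩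
  choose g hg using h'
  obtain ⟨χ, hχ⟩ := Finset.rado_selection (β := fun _ : α => Fin K) g
  refine ⟨χ, fun B hBW hmono => ?_⟩
  obtain ⟨t, ht, hagree⟩ := hχ B
  refine hg t B ht hBW (fun x hx y hy => ?_)
  rw [← hagree x hx, ← hagree y hy]
  exact hmono x hx y hy

/-- The form with a hereditary property of the colour classes. -/
theorem compactness' {α : Type*} [DecidableEq α] (K : ℕ) (W : Set α) (P : Finset α → Prop)
    (hP0 : P ∅) (hP : ∀ X Y : Finset α, X ⊆ Y → P Y → P X)
    (h : ∀ V : Finset α, (V : Set α) ⊆ W → ∃ f : α → Fin K, ∀ k, P (V.filter (fun x => f x = k))) :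
    ∃ f : α → Fin K, ∀ B : Finset α, (B : Set α) ⊆ W →
      (∀ x ∈ B, ∀ y ∈ B, f x = f y) → P B := by
  classical
  refine compactness K W P (fun V hV => ?_)
  obtain ⟨f, hf⟩ := h V hV
  refine ⟨f, fun B hB hmono => ?_⟩
  rcases B.eq_empty_or_nonempty with rfl | ⟨b, hb⟩
  · exact hP0
  · refine hP _ _ ?_ (hf (f b))
    intro x hx
    exact Finset.mem_filter.mpr ⟨hB hx, hmono x hx b hb⟩

end Pool.Agent.S12
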