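import Mathlib

/-!
# A topological colouring theorem

Let `F` be a family of subsets (of size at least two) of a finite set `V` such that every nonempty
`S` blocks few elements: the set of all `u` such that `f \ {u} ⊆ S` for some `u ∈ f ∈ F`, together
with `S`, has at most `M |S|` elements.  Then `V` is a union of `K ≥ 2 M` classes none of which
contains a member of `F`.

The proof is the topological Hall argument of Aharoni, Haxell and Meshulam for the complex of all
sets which contain no member of `F`, with chains over `ZMod 2`.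
-/

namespace Pool.Agent.S12

open Finset

section Chains

variable {α : Type*} [DecidableEq α]

/-- chains with coefficients in `ZMod 2` on the finite subsets of `α` -/
abbrev Ch (α : Type*) := Finset α →₀ ZMod 2

lemma Ch.add_self (x : Ch α) : x + x = 0 := by
  ext σ
  simp only [Finsupp.coe_add, Pi.add_apply, Finsupp.coe_zero, Pi.zero_apply]
  exact CharTwo.add_self_eq_zero _

lemma sum_erase_erase {M : Type*} [AddCommMonoid M] (h2 : ∀ x : M, x + x = 0) (R : Finset α)
    (g : Finset α → M) : ∑ v ∈ R, ∑ w ∈ R.erase v, g ((R.erase v).erase w) = 0 := by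
  rw [Finset.sum_sigma']
  refine Finset.sum_involution (fun p _ => ⟨p.2, p.1⟩) ?_ ?_ ?_ ?_
  · intro p _
    simp only
    rw [Finset.erase_right_comm]
    exact h2 _
  · intro p hp _ heq
    simp only [Finset.mem_sigma, Finset.mem_erase] at hp
    have := congrArg Sigma.fst heq
    exact hp.2.1 this
  · intro p hp
    simp only [Finset.mem_sigma, Finset.mem_erase] at hp ⊢
    exact ⟨hp.2.2, Ne.symm hp.2.1, hp.1⟩
  · intro p _
    rfl

/-- the boundary -/
noncomputable def bd : Ch α →ₗ[ZMod 2] Ch α :=
  Finsupp.linearCombination (ZMod 2)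
    (fun σ : Finset α => ∑ v ∈ σ, Finsupp.single (σ.erase v) (1 : ZMod 2))

lemma bd_single (σ : Finset α) :
    bd (Finsupp.single σ 1) = ∑ v ∈ σ, Finsupp.single (σ.erase v) (1 : ZMod 2) := by
  simp [bd]

/-- join with `e` -/
noncomputable def st (e : Finset α) : Ch α →ₗ[ZMod 2] Ch α :=
  Finsupp.linearCombination (ZMod 2)
    (fun t : Finset α => Finsupp.single (e ∪ t) (1 : ZMod 2))

lemma st_single (e t : Finset α) : st e (Finsupp.single t 1) = Finsupp.single (e ∪ t) 1 := by
  simp [st]

/-- join with the boundary of `e` -/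
noncomputable def bs (e : Finset α) : Ch α →ₗ[ZMod 2] Ch α :=
  Finsupp.linearCombination (ZMod 2)
    (fun t : Finset α => ∑ v ∈ e, Finsupp.single ((e.erase v) ∪ t) (1 : ZMod 2))

lemma bs_single (e t : Finset α) :
    bs e (Finsupp.single t 1) = ∑ v ∈ e, Finsupp.single ((e.erase v) ∪ t) (1 : ZMod 2) := by
  simp [bs]

/-- link of `e` -/
noncomputable def lk (e : Finset α) : Ch α →ₗ[ZMod 2] Ch α :=
  Finsupp.linearCombination (ZMod 2)
    (fun σ : Finset α => if e ⊆ σ then Finsupp.single (σ \ e) (1 : ZMod 2) else 0)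

lemma lk_single (e σ : Finset α) :
    lk e (Finsupp.single σ 1) = if e ⊆ σ then Finsupp.single (σ \ e) (1 : ZMod 2) else 0 := by
  simp [lk]

/-- chains supported on the sets with property `P` -/
abbrev Sp (P : Set (Finset α)) : Submodule (ZMod 2) (Ch α) := Finsupp.supported (ZMod 2) (ZMod 2) P

lemma single_mem_Sp {P : Set (Finset α)} {σ : Finset α} (h : σ ∈ P) :
    Finsupp.single σ (1 : ZMod 2) ∈ Sp P := Finsupp.single_mem_supported _ _ h

lemma Sp_map {β : Type*} {N : Type*} [AddCommGroup N] [Module (ZMod 2) N]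
    {P : Set (Finset β)} {φ : Ch β →ₗ[ZMod 2] N} {Q : Submodule (ZMod 2) N}
    (h : ∀ σ ∈ P, φ (Finsupp.single σ 1) ∈ Q) {c : Ch β} (hc : c ∈ Sp P) : φ c ∈ Q := by
  have h1 : Sp P ≤ Q.comap φ := by
    unfold Sp
    rw [Finsupp.supported_eq_span_single, Submodule.span_le]
    rintro _ ⟨σ, hσ, rfl⟩
    exact h σ hσ
  exact h1 hc

lemma Sp_eq {β : Type*} {N : Type*} [AddCommGroup N] [Module (ZMod 2) N]
    {P : Set (Finset β)} {φ ψ : Ch β →ₗ[ZMod 2] N}
    (h : ∀ σ ∈ P, φ (Finsupp.single σ 1) = ψ (Finsupp.single σ 1)) {c : Ch β} (hc : c ∈ Sp P) :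
    φ c = ψ c := by
  have h1 : (φ - ψ) c ∈ (⊥ : Submodule (ZMod 2) N) := by
    apply Sp_map (P := P) _ hc
    intro σ hσ
    simp [h σ hσ]
  have h2 : φ c - ψ c = 0 := by simpa using h1
  exact sub_eq_zero.mp h2

lemma mem_Sp_univ (c : Ch α) : c ∈ Sp (Set.univ : Set (Finset α)) := by
  simp [Sp, Finsupp.supported_univ]

lemma bd_bd (c : Ch α) : bd (bd c) = 0 := by
  have := Sp_eq (P := Set.univ) (φ := bd ∘ₗ bd) (ψ := (0 : Ch α →ₗ[ZMod 2] Ch α)) (by
    intro σ _
    rw [LinearMap.comp_apply, bd_single, map_sum, LinearMap.zero_apply]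
    simp only [bd_single]
    exact sum_erase_erase Ch.add_self σ (fun τ => Finsupp.single τ (1 : ZMod 2)))
    (mem_Sp_univ c)
  simpa using this

lemma bd_st {e : Finset α} {c : Ch α} (hc : c ∈ Sp {t | Disjoint e t}) :
    bd (st e c) = bs e c + st e (bd c) := by
  have := Sp_eq (P := {t | Disjoint e t}) (φ := bd ∘ₗ st e) (ψ := bs e + st e ∘ₗ bd) (by
    intro t ht
    simp only [Set.mem_ofPred_eq] at ht
    rw [LinearMap.comp_apply, st_single, bd_single, LinearMap.add_apply, bs_single,
      LinearMap.comp_apply, bd_single, map_sum, Finset.sum_union ht]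
    congr 1
    · apply Finset.sum_congr rfl
      intro v hv
      congr 1
      have hvt : v ∉ t := Finset.disjoint_left.mp ht hv
      rw [Finset.erase_union_distrib, Finset.erase_eq_of_notMem hvt]
    · apply Finset.sum_congr rfl
      intro v hv
      rw [st_single]
      congr 1
      have hve : v ∉ e := Finset.disjoint_right.mp ht hv
      rw [Finset.erase_union_distrib, Finset.erase_eq_of_notMem hve]) hc
  simpa using this

lemma bd_mem_disj {e : Finset α} {c : Ch α} (hc : c ∈ Sp {t | Disjoint e t}) :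
    bd c ∈ Sp {t | Disjoint e t} := by
  apply Sp_map _ hc
  intro t ht
  rw [bd_single]
  apply Submodule.sum_mem
  intro v _
  apply single_mem_Sp
  simp only [Set.mem_ofPred_eq] at ht ⊢
  exact Finset.disjoint_of_subset_right (Finset.erase_subset v t) ht

lemma bd_bs {e : Finset α} {c : Ch α} (hc : c ∈ Sp {t | Disjoint e t}) :
    bd (bs e c) = bs e (bd c) := by
  have h1 := congrArg bd (bd_st hc)
  rw [bd_bd, map_add, bd_st (bd_mem_disj hc), bd_bd, map_zero, add_zero] at h1
  have h2 : bd (bs e c) + (bs e (bd c) + bs e (bd c)) = bs e (bd c) := by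
    rw [← add_assoc, ← h1, zero_add]
  rwa [Ch.add_self, add_zero] at h2

lemma lk_st {e : Finset α} {c : Ch α} (hc : c ∈ Sp {t | Disjoint e t}) : lk e (st e c) = c := by
  have := Sp_eq (P := {t | Disjoint e t}) (φ := lk e ∘ₗ st e) (ψ := LinearMap.id) (by
    intro t ht
    simp only [Set.mem_ofPred_eq] at ht
    rw [LinearMap.comp_apply, st_single, lk_single, if_pos Finset.subset_union_left,
      LinearMap.id_apply]
    congr 1
    rw [Finset.union_sdiff_left]
    exact Finset.sdiff_eq_self_of_disjoint ht.symm) hc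
  simpa using this

lemma lk_eq_zero {e : Finset α} {c : Ch α} (hc : c ∈ Sp {t | ¬ e ⊆ t}) : lk e c = 0 := by
  have := Sp_eq (P := {t | ¬ e ⊆ t}) (φ := lk e) (ψ := (0 : Ch α →ₗ[ZMod 2] Ch α)) (by
    intro t ht
    simp only [Set.mem_ofPred_eq] at ht
    rw [lk_single, if_neg ht, LinearMap.zero_apply]) hc
  simpa using this

lemma bs_mem {e : Finset α} {c : Ch α} (hc : c ∈ Sp {t | Disjoint e t}) :
    bs e c ∈ Sp {t | ¬ e ⊆ t} := by
  apply Sp_map _ hc
  intro t ht
  simp only [Set.mem_ofPred_eq] at ht
  rw [bs_single]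
  apply Submodule.sum_mem
  intro v hv
  apply single_mem_Sp
  simp only [Set.mem_ofPred_eq]
  intro hsub
  have h1 := hsub hv
  rw [Finset.mem_union] at h1
  rcases h1 with h1 | h1
  · exact (Finset.notMem_erase v e) h1
  · exact Finset.disjoint_left.mp ht hv h1

lemma bd_mem_not_sub {e : Finset α} {c : Ch α} (hc : c ∈ Sp {t | ¬ e ⊆ t}) :
    bd c ∈ Sp {t | ¬ e ⊆ t} := by
  apply Sp_map _ hc
  intro t ht
  simp only [Set.mem_ofPred_eq] at ht
  rw [bd_single]
  apply Submodule.sum_mem
  intro v _
  apply single_mem_Sp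
  simp only [Set.mem_ofPred_eq]
  intro h
  exact ht (h.trans (Finset.erase_subset v t))

lemma split_lk (e : Finset α) (P : Set (Finset α)) {c : Ch α} (hc : c ∈ Sp P) :
    c + st e (lk e c) ∈ Sp {t | t ∈ P ∧ ¬ e ⊆ t} := by
  have h := Sp_map (P := P) (φ := LinearMap.id + st e ∘ₗ lk e) (Q := Sp {t | t ∈ P ∧ ¬ e ⊆ t}) (by
    intro t ht
    rw [LinearMap.add_apply, LinearMap.id_apply, LinearMap.comp_apply, lk_single]
    by_cases h : e ⊆ t
    · rw [if_pos h, st_single, Finset.union_sdiff_of_subset h, Ch.add_self]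
      exact Submodule.zero_mem _
    · rw [if_neg h, map_zero, add_zero]
      exact single_mem_Sp ⟨ht, h⟩) hc
  simpa using h

/-- the complex of all subsets of `E` which contain no member of `F` -/
def Cx (E : Finset α) (F : Finset (Finset α)) : Set (Finset α) :=
  {σ | σ ⊆ E ∧ ∀ f ∈ F, ¬ f ⊆ σ}

/-- `S` dominates `E` -/
def Dom (E : Finset α) (F : Finset (Finset α)) (S : Finset α) : Prop :=
  ∀ u ∈ E, u ∉ S → ∃ f ∈ F, u ∈ f ∧ f.erase u ⊆ S

/-- vanishing of the homology of the complex in sizes less than `k` -/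
lemma acyclic (n : ℕ) : ∀ (E : Finset α) (F : Finset (Finset α)), F.card ≤ n →
    (∀ f ∈ F, f ⊆ E ∧ 2 ≤ f.card) → ∀ k : ℕ,
    (∀ S : Finset α, S ⊆ E → Dom E F S → 2 * k ≤ S.card + 1) →
    ∀ s : ℕ, s + 1 ≤ k → ∀ z ∈ Sp {σ | σ ∈ Cx E F ∧ σ.card = s}, bd z = 0 →
      ∃ c ∈ Sp {σ | σ ∈ Cx E F ∧ σ.card = s + 1}, bd c = z := by
  induction n with
  | zero =>
    intro E F hFn hF k hγ s hs z hz hbz
    have hF0 : F = ∅ := Finset.card_eq_zero.mp (Nat.le_zero.mp hFn)
    subst hF0
    have hE : 2 * k ≤ E.card + 1 := hγ E (Finset.Subset.refl E) (fun u hu hu' => absurd hu hu')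
    have hEn : E.Nonempty := by
      rw [← Finset.card_pos]
      omega
    obtain ⟨v, hv⟩ := hEn
    obtain ⟨z0, hz0⟩ : ∃ z0 : Ch α, z0 = z + st {v} (lk {v} z) := ⟨_, rfl⟩
    have hz0m : z0 ∈ Sp {t | t ∈ {σ | σ ∈ Cx E ∅ ∧ σ.card = s} ∧ ¬ {v} ⊆ t} := by
      rw [hz0]
      exact split_lk {v} _ hz
    have hz0d : z0 ∈ Sp {t | Disjoint {v} t} := by
      refine Finsupp.supported_mono ?_ hz0m
      rintro t ⟨-, ht⟩
      simpa [Finset.singleton_subset_iff, Finset.disjoint_singleton_left] using ht
    have hlkd : lk {v} z ∈ Sp {t | Disjoint {v} t} := by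
      apply Sp_map (P := Set.univ) _ (mem_Sp_univ z)
      intro t _
      rw [lk_single]
      split_ifs
      · exact single_mem_Sp Finset.disjoint_sdiff
      · exact Submodule.zero_mem _
    have hzeq : z = z0 + st {v} (lk {v} z) := by
      rw [hz0, add_assoc, Ch.add_self, add_zero]
    -- `bs {v}` is the identity on such chains
    have hbs : ∀ c : Ch α, bs {v} c = c := by
      intro c
      have := Sp_eq (P := Set.univ) (φ := bs {v}) (ψ := (LinearMap.id : Ch α →ₗ[ZMod 2] Ch α)) (by
        intro t _
        rw [bs_single]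
        simp) (mem_Sp_univ c)
      simpa using this
    have h1 : bd z0 + (lk {v} z + st {v} (bd (lk {v} z))) = 0 := by
      rw [← hbz]
      conv_rhs => rw [hzeq]
      rw [map_add, bd_st hlkd, hbs]
    -- apply the splitting: the part without `v`
    have h2 : lk {v} (bd z0 + (lk {v} z + st {v} (bd (lk {v} z)))) = bd (lk {v} z) := by
      rw [map_add, map_add, lk_eq_zero (c := bd z0), lk_eq_zero (c := lk {v} z),
        lk_st (bd_mem_disj hlkd), zero_add, zero_add]
      · refine Finsupp.supported_mono ?_ hlkd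
        intro t ht
        simpa [Finset.singleton_subset_iff, Finset.disjoint_singleton_left] using ht
      · apply bd_mem_not_sub
        refine Finsupp.supported_mono ?_ hz0m
        rintro t ⟨-, ht⟩
        exact ht
    rw [h1, map_zero] at h2
    rw [← h2, map_zero, add_zero] at h1
    have h3 : lk {v} z = bd z0 := by
      have : bd z0 + lk {v} z + lk {v} z = lk {v} z := by rw [h1, zero_add]
      rw [add_assoc, Ch.add_self, add_zero] at this
      exact this.symm
    refine ⟨st {v} z0, ?_, ?_⟩
    · apply Sp_map _ hz0m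
      rintro t ⟨⟨ht, htc⟩, hvt⟩
      rw [st_single]
      apply single_mem_Sp
      rw [Finset.singleton_subset_iff] at hvt
      refine ⟨⟨Finset.union_subset (Finset.singleton_subset_iff.mpr hv) ht.1, by simp⟩, ?_⟩
      rw [← Finset.insert_eq, Finset.card_insert_of_notMem hvt, htc]
    · rw [bd_st hz0d, hbs, ← h3]
      exact hzeq.symm
  | succ n ih =>
    intro E F hFn hF k hγ s hs z hz hbz
    by_cases hF0 : F = ∅
    · subst hF0
      exact ih E ∅ (by simp) hF k hγ s hs z hz hbz
    -- a minimal member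
    obtain ⟨e, heF, hemin⟩ := F.exists_minimal (Finset.nonempty_iff_ne_empty.mpr hF0)
    have hmin : ∀ f ∈ F.erase e, ¬ f ⊆ e := by
      intro f hf hfe
      rw [Finset.mem_erase] at hf
      exact hf.1 (Finset.Subset.antisymm hfe (hemin hf.2 hfe))
    obtain ⟨heE, he2⟩ := hF e heF
    have hcardF : (F.erase e).card ≤ n := by
      rw [Finset.card_erase_of_mem heF]
      omega
    -- deletion of `e`
    have hγ' : ∀ S : Finset α, S ⊆ E → Dom E (F.erase e) S → 2 * k ≤ S.card + 1 := by
      intro S hS hD
      apply hγ S hS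
      intro u hu huS
      obtain ⟨f, hf, h⟩ := hD u hu huS
      exact ⟨f, Finset.mem_of_mem_erase hf, h⟩
    have hz' : z ∈ Sp {σ | σ ∈ Cx E (F.erase e) ∧ σ.card = s} := by
      refine Finsupp.supported_mono ?_ hz
      rintro σ ⟨⟨h1, h2⟩, h3⟩
      exact ⟨⟨h1, fun f hf => h2 f (Finset.mem_of_mem_erase hf)⟩, h3⟩
    obtain ⟨c', hc', hbc'⟩ := ih E (F.erase e) hcardF
      (fun f hf => hF f (Finset.mem_of_mem_erase hf)) k hγ' s hs z hz' hbz
    obtain ⟨d0, hd0⟩ : ∃ d0 : Ch α, d0 = lk e c' := ⟨_, rfl⟩
    obtain ⟨c1, hc1⟩ : ∃ c1 : Ch α, c1 = c' + st e d0 := ⟨_, rfl⟩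
    have hc1m : c1 ∈ Sp {t | t ∈ {σ | σ ∈ Cx E (F.erase e) ∧ σ.card = s + 1} ∧ ¬ e ⊆ t} := by
      rw [hc1, hd0]
      exact split_lk e _ hc'
    have hd0m : d0 ∈ Sp {t | Disjoint e t ∧ t ⊆ E ∧ (∀ f ∈ F.erase e, ¬ f ⊆ e ∪ t) ∧
        t.card + e.card = s + 1} := by
      rw [hd0]
      apply Sp_map _ hc'
      rintro t ⟨⟨htE, htF⟩, htc⟩
      rw [lk_single]
      split_ifs with h
      · apply single_mem_Sp
        refine ⟨Finset.disjoint_sdiff, Finset.sdiff_subset.trans htE, ?_, ?_⟩
        · intro f hf
          rw [Finset.union_sdiff_of_subset h]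
          exact htF f hf
        · rw [← htc, Finset.card_sdiff_add_card_eq_card h]
      · exact Submodule.zero_mem _
    have hd0d : d0 ∈ Sp {t | Disjoint e t} := by
      refine Finsupp.supported_mono ?_ hd0m
      rintro t ⟨h, -⟩
      exact h
    have hc'eq : c' = c1 + st e d0 := by
      rw [hc1, add_assoc, Ch.add_self, add_zero]
    have hzeq : z = bd c1 + (bs e d0 + st e (bd d0)) := by
      rw [← hbc']
      conv_lhs => rw [hc'eq]
      rw [map_add, bd_st hd0d]
    have hbd0 : bd d0 = 0 := by
      have h1 : lk e z = 0 := by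
        apply lk_eq_zero
        refine Finsupp.supported_mono ?_ hz
        rintro σ ⟨⟨-, h2⟩, -⟩
        exact h2 e heF
      rw [hzeq, map_add, map_add, lk_eq_zero (c := bd c1), lk_eq_zero (c := bs e d0),
        lk_st (bd_mem_disj hd0d), zero_add, zero_add] at h1
      · exact h1
      · exact bs_mem hd0d
      · apply bd_mem_not_sub
        refine Finsupp.supported_mono ?_ hc1m
        rintro t ⟨-, ht⟩
        exact ht
    -- the link
    have hlink : ∃ d1 ∈ Sp {t | Disjoint e t ∧ t ⊆ E ∧ (∀ f ∈ F.erase e, ¬ f ⊆ e ∪ t) ∧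
        t.card + e.card = s + 2}, bd d1 = d0 := by
      by_cases hes : e.card ≤ s + 1
      · set EL : Finset α := (E \ e).filter (fun u => ∀ f ∈ F.erase e, ¬ f ⊆ insert u e) with hEL
        set FL : Finset (Finset α) := ((F.erase e).image (fun f => f \ e)).filter (fun g => g ⊆ EL)
          with hFL
        have hCx : ∀ t : Finset α, t ∈ Cx EL FL ↔
            Disjoint e t ∧ t ⊆ E ∧ (∀ f ∈ F.erase e, ¬ f ⊆ e ∪ t) := by
          intro t
          constructor
          · rintro ⟨h1, h2⟩
            refine ⟨?_, ?_, ?_⟩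
            · rw [Finset.disjoint_right]
              intro a ha
              have := h1 ha
              rw [hEL, Finset.mem_filter, Finset.mem_sdiff] at this
              exact this.1.2
            · intro a ha
              have := h1 ha
              rw [hEL, Finset.mem_filter, Finset.mem_sdiff] at this
              exact this.1.1
            · intro f hf hft
              have h3 : f \ e ⊆ t := by
                intro a ha
                rw [Finset.mem_sdiff] at ha
                have := hft ha.1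
                rw [Finset.mem_union] at this
                exact this.resolve_left ha.2
              refine h2 (f \ e) ?_ h3
              rw [hFL, Finset.mem_filter, Finset.mem_image]
              exact ⟨⟨f, hf, rfl⟩, h3.trans h1⟩
          · rintro ⟨h1, h2, h3⟩
            refine ⟨?_, ?_⟩
            · intro a ha
              rw [hEL, Finset.mem_filter, Finset.mem_sdiff]
              refine ⟨⟨h2 ha, Finset.disjoint_right.mp h1 ha⟩, ?_⟩
              intro f hf hfa
              apply h3 f hf
              refine hfa.trans ?_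
              rw [Finset.insert_subset_iff]
              exact ⟨Finset.mem_union_right _ ha, Finset.subset_union_left⟩
            · intro g hg hgt
              rw [hFL, Finset.mem_filter, Finset.mem_image] at hg
              obtain ⟨⟨f, hf, rfl⟩, -⟩ := hg
              apply h3 f hf
              intro a ha
              rw [Finset.mem_union]
              by_cases hae : a ∈ e
              · exact Or.inl hae
              · exact Or.inr (hgt (Finset.mem_sdiff.mpr ⟨ha, hae⟩))
        have hFLcard : FL.card ≤ n :=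
          (Finset.card_filter_le _ _).trans (Finset.card_image_le.trans hcardF)
        have hFL2 : ∀ g ∈ FL, g ⊆ EL ∧ 2 ≤ g.card := by
          intro g hg
          rw [hFL, Finset.mem_filter, Finset.mem_image] at hg
          obtain ⟨⟨f, hf, rfl⟩, hgE⟩ := hg
          refine ⟨hgE, ?_⟩
          by_contra hlt
          have hle : (f \ e).card ≤ 1 := by omega
          rcases Nat.le_one_iff_eq_zero_or_eq_one.mp hle with h0 | h1
          · rw [Finset.card_eq_zero, Finset.sdiff_eq_empty_iff_subset] at h0
            exact hmin f hf h0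
          · obtain ⟨a, ha⟩ := Finset.card_eq_one.mp h1
            have haE : a ∈ EL := hgE (by rw [ha]; exact Finset.mem_singleton_self a)
            rw [hEL, Finset.mem_filter] at haE
            apply haE.2 f hf
            intro b hb
            by_cases hbe : b ∈ e
            · exact Finset.mem_insert_of_mem hbe
            · have : b ∈ f \ e := Finset.mem_sdiff.mpr ⟨hb, hbe⟩
              rw [ha, Finset.mem_singleton] at this
              rw [this]
              exact Finset.mem_insert_self _ _
        have hγL : ∀ S : Finset α, S ⊆ EL → Dom EL FL S → 2 * (k + 1 - e.card) ≤ S.card + 1 := by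
          intro S hS hD
          have hSE : S ⊆ E := by
            intro a ha
            have := hS ha
            rw [hEL, Finset.mem_filter, Finset.mem_sdiff] at this
            exact this.1.1
          have h1 : 2 * k ≤ (e ∪ S).card + 1 := by
            apply hγ _ (Finset.union_subset heE hSE)
            intro u hu huS
            rw [Finset.mem_union, not_or] at huS
            by_cases huL : u ∈ EL
            · obtain ⟨g, hg, hug, hgS⟩ := hD u huL huS.2
              rw [hFL, Finset.mem_filter, Finset.mem_image] at hg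
              obtain ⟨⟨f, hf, rfl⟩, -⟩ := hg
              refine ⟨f, Finset.mem_of_mem_erase hf, (Finset.mem_sdiff.mp hug).1, ?_⟩
              intro a ha
              rw [Finset.mem_erase] at ha
              rw [Finset.mem_union]
              by_cases hae : a ∈ e
              · exact Or.inl hae
              · right
                apply hgS
                rw [Finset.mem_erase, Finset.mem_sdiff]
                exact ⟨ha.1, ha.2, hae⟩
            · rw [hEL, Finset.mem_filter, not_and] at huL
              have h2 := huL (Finset.mem_sdiff.mpr ⟨hu, huS.1⟩)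
              push Not at h2
              obtain ⟨f, hf, hfu⟩ := h2
              refine ⟨f, Finset.mem_of_mem_erase hf, ?_, ?_⟩
              · by_contra huf
                apply hmin f hf
                intro a ha
                have := hfu ha
                rw [Finset.mem_insert] at this
                rcases this with h | h
                · exact absurd (h ▸ ha) huf
                · exact h
              · intro a ha
                rw [Finset.mem_erase] at ha
                have := hfu ha.2
                rw [Finset.mem_insert] at this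
                exact Finset.mem_union_left _ (this.resolve_left ha.1)
          have h2 := Finset.card_union_le e S
          omega
        have hd0L : d0 ∈ Sp {σ | σ ∈ Cx EL FL ∧ σ.card = s + 1 - e.card} := by
          refine Finsupp.supported_mono ?_ hd0m
          rintro t ⟨h1, h2, h3, h4⟩
          refine ⟨(hCx t).mpr ⟨h1, h2, h3⟩, ?_⟩
          omega
        obtain ⟨d1, hd1, hbd1⟩ := ih EL FL hFLcard hFL2 (k + 1 - e.card) hγL (s + 1 - e.card)
          (by omega) d0 hd0L hbd0
        refine ⟨d1, ?_, hbd1⟩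
        refine Finsupp.supported_mono ?_ hd1
        rintro t ⟨h1, h2⟩
        obtain ⟨h3, h4, h5⟩ := (hCx t).mp h1
        refine ⟨h3, h4, h5, ?_⟩
        omega
      · refine ⟨0, Submodule.zero_mem _, ?_⟩
        rw [map_zero]
        have hemp : d0 ∈ Sp (∅ : Set (Finset α)) := by
          refine Finsupp.supported_mono ?_ hd0m
          rintro t ⟨-, -, -, h4⟩
          omega
        rw [Finsupp.mem_supported] at hemp
        have h0 : d0.support = ∅ := by
          rw [← Finset.coe_eq_empty]
          exact Set.subset_empty_iff.mp hemp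
        exact (Finsupp.support_eq_empty.mp h0).symm
    obtain ⟨d1, hd1, hbd1⟩ := hlink
    have hd1d : d1 ∈ Sp {t | Disjoint e t} := by
      refine Finsupp.supported_mono ?_ hd1
      rintro t ⟨h, -⟩
      exact h
    refine ⟨c1 + bs e d1, ?_, ?_⟩
    · apply Submodule.add_mem
      · refine Finsupp.supported_mono ?_ hc1m
        rintro t ⟨⟨⟨h1, h2⟩, h3⟩, h4⟩
        refine ⟨⟨h1, ?_⟩, h3⟩
        intro f hf
        by_cases hfe : f = e
        · rw [hfe]; exact h4
        · exact h2 f (Finset.mem_erase.mpr ⟨hfe, hf⟩)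
      · apply Sp_map _ hd1
        rintro t ⟨h1, h2, h3, h4⟩
        rw [bs_single]
        apply Submodule.sum_mem
        intro v hv
        apply single_mem_Sp
        have hsub : e.erase v ∪ t ⊆ e ∪ t :=
          Finset.union_subset_union (Finset.erase_subset v e) (Finset.Subset.refl t)
        refine ⟨⟨?_, ?_⟩, ?_⟩
        · exact Finset.union_subset ((Finset.erase_subset v e).trans heE) h2
        · intro f hf hft
          by_cases hfe : f = e
          · rw [hfe] at hft
            have := hft hv
            rw [Finset.mem_union] at this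
            rcases this with h | h
            · exact Finset.notMem_erase v e h
            · exact Finset.disjoint_left.mp h1 hv h
          · exact h3 f (Finset.mem_erase.mpr ⟨hfe, hf⟩) (hft.trans hsub)
        · rw [Finset.card_union_of_disjoint
            (Finset.disjoint_of_subset_left (Finset.erase_subset v e) h1),
            Finset.card_erase_of_mem hv]
          omega
    · rw [map_add, bd_bs hd1d, hbd1]
      rw [hbd0, map_zero, add_zero] at hzeq
      exact hzeq.symm

end Chains

section Hall

variable {α : Type*} [DecidableEq α]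

/-- the coloured constraints inside `R` -/
def FK (K : ℕ) (F : Finset (Finset α)) (R : Finset α) : Finset (Finset (α × Fin K)) :=
  ((F.filter (fun f => f ⊆ R)) ×ˢ (univ : Finset (Fin K))).image (fun p => p.1 ×ˢ {p.2})

lemma mem_FK {K : ℕ} {F : Finset (Finset α)} {R : Finset α} {g : Finset (α × Fin K)} :
    g ∈ FK K F R ↔ ∃ f ∈ F, f ⊆ R ∧ ∃ b : Fin K, f ×ˢ {b} = g := by
  unfold FK
  rw [Finset.mem_image]
  constructor
  · rintro ⟨⟨f, b⟩, h, rfl⟩
    rw [Finset.mem_product, Finset.mem_filter] at h
    exact ⟨f, h.1.1, h.1.2, b, rfl⟩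
  · rintro ⟨f, hf, hfR, b, rfl⟩
    refine ⟨(f, b), ?_, rfl⟩
    rw [Finset.mem_product, Finset.mem_filter]
    exact ⟨⟨hf, hfR⟩, Finset.mem_univ _⟩

lemma card_prod_singleton {K : ℕ} (f : Finset α) (b : Fin K) : (f ×ˢ ({b} : Finset (Fin K))).card = f.card := by
  rw [Finset.card_product, Finset.card_singleton, mul_one]

lemma gamma_bound (V : Finset α) (F : Finset (Finset α))
    (hF : ∀ f ∈ F, f ⊆ V ∧ 2 ≤ f.card) (M : ℝ) (K : ℕ) (hMK : 2 * M ≤ K) (hK : 0 < K)
    (hcl : ∀ S : Finset α, S ⊆ V → S.Nonempty →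
      ((S ∪ V.filter (fun u => ∃ f ∈ F, u ∈ f ∧ f.erase u ⊆ S)).card : ℝ) ≤ M * S.card)
    (R : Finset α) (hR : R ⊆ V) (S : Finset (α × Fin K)) (hS : S ⊆ R ×ˢ univ)
    (hD : Dom (R ×ˢ univ) (FK K F R) S) : 2 * R.card ≤ S.card + 1 := by
  rcases R.eq_empty_or_nonempty with hRe | hRn
  · subst hRe
    simp
  obtain ⟨v0, hv0⟩ := hRn
  set Sb : Fin K → Finset α := fun b => (S.filter (fun p => p.2 = b)).image Prod.fst with hSb
  have hmem : ∀ (b : Fin K) (v : α), v ∈ Sb b ↔ (v, b) ∈ S := by
    intro b v
    simp only [hSb, Finset.mem_image, Finset.mem_filter]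
    constructor
    · rintro ⟨⟨x, y⟩, ⟨h1, h2⟩, h3⟩
      simp only at h2 h3
      rw [← h2, ← h3]
      exact h1
    · intro h
      exact ⟨(v, b), ⟨h, rfl⟩, rfl⟩
  have hcard : ∀ b, (Sb b).card = (S.filter (fun p => p.2 = b)).card := by
    intro b
    apply Finset.card_image_of_injOn
    rintro ⟨x, y⟩ hx ⟨x', y'⟩ hx' h
    simp only [Finset.coe_filter, Set.mem_ofPred_eq] at hx hx' h
    rw [h, hx.2, hx'.2]
  have hsum : ∑ b : Fin K, (Sb b).card = S.card := by
    simp only [hcard]
    exact (Finset.card_eq_sum_card_fiberwise (f := Prod.snd) (t := univ)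
      (fun x _ => Finset.mem_coe.mpr (Finset.mem_univ _))).symm
  -- blocked elements
  have hblock : ∀ (b : Fin K) (v : α), v ∈ R → v ∉ Sb b → ∃ f ∈ F, v ∈ f ∧ f.erase v ⊆ Sb b := by
    intro b v hv hvS
    rw [hmem] at hvS
    obtain ⟨g, hg, hvg, hgS⟩ := hD (v, b) (Finset.mem_product.mpr ⟨hv, Finset.mem_univ _⟩) hvS
    obtain ⟨f, hf, -, b', rfl⟩ := mem_FK.mp hg
    rw [Finset.mem_product, Finset.mem_singleton] at hvg
    obtain ⟨hvf, hbb'⟩ := hvg
    simp only at hvf hbb'
    refine ⟨f, hf, hvf, ?_⟩
    intro w hw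
    rw [Finset.mem_erase] at hw
    rw [hmem]
    apply hgS
    rw [Finset.mem_erase, Finset.mem_product, Finset.mem_singleton]
    refine ⟨?_, hw.2, hbb'⟩
    intro h
    exact hw.1 (congrArg Prod.fst h)
  have hne : ∀ b, (Sb b).Nonempty := by
    intro b
    by_contra hcon
    rw [Finset.not_nonempty_iff_eq_empty] at hcon
    obtain ⟨f, hf, hvf, hfS⟩ := hblock b v0 hv0 (by rw [hcon]; exact Finset.notMem_empty _)
    rw [hcon, Finset.subset_empty] at hfS
    have h1 := (hF f hf).2
    have h2 : (f.erase v0).card = f.card - 1 := Finset.card_erase_of_mem hvf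
    rw [hfS, Finset.card_empty] at h2
    omega
  have hsubV : ∀ b, Sb b ⊆ V := by
    intro b v hv
    rw [hmem] at hv
    exact hR (Finset.mem_product.mp (hS hv)).1
  have hone : ∀ b, (R.card : ℝ) ≤ M * (Sb b).card := by
    intro b
    refine le_trans ?_ (hcl (Sb b) (hsubV b) (hne b))
    have : R ⊆ Sb b ∪ V.filter (fun u => ∃ f ∈ F, u ∈ f ∧ f.erase u ⊆ Sb b) := by
      intro v hv
      by_cases hvS : v ∈ Sb b
      · exact Finset.mem_union_left _ hvS
      · apply Finset.mem_union_right
        rw [Finset.mem_filter]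
        exact ⟨hR hv, hblock b v hv hvS⟩
    exact_mod_cast Finset.card_le_card this
  have hRpos : (0 : ℝ) < R.card := by
    exact_mod_cast Finset.card_pos.mpr ⟨v0, hv0⟩
  have hMpos : 0 < M := by
    have h1 := hone ⟨0, hK⟩
    by_contra hcon
    push Not at hcon
    have h2 : M * ((Sb ⟨0, hK⟩).card : ℝ) ≤ 0 :=
      mul_nonpos_of_nonpos_of_nonneg hcon (Nat.cast_nonneg _)
    linarith
  have htot : (K : ℝ) * R.card ≤ M * S.card := by
    calc (K : ℝ) * R.card = ∑ _b : Fin K, (R.card : ℝ) := by simp
      _ ≤ ∑ b : Fin K, M * ((Sb b).card : ℝ) := Finset.sum_le_sum (fun b _ => hone b)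
      _ = M * S.card := by
          rw [← Finset.mul_sum, ← Nat.cast_sum, hsum]
  have h2 : M * (2 * R.card) ≤ M * S.card := by
    calc M * (2 * R.card) = (2 * M) * R.card := by ring
      _ ≤ K * R.card := mul_le_mul_of_nonneg_right hMK hRpos.le
      _ ≤ _ := htot
  have h3 : (2 * R.card : ℝ) ≤ S.card := le_of_mul_le_mul_left h2 hMpos
  have h4 : 2 * R.card ≤ S.card := by exact_mod_cast h3
  omega

lemma exists_chains (V : Finset α) (F : Finset (Finset α))
    (hF : ∀ f ∈ F, f ⊆ V ∧ 2 ≤ f.card) (M : ℝ) (K : ℕ) (hMK : 2 * M ≤ K) (hK : 0 < K)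
    (hcl : ∀ S : Finset α, S ⊆ V → S.Nonempty →
      ((S ∪ V.filter (fun u => ∃ f ∈ F, u ∈ f ∧ f.erase u ⊆ S)).card : ℝ) ≤ M * S.card) (n : ℕ) :
    ∃ c : Finset α → Ch (α × Fin K), ∀ R : Finset α, R ⊆ V → R.card ≤ n →
      c R ∈ Sp {σ | σ ∈ Cx (R ×ˢ univ) (FK K F R) ∧ σ.card = R.card} ∧
      bd (c R) = ∑ v ∈ R, c (R.erase v) ∧ (R = ∅ → c R = Finsupp.single ∅ 1) := by
  induction n with
  | zero =>
    refine ⟨fun _ => Finsupp.single ∅ 1, ?_⟩
    intro R hR hRn
    have hRe : R = ∅ := Finset.card_eq_zero.mp (Nat.le_zero.mp hRn)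
    subst hRe
    refine ⟨?_, ?_, fun _ => rfl⟩
    · apply single_mem_Sp
      refine ⟨⟨Finset.empty_subset _, ?_⟩, rfl⟩
      intro g hg _
      obtain ⟨f, hf, hfe, -⟩ := mem_FK.mp hg
      have h1 := (hF f hf).2
      rw [Finset.subset_empty.mp hfe, Finset.card_empty] at h1
      omega
    · rw [bd_single]
      simp
  | succ n ih =>
    obtain ⟨c, hc⟩ := ih
    have hex : ∀ R : Finset α, ∃ d : Ch (α × Fin K), R ⊆ V → R.card = n + 1 →
        d ∈ Sp {σ | σ ∈ Cx (R ×ˢ univ) (FK K F R) ∧ σ.card = R.card} ∧
        bd d = ∑ v ∈ R, c (R.erase v) := by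
      intro R
      by_cases hR : R ⊆ V ∧ R.card = n + 1
      swap
      · exact ⟨0, fun h1 h2 => absurd ⟨h1, h2⟩ hR⟩
      obtain ⟨hRV, hRn⟩ := hR
      have hzm : ∑ v ∈ R, c (R.erase v) ∈
          Sp {σ | σ ∈ Cx (R ×ˢ univ) (FK K F R) ∧ σ.card = n} := by
        apply Submodule.sum_mem
        intro v hv
        have hcard : (R.erase v).card = n := by
          rw [Finset.card_erase_of_mem hv, hRn]
          rfl
        obtain ⟨h1, -, -⟩ := hc (R.erase v) ((Finset.erase_subset v R).trans hRV) hcard.le
        refine Finsupp.supported_mono ?_ h1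
        rintro σ ⟨⟨h2, h3⟩, h4⟩
        refine ⟨⟨?_, ?_⟩, h4.trans hcard⟩
        · exact h2.trans (Finset.product_subset_product_left (Finset.erase_subset v R))
        · intro g hg hgσ
          obtain ⟨f, hf, hfR, b, rfl⟩ := mem_FK.mp hg
          refine h3 (f ×ˢ {b}) (mem_FK.mpr ⟨f, hf, ?_, b, rfl⟩) hgσ
          intro w hw
          have h5 : (w, b) ∈ f ×ˢ ({b} : Finset (Fin K)) :=
            Finset.mem_product.mpr ⟨hw, Finset.mem_singleton_self b⟩
          exact (Finset.mem_product.mp (h2 (hgσ h5))).1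
      have hbz : bd (∑ v ∈ R, c (R.erase v)) = 0 := by
        rw [map_sum]
        have : ∀ v ∈ R, bd (c (R.erase v)) = ∑ w ∈ R.erase v, c ((R.erase v).erase w) := by
          intro v hv
          have hcard : (R.erase v).card = n := by
            rw [Finset.card_erase_of_mem hv, hRn]
            rfl
          exact (hc (R.erase v) ((Finset.erase_subset v R).trans hRV) hcard.le).2.1
        rw [Finset.sum_congr rfl this]
        exact sum_erase_erase Ch.add_self R c
      obtain ⟨d, hd, hbd⟩ := acyclic (FK K F R).card (R ×ˢ univ) (FK K F R) le_rfl (by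
        intro g hg
        obtain ⟨f, hf, hfR, b, rfl⟩ := mem_FK.mp hg
        refine ⟨Finset.product_subset_product hfR (Finset.subset_univ _), ?_⟩
        rw [card_prod_singleton]
        exact (hF f hf).2) R.card
        (fun S hS hD => gamma_bound V F hF M K hMK hK hcl R hRV S hS hD) n (by omega) _ hzm hbz
      refine ⟨d, fun _ _ => ⟨?_, hbd⟩⟩
      refine Finsupp.supported_mono ?_ hd
      rintro σ ⟨h1, h2⟩
      exact ⟨h1, by rw [h2, hRn]⟩
    choose d hd using hex
    refine ⟨fun R => if R.card ≤ n then c R else d R, ?_⟩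
    intro R hR hRn
    by_cases hle : R.card ≤ n
    · obtain ⟨h1, h2, h3⟩ := hc R hR hle
      have hval : ∀ v ∈ R, (if (R.erase v).card ≤ n then c (R.erase v) else d (R.erase v))
          = c (R.erase v) := by
        intro v _
        rw [if_pos ((Finset.card_le_card (Finset.erase_subset v R)).trans hle)]
      refine ⟨?_, ?_, ?_⟩
      · simpa only [if_pos hle] using h1
      · simp only [if_pos hle]
        rw [h2, Finset.sum_congr rfl hval]
      · intro h
        simp only [if_pos hle]
        exact h3 h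
    · have hRn1 : R.card = n + 1 := by omega
      obtain ⟨h1, h2⟩ := hd R hR hRn1
      have hval : ∀ v ∈ R, (if (R.erase v).card ≤ n then c (R.erase v) else d (R.erase v))
          = c (R.erase v) := by
        intro v hv
        rw [if_pos]
        rw [Finset.card_erase_of_mem hv]
        omega
      refine ⟨?_, ?_, ?_⟩
      · simpa only [if_neg hle] using h1
      · simp only [if_neg hle]
        rw [h2, Finset.sum_congr rfl hval]
      · intro h
        rw [h, Finset.card_empty] at hRn1
        omega

/-- number (mod 2) of transversal simplices -/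
noncomputable def phi {K : ℕ} (R : Finset α) : Ch (α × Fin K) →ₗ[ZMod 2] ZMod 2 :=
  Finsupp.linearCombination (ZMod 2)
    (fun σ : Finset (α × Fin K) => if σ.image Prod.fst = R ∧ σ.card = R.card then (1 : ZMod 2) else 0)

lemma phi_single {K : ℕ} (R : Finset α) (σ : Finset (α × Fin K)) :
    phi R (Finsupp.single σ 1) = if σ.image Prod.fst = R ∧ σ.card = R.card then 1 else 0 := by
  simp [phi]

lemma phi_bd {K : ℕ} (R : Finset α) (v : α) (hv : v ∈ R) {x : Ch (α × Fin K)}
    (hx : x ∈ Sp {σ | σ ⊆ R ×ˢ univ ∧ σ.card = R.card}) : phi (R.erase v) (bd x) = phi R x := by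
  have := Sp_eq (P := {σ | σ ⊆ R ×ˢ univ ∧ σ.card = R.card}) (φ := phi (K := K) (R.erase v) ∘ₗ bd)
    (ψ := phi R) (by
    rintro σ ⟨hσR, hσc⟩
    rw [LinearMap.comp_apply, bd_single, map_sum]
    simp only [phi_single]
    have hfst : ∀ x ∈ σ, x.1 ∈ R := fun x hx => (Finset.mem_product.mp (hσR hx)).1
    have hec : ∀ x ∈ σ, (σ.erase x).card = (R.erase v).card := by
      intro x hx
      rw [Finset.card_erase_of_mem hx, Finset.card_erase_of_mem hv, hσc]
    rw [← Finset.sum_filter, Finset.sum_const, nsmul_one]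
    set N := σ.filter (fun x => (σ.erase x).image Prod.fst = R.erase v ∧
      (σ.erase x).card = (R.erase v).card) with hN
    have hinj : ∀ x ∈ N, Set.InjOn Prod.fst (σ.erase x : Set (α × Fin K)) := by
      intro x hx
      rw [hN, Finset.mem_filter] at hx
      rw [← Finset.card_image_iff, hx.2.1, hx.2.2]
    by_cases hA : σ.image Prod.fst = R
    · rw [if_pos ⟨hA, hσc⟩]
      have hinjσ : Set.InjOn Prod.fst (σ : Set (α × Fin K)) := by
        rw [← Finset.card_image_iff, hA, hσc]
      have hv' : v ∈ σ.image Prod.fst := by rw [hA]; exact hv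
      obtain ⟨x0, hx0, hx0v⟩ := Finset.mem_image.mp hv'
      have hNs : N = {x0} := by
        ext x
        rw [Finset.mem_singleton, hN, Finset.mem_filter]
        constructor
        · rintro ⟨hx, hxi, -⟩
          by_contra hne
          have h1 : x0 ∈ σ.erase x := Finset.mem_erase.mpr ⟨fun h => hne h.symm, hx0⟩
          have h2 : x0.1 ∈ R.erase v := by
            rw [← hxi]
            exact Finset.mem_image_of_mem _ h1
          rw [hx0v] at h2
          exact Finset.notMem_erase v R h2
        · rintro rfl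
          refine ⟨hx0, ?_, hec x hx0⟩
          ext w
          rw [Finset.mem_image, Finset.mem_erase]
          constructor
          · rintro ⟨y, hy, rfl⟩
            rw [Finset.mem_erase] at hy
            refine ⟨?_, hfst y hy.2⟩
            intro h
            exact hy.1 (hinjσ (Finset.mem_coe.mpr hy.2) (Finset.mem_coe.mpr hx0) (h.trans hx0v.symm))
          · rintro ⟨hwv, hwR⟩
            rw [← hA, Finset.mem_image] at hwR
            obtain ⟨y, hy, rfl⟩ := hwR
            refine ⟨y, Finset.mem_erase.mpr ⟨?_, hy⟩, rfl⟩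
            rintro rfl
            exact hwv hx0v
      rw [hNs, Finset.card_singleton, Nat.cast_one]
    · rw [if_neg (fun h => hA h.1)]
      rcases N.eq_empty_or_nonempty with hNe | ⟨x, hxN⟩
      · rw [hNe, Finset.card_empty, Nat.cast_zero]
      · have hxN' := hxN
        rw [hN, Finset.mem_filter] at hxN'
        obtain ⟨hx, hxi, hxc⟩ := hxN'
        have hxv : x.1 ≠ v := by
          intro h
          apply hA
          ext w
          rw [Finset.mem_image]
          constructor
          · rintro ⟨y, hy, rfl⟩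
            exact hfst y hy
          · intro hw
            by_cases hwv : w = v
            · exact ⟨x, hx, h.trans hwv.symm⟩
            · have : w ∈ R.erase v := Finset.mem_erase.mpr ⟨hwv, hw⟩
              rw [← hxi, Finset.mem_image] at this
              obtain ⟨y, hy, hyw⟩ := this
              exact ⟨y, Finset.mem_of_mem_erase hy, hyw⟩
        have hx1 : x.1 ∈ R.erase v := Finset.mem_erase.mpr ⟨hxv, hfst x hx⟩
        rw [← hxi, Finset.mem_image] at hx1
        obtain ⟨x', hx', hxx'⟩ := hx1
        have hx'σ : x' ∈ σ := Finset.mem_of_mem_erase hx'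
        have hne : x' ≠ x := (Finset.mem_erase.mp hx').1
        have hx'i : (σ.erase x').image Prod.fst = R.erase v := by
          rw [← hxi]
          ext w
          rw [Finset.mem_image, Finset.mem_image]
          constructor
          · rintro ⟨y, hy, rfl⟩
            by_cases hyx : y = x
            · exact ⟨x', hx', by rw [hyx, hxx']⟩
            · exact ⟨y, Finset.mem_erase.mpr ⟨hyx, Finset.mem_of_mem_erase hy⟩, rfl⟩
          · rintro ⟨y, hy, rfl⟩
            by_cases hyx : y = x'
            · exact ⟨x, Finset.mem_erase.mpr ⟨hne.symm, hx⟩, by rw [hyx, hxx']⟩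
            · exact ⟨y, Finset.mem_erase.mpr ⟨hyx, Finset.mem_of_mem_erase hy⟩, rfl⟩
        have hNs : N = {x, x'} := by
          ext y
          rw [Finset.mem_insert, Finset.mem_singleton]
          constructor
          · intro hy
            by_contra hcon
            push Not at hcon
            have h1 := hinj y hy (Finset.mem_coe.mpr (Finset.mem_erase.mpr ⟨hcon.1.symm, hx⟩))
              (Finset.mem_coe.mpr (Finset.mem_erase.mpr ⟨hcon.2.symm, hx'σ⟩)) hxx'.symm
            exact hne h1.symm
          · rintro (rfl | rfl)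
            · exact hxN
            · rw [hN, Finset.mem_filter]
              exact ⟨hx'σ, hx'i, hec _ hx'σ⟩
        rw [hNs, Finset.card_pair hne.symm]
        rfl) hx
  simpa using this

/-- **Topological colouring theorem.** -/
theorem tt (V : Finset α) (F : Finset (Finset α))
    (hF : ∀ f ∈ F, f ⊆ V ∧ 2 ≤ f.card) (M : ℝ) (K : ℕ) (hMK : 2 * M ≤ K) (hK : 0 < K)
    (hcl : ∀ S : Finset α, S ⊆ V → S.Nonempty →
      ((S ∪ V.filter (fun u => ∃ f ∈ F, u ∈ f ∧ f.erase u ⊆ S)).card : ℝ) ≤ M * S.card) :
    ∃ c : α → Fin K, ∀ f ∈ F, ∃ x ∈ f, ∃ y ∈ f, c x ≠ c y := by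
  obtain ⟨c, hc⟩ := exists_chains V F hF M K hMK hK hcl V.card
  have hT : ∀ n : ℕ, ∀ R : Finset α, R ⊆ V → R.card = n → phi R (c R) = 1 := by
    intro n
    induction n with
    | zero =>
      intro R hR hRn
      have hRe : R = ∅ := Finset.card_eq_zero.mp hRn
      subst hRe
      rw [(hc ∅ hR (by simp)).2.2 rfl, phi_single]
      simp
    | succ n ih =>
      intro R hR hRn
      have hRne : R.Nonempty := by
        rw [← Finset.card_pos]
        omega
      obtain ⟨v, hv⟩ := hRne
      obtain ⟨h1, h2, -⟩ := hc R hR (Finset.card_le_card hR)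
      have h3 : c R ∈ Sp {σ | σ ⊆ R ×ˢ (univ : Finset (Fin K)) ∧ σ.card = R.card} := by
        refine Finsupp.supported_mono ?_ h1
        rintro σ ⟨⟨h4, -⟩, h5⟩
        exact ⟨h4, h5⟩
      rw [← phi_bd R v hv h3, h2, map_sum]
      have h4 : ∀ w ∈ R, w ≠ v → phi (R.erase v) (c (R.erase w)) = 0 := by
        intro w hw hwv
        obtain ⟨h5, -, -⟩ := hc (R.erase w) ((Finset.erase_subset w R).trans hR)
          ((Finset.card_le_card ((Finset.erase_subset w R).trans hR)))
        have := Sp_eq (φ := phi (K := K) (R.erase v)) (ψ := 0) (by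
          rintro σ ⟨⟨h6, -⟩, -⟩
          rw [phi_single, if_neg, LinearMap.zero_apply]
          rintro ⟨h7, -⟩
          have h8 : w ∈ σ.image Prod.fst := by
            rw [h7]
            exact Finset.mem_erase.mpr ⟨hwv, hw⟩
          obtain ⟨y, hy, hyw⟩ := Finset.mem_image.mp h8
          have h9 := (Finset.mem_product.mp (h6 hy)).1
          rw [hyw] at h9
          exact Finset.notMem_erase w R h9) h5
        simpa using this
      rw [Finset.sum_eq_single v (fun w hw hwv => h4 w hw hwv) (fun h => absurd hv h)]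
      apply ih (R.erase v) ((Finset.erase_subset v R).trans hR)
      rw [Finset.card_erase_of_mem hv, hRn]
      rfl
  have hTV := hT V.card V (Finset.Subset.refl V) rfl
  have hex : ∃ σ : Finset (α × Fin K), σ ∈ Cx (V ×ˢ univ) (FK K F V) ∧ σ.image Prod.fst = V := by
    by_contra hcon
    push Not at hcon
    obtain ⟨h1, -, -⟩ := hc V (Finset.Subset.refl V) le_rfl
    have := Sp_eq (φ := phi (K := K) V) (ψ := 0) (by
      rintro σ ⟨h2, -⟩
      rw [phi_single, if_neg, LinearMap.zero_apply]
      rintro ⟨h3, -⟩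
      exact hcon σ h2 h3) h1
    rw [hTV] at this
    simp at this
  obtain ⟨σ, ⟨hσV, hσF⟩, hσi⟩ := hex
  have hb : ∀ v : α, ∃ b : Fin K, v ∈ V → (v, b) ∈ σ := by
    intro v
    by_cases hv : v ∈ V
    · rw [← hσi, Finset.mem_image] at hv
      obtain ⟨⟨w, b⟩, hw, hwv⟩ := hv
      simp only at hwv
      subst hwv
      exact ⟨b, fun _ => hw⟩
    · exact ⟨⟨0, hK⟩, fun h => absurd h hv⟩
  choose col hcol using hb
  refine ⟨col, ?_⟩
  intro f hf
  by_contra hcon
  push Not at hcon
  obtain ⟨hfV, hf2⟩ := hF f hf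
  have hfn : f.Nonempty := by
    rw [← Finset.card_pos]
    omega
  obtain ⟨x, hx⟩ := hfn
  apply hσF (f ×ˢ {col x}) (mem_FK.mpr ⟨f, hf, hfV, col x, rfl⟩)
  rintro ⟨y, b⟩ hy
  rw [Finset.mem_product, Finset.mem_singleton] at hy
  simp only at hy
  rw [hy.2, hcon x hx y hy.1]
  exact hcol y (hfV hy.1)

/-- **Colouring by absorption.** If every `S` absorbs at most `M |S|` elements then there is a
colouring with `K ≥ 2 (1 + M)` colours in which every nonempty monochromatic set `B` has an element
`u` which is not absorbed by `B \ {u}`. -/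
theorem absorb (V : Finset α) (ab : Finset α → α → Prop)
    (mono : ∀ S T : Finset α, ∀ u, S ⊆ T → ab S u → ab T u)
    (M : ℝ) (K : ℕ) (hMK : 2 * (1 + M) ≤ K) (hK : 0 < K)
    (hcl : ∀ S T : Finset α, S ⊆ V → T ⊆ V → (∀ u ∈ T, ab S u) → (T.card : ℝ) ≤ M * S.card) :
    ∃ c : α → Fin K, ∀ B : Finset α, B ⊆ V → B.Nonempty → (∀ x ∈ B, ∀ y ∈ B, c x = c y) →
      ∃ u ∈ B, ¬ ab (B.erase u) u := by
  classical
  set F : Finset (Finset α) := V.powerset.filter
    (fun B => 2 ≤ B.card ∧ ∀ u ∈ B, ab (B.erase u) u) with hFdef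
  obtain ⟨c, hc⟩ := tt V F (by
    intro f hf
    rw [hFdef, Finset.mem_filter, Finset.mem_powerset] at hf
    exact ⟨hf.1, hf.2.1⟩) (1 + M) K hMK hK (by
    intro S hS _
    have h1 : (V.filter (fun u => ∃ f ∈ F, u ∈ f ∧ f.erase u ⊆ S)).card ≤ M * (S.card : ℝ) := by
      apply hcl S _ hS (Finset.filter_subset _ _)
      intro u hu
      rw [Finset.mem_filter] at hu
      obtain ⟨-, f, hf, huf, hfS⟩ := hu
      rw [hFdef, Finset.mem_filter] at hf
      exact mono _ _ u hfS (hf.2.2 u huf)
    calc ((S ∪ V.filter (fun u => ∃ f ∈ F, u ∈ f ∧ f.erase u ⊆ S)).card : ℝ)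
        ≤ (S.card + (V.filter (fun u => ∃ f ∈ F, u ∈ f ∧ f.erase u ⊆ S)).card : ℕ) := by
          exact_mod_cast Finset.card_union_le _ _
      _ ≤ S.card + M * S.card := by
          push_cast
          linarith
      _ = (1 + M) * S.card := by ring)
  refine ⟨c, ?_⟩
  intro B hBV hBn hBc
  by_contra hcon
  push Not at hcon
  by_cases hB2 : 2 ≤ B.card
  · have hBF : B ∈ F := by
      rw [hFdef, Finset.mem_filter, Finset.mem_powerset]
      exact ⟨hBV, hB2, hcon⟩
    obtain ⟨x, hx, y, hy, hxy⟩ := hc B hBF
    exact hxy (hBc x hx y hy)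
  · have hB1 : B.card = 1 := by
      have := hBn.card_pos
      omega
    obtain ⟨u, hu⟩ := Finset.card_eq_one.mp hB1
    have h1 : ab (B.erase u) u := hcon u (by rw [hu]; exact Finset.mem_singleton_self u)
    rw [hu, Finset.erase_singleton] at h1
    have h2 := hcl ∅ {u} (Finset.empty_subset _) (by rw [← hu]; exact hBV) (by
      intro w hw
      rw [Finset.mem_singleton] at hw
      rw [hw]
      exact h1)
    simp at h2
    linarith

end Hall

end Pool.Agent.S12
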