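import Pool.Agent.S12.Defs

/-!
# Row SH: shattering of order `m`

The number of sums with coefficients `0..m` over `B` is at most the sum of `m ^ |T|` over the dissociated
subsets `T` of `B`.
-/

set_option autoImplicit false

namespace Pool.Agent.S12

open Finset

variable {A : Type*}

/-- `T` is weakly shattered by `F` -/
def Sh (m : ℕ) (F : Finset (A → ℕ)) (T : Finset A) : Prop :=
  ∀ Y : Finset A, Y ⊆ T → ∃ f ∈ F, (∀ b ∈ Y, 1 ≤ f b) ∧ ∀ b ∈ T, b ∉ Y → f b < m

/-- the shattering lemma -/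
theorem card_le_sum_sh (m : ℕ) (B : Finset A) : ∀ F : Finset (A → ℕ), (∀ f ∈ F, ∀ b, f b ≤ m) →
    (∀ f ∈ F, ∀ b, b ∉ B → f b = 0) →
    ∃ 𝒯 : Finset (Finset A), (∀ T ∈ 𝒯, T ⊆ B ∧ Sh m F T) ∧ F.card ≤ ∑ T ∈ 𝒯, m ^ T.card := by
  classical
  induction B using Finset.induction_on with
  | empty =>
    intro F _ hF0
    rcases F.eq_empty_or_nonempty with rfl | ⟨f, hf⟩
    · exact ⟨∅, by simp, by simp⟩
    · refine ⟨{∅}, ?_, ?_⟩
      · intro T hT
        rw [mem_singleton] at hT
        subst hT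
        refine ⟨subset_rfl, fun Y hY => ⟨f, hf, ?_, by simp⟩⟩
        rw [subset_empty] at hY
        subst hY
        simp
      · rw [sum_singleton, card_empty, pow_zero]
        refine card_le_one.2 fun g hg g' hg' => ?_
        funext b
        rw [hF0 g hg b (notMem_empty b), hF0 g' hg' b (notMem_empty b)]
  | insert b B hb ih =>
    intro F hFm hF0
    set res : (A → ℕ) → (A → ℕ) := fun f => Function.update f b 0 with hres
    set F1 := F.image res with hF1
    set F2 := F1.filter fun g => 1 < (F.filter fun f => res f = g).card with hF2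
    have hres_ne : ∀ f a, a ≠ b → res f a = f a := fun f a ha => Function.update_of_ne ha _ _
    have hres_b : ∀ f, res f b = 0 := fun f => Function.update_self b 0 f
    -- the fibres
    have hfib : ∀ g, (F.filter fun f => res f = g).card ≤ m + 1 := by
      intro g
      have h1 : ((F.filter fun f => res f = g).image fun f => f b).card = (F.filter fun f => res f = g).card := by
        refine card_image_of_injOn fun f hf f' hf' h => ?_
        simp only [coe_filter, Set.mem_ofPred_eq] at hf hf'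
        funext a
        by_cases ha : a = b
        · subst ha
          exact h
        · rw [← hres_ne f a ha, ← hres_ne f' a ha, hf.2, hf'.2]
      rw [← h1, ← card_range (m + 1)]
      refine card_le_card fun x hx => ?_
      obtain ⟨f, hf, rfl⟩ := mem_image.1 hx
      rw [mem_range, Nat.lt_succ_iff]
      exact hFm f (mem_filter.1 hf).1 b
    have hcard : F.card ≤ F1.card + m * F2.card := by
      have h1 : F.card = ∑ g ∈ F1, (F.filter fun f => res f = g).card := card_eq_sum_card_image res F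
      have h2 : ∀ g ∈ F1, (F.filter fun f => res f = g).card ≤
          1 + if 1 < (F.filter fun f => res f = g).card then m else 0 := by
        intro g _
        split_ifs with h
        · have := hfib g
          omega
        · omega
      rw [h1]
      refine (sum_le_sum h2).trans ?_
      rw [sum_add_distrib, sum_const, smul_eq_mul, mul_one, ← sum_filter, sum_const, smul_eq_mul, mul_comm m]
    obtain ⟨T1, hT1, hc1⟩ := ih F1 (by
      intro g hg a
      obtain ⟨f, hf, rfl⟩ := mem_image.1 hg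
      by_cases ha : a = b
      · subst ha
        rw [hres_b]
        exact Nat.zero_le _
      · rw [hres_ne f a ha]
        exact hFm f hf a) (by
      intro g hg a ha
      obtain ⟨f, hf, rfl⟩ := mem_image.1 hg
      by_cases hab : a = b
      · subst hab
        exact hres_b f
      · rw [hres_ne f a hab]
        exact hF0 f hf a fun h => ha ((mem_insert.1 h).resolve_left hab))
    obtain ⟨T2, hT2, hc2⟩ := ih F2 (by
      intro g hg a
      obtain ⟨f, hf, rfl⟩ := mem_image.1 (mem_filter.1 hg).1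
      by_cases ha : a = b
      · subst ha
        rw [hres_b]
        exact Nat.zero_le _
      · rw [hres_ne f a ha]
        exact hFm f hf a) (by
      intro g hg a ha
      obtain ⟨f, hf, rfl⟩ := mem_image.1 (mem_filter.1 hg).1
      by_cases hab : a = b
      · subst hab
        exact hres_b f
      · rw [hres_ne f a hab]
        exact hF0 f hf a fun h => ha ((mem_insert.1 h).resolve_left hab))
    have hbT : ∀ T ∈ T2, b ∉ T := fun T hT h => hb ((hT2 T hT).1 h)
    refine ⟨T1 ∪ T2.image (insert b), ?_, ?_⟩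
    · intro T hT
      rcases mem_union.1 hT with h | h
      · refine ⟨(hT1 T h).1.trans (subset_insert b B), fun Y hY => ?_⟩
        have hbT1 : b ∉ T := fun h2 => hb ((hT1 T h).1 h2)
        obtain ⟨g, hg, h1, h2⟩ := (hT1 T h).2 Y hY
        obtain ⟨f, hf, rfl⟩ := mem_image.1 hg
        have hne : ∀ a ∈ T, a ≠ b := fun a ha h3 => hbT1 (h3 ▸ ha)
        refine ⟨f, hf, fun a ha => ?_, fun a ha ha' => ?_⟩
        · rw [← hres_ne f a (hne a (hY ha))]
          exact h1 a ha
        · rw [← hres_ne f a (hne a ha)]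
          exact h2 a ha ha'
      · obtain ⟨T', hT', rfl⟩ := mem_image.1 h
        refine ⟨insert_subset_insert b (hT2 T' hT').1, fun Y hY => ?_⟩
        have hbT' := hbT T' hT'
        obtain ⟨g, hg, h1, h2⟩ := (hT2 T' hT').2 (Y.erase b) (by
          rwa [← subset_insert_iff])
        obtain ⟨f, hf, f', hf', hff⟩ := one_lt_card.1 (mem_filter.1 hg).2
        rw [mem_filter] at hf hf'
        have hfb : f b ≠ f' b := by
          intro h3
          apply hff
          funext a
          by_cases ha : a = b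
          · subst ha
            exact h3
          · rw [← hres_ne f a ha, ← hres_ne f' a ha, hf.2, hf'.2]
        have hne : ∀ a ∈ T', a ≠ b := fun a ha h3 => hbT' (h3 ▸ ha)
        -- a function with given position of `f b`
        have key : ∀ e ∈ F, res e = g → (b ∈ Y → 1 ≤ e b) → (b ∉ Y → e b < m) →
            (∀ a ∈ Y, 1 ≤ e a) ∧ ∀ a ∈ insert b T', a ∉ Y → e a < m := by
          intro e _ heg hb1 hb2
          refine ⟨fun a ha => ?_, fun a ha ha' => ?_⟩
          · by_cases hab : a = b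
            · subst hab
              exact hb1 ha
            · rw [← hres_ne e a hab, heg]
              exact h1 a (mem_erase.2 ⟨hab, ha⟩)
          · by_cases hab : a = b
            · subst hab
              exact hb2 ha'
            · rw [← hres_ne e a hab, heg]
              exact h2 a ((mem_insert.1 ha).resolve_left hab) fun h3 => ha' (mem_erase.1 h3).2
        have hm1 := hFm f hf.1 b
        have hm2 := hFm f' hf'.1 b
        by_cases hbY : b ∈ Y
        · rcases Nat.lt_or_ge (f b) (f' b) with h3 | h3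
          · exact ⟨f', hf'.1, key f' hf'.1 hf'.2 (fun _ => by omega) (fun h => absurd hbY h)⟩
          · exact ⟨f, hf.1, key f hf.1 hf.2 (fun _ => by omega) (fun h => absurd hbY h)⟩
        · rcases Nat.lt_or_ge (f b) (f' b) with h3 | h3
          · exact ⟨f, hf.1, key f hf.1 hf.2 (fun h => absurd h hbY) (fun _ => by omega)⟩
          · exact ⟨f', hf'.1, key f' hf'.1 hf'.2 (fun h => absurd h hbY) (fun _ => by omega)⟩
    · have hdisj : Disjoint T1 (T2.image (insert b)) := by
        rw [disjoint_left]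
        intro T h1 h2
        obtain ⟨T', -, rfl⟩ := mem_image.1 h2
        exact hb ((hT1 _ h1).1 (mem_insert_self b T'))
      have hinj : ∀ T ∈ T2, ∀ T' ∈ T2, insert b T = insert b T' → T = T' := by
        intro T hT T' hT' h
        rw [← erase_insert (hbT T hT), ← erase_insert (hbT T' hT'), h]
      rw [sum_union hdisj, sum_image hinj]
      have h3 : ∑ T ∈ T2, m ^ (insert b T).card = m * ∑ T ∈ T2, m ^ T.card := by
        rw [mul_sum]
        refine sum_congr rfl fun T hT => ?_
        rw [card_insert_of_notMem (hbT T hT), pow_succ, mul_comm]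
      rw [h3]
      exact hcard.trans (add_le_add hc1 (Nat.mul_le_mul_left m hc2))

/-- generic weights -/
theorem exists_weight (B : Finset A) : ∃ φ : A → ℕ, ∀ X Y : Finset A, X ⊆ B → Y ⊆ B →
    ∑ x ∈ X, φ x = ∑ x ∈ Y, φ x → X = Y := by
  classical
  set e : A → ℕ := fun x => if h : x ∈ B then (B.equivFin ⟨x, h⟩ : ℕ) else 0 with he
  have hinj : Set.InjOn e B := by
    intro x hx y hy hxy
    have hx' : x ∈ B := hx
    have hy' : y ∈ B := hy
    simp only [he, dif_pos hx', dif_pos hy'] at hxy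
    exact congrArg Subtype.val (B.equivFin.injective (Fin.ext hxy))
  refine ⟨fun x => 2 ^ e x, fun X Y hX hY h => ?_⟩
  have key : ∀ F : Finset A, F ⊆ B → ∑ x ∈ F, 2 ^ e x = ∑ i ∈ F.image e, 2 ^ i := by
    intro F hF
    rw [sum_image (hinj.mono hF)]
  have h' : ∑ x ∈ X, 2 ^ e x = ∑ x ∈ Y, 2 ^ e x := h
  rw [key X hX, key Y hY] at h'
  have h2 : X.image e = Y.image e := geomSum_injective (n := 2) le_rfl h'
  ext x
  constructor
  · intro hx
    have h3 : e x ∈ X.image e := mem_image_of_mem e hx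
    rw [h2] at h3
    obtain ⟨y, hy, hxy⟩ := mem_image.1 h3
    rwa [← hinj (hY hy) (hX hx) hxy]
  · intro hx
    have h3 : e x ∈ Y.image e := mem_image_of_mem e hx
    rw [← h2] at h3
    obtain ⟨y, hy, hxy⟩ := mem_image.1 h3
    rwa [← hinj (hX hy) (hY hx) hxy]

variable [AddCommGroup A]

/-- **ROW SH** shattering: sums with coefficients `0..m` are at most `∑ m ^ |T|`, `T` dissociated -/
theorem card_sums_le [DecidableEq A] (m : ℕ) (_hm : 1 ≤ m) (B P : Finset A)
    (hP : ∀ y ∈ P, ∃ f : A → ℕ, (∀ b, f b ≤ m) ∧ ∑ b ∈ B, f b • b = y) :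
    ∃ 𝒯 : Finset (Finset A), (∀ T ∈ 𝒯, T ⊆ B ∧ Dis T) ∧ P.card ≤ ∑ T ∈ 𝒯, m ^ T.card := by
  classical
  obtain ⟨φ, hφ⟩ := exists_weight B
  -- minimal representatives
  have hex : ∀ y : A, ∃ f : A → ℕ, y ∈ P → ((∀ b, f b ≤ m) ∧ (∀ b, b ∉ B → f b = 0) ∧ ∑ b ∈ B, f b • b = y ∧
      ∀ g : A → ℕ, (∀ b, g b ≤ m) → ∑ b ∈ B, g b • b = y → ∑ b ∈ B, f b * φ b ≤ ∑ b ∈ B, g b * φ b) := by
    intro y
    by_cases hy : y ∈ P
    · obtain ⟨f0, hf0, hf0y⟩ := hP y hy
      have hne : ∃ w, ∃ f : A → ℕ, (∀ b, f b ≤ m) ∧ ∑ b ∈ B, f b • b = y ∧ ∑ b ∈ B, f b * φ b = w :=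
        ⟨_, f0, hf0, hf0y, rfl⟩
      obtain ⟨f, hf1, hf2, hf3⟩ := Nat.find_spec hne
      refine ⟨fun b => if b ∈ B then f b else 0, fun _ => ⟨?_, ?_, ?_, ?_⟩⟩
      · intro b
        show (if b ∈ B then f b else 0) ≤ m
        split_ifs
        · exact hf1 b
        · exact Nat.zero_le _
      · intro b hb
        exact if_neg hb
      · rw [← hf2]
        refine sum_congr rfl fun b hb => ?_
        show (if b ∈ B then f b else 0) • b = f b • b
        rw [if_pos hb]
      · intro g hg1 hg2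
        have h1 : ∑ b ∈ B, (if b ∈ B then f b else 0) * φ b = ∑ b ∈ B, f b * φ b :=
          sum_congr rfl fun b hb => by rw [if_pos hb]
        rw [h1, hf3]
        exact Nat.find_min' hne ⟨g, hg1, hg2, rfl⟩
    · exact ⟨fun _ => 0, fun h => absurd h hy⟩
  choose rep hrep using hex
  set F := P.image rep with hF
  have hFc : F.card = P.card := by
    refine card_image_of_injOn fun y hy y' hy' h => ?_
    rw [← (hrep y hy).2.2.1, ← (hrep y' hy').2.2.1, h]
  obtain ⟨𝒯, h𝒯, hcard⟩ := card_le_sum_sh m B F (by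
    intro f hf
    obtain ⟨y, hy, rfl⟩ := mem_image.1 hf
    exact (hrep y hy).1) (by
    intro f hf
    obtain ⟨y, hy, rfl⟩ := mem_image.1 hf
    exact (hrep y hy).2.1)
  refine ⟨𝒯, fun T hT => ⟨(h𝒯 T hT).1, ?_⟩, hFc ▸ hcard⟩
  obtain ⟨hTB, hsh⟩ := h𝒯 T hT
  -- no relation
  have key : ∀ X Y : Finset A, X ⊆ T → Y ⊆ T → Disjoint X Y → ∑ x ∈ X, x = ∑ y ∈ Y, y →
      ∑ x ∈ Y, φ x ≤ ∑ x ∈ X, φ x := by
    intro X Y hX hY hXY hs
    obtain ⟨f, hf, h1, h2⟩ := hsh Y hY
    obtain ⟨y, hy, rfl⟩ := mem_image.1 hf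
    obtain ⟨r1, r2, r3, r4⟩ := hrep y hy
    set g : A → ℕ := fun b => if b ∈ X then rep y b + 1 else if b ∈ Y then rep y b - 1 else rep y b with hg
    have hgm : ∀ b, g b ≤ m := by
      intro b
      simp only [hg]
      by_cases hbX : b ∈ X
      · rw [if_pos hbX]
        exact h2 b (hX hbX) (disjoint_left.1 hXY hbX)
      · rw [if_neg hbX]
        have := r1 b
        split_ifs <;> omega
    have hgf : ∀ b, g b + (if b ∈ Y then 1 else 0) = rep y b + (if b ∈ X then 1 else 0) := by
      intro b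
      simp only [hg]
      by_cases hbX : b ∈ X
      · have hbY : b ∉ Y := disjoint_left.1 hXY hbX
        simp [hbX, hbY]
      · by_cases hbY : b ∈ Y
        · have := h1 b hbY
          simp [hbX, hbY]
          omega
        · simp [hbX, hbY]
    have hsumX : ∀ (Z : Finset A), Z ⊆ T → ∑ b ∈ B, (if b ∈ Z then 1 else 0) • b = ∑ b ∈ Z, b := by
      intro Z hZ
      simp only [ite_smul, one_smul, zero_smul]
      rw [← sum_filter]
      congr 1
      ext b
      rw [mem_filter]
      exact ⟨fun h => h.2, fun h => ⟨hTB (hZ h), h⟩⟩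
    have hsumφ : ∀ (Z : Finset A), Z ⊆ T → ∑ b ∈ B, (if b ∈ Z then 1 else 0) * φ b = ∑ b ∈ Z, φ b := by
      intro Z hZ
      simp only [ite_mul, one_mul, zero_mul]
      rw [← sum_filter]
      congr 1
      ext b
      rw [mem_filter]
      exact ⟨fun h => h.2, fun h => ⟨hTB (hZ h), h⟩⟩
    have hgs : ∑ b ∈ B, g b • b = y := by
      have h3 : ∑ b ∈ B, (g b + (if b ∈ Y then 1 else 0)) • b =
          ∑ b ∈ B, (rep y b + (if b ∈ X then 1 else 0)) • b := sum_congr rfl fun b _ => by rw [hgf b]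
      simp only [add_smul, sum_add_distrib] at h3
      rw [hsumX Y hY, hsumX X hX, r3, hs] at h3
      exact add_right_cancel h3
    have h4 := r4 g hgm hgs
    have h5 : ∑ b ∈ B, (g b + (if b ∈ Y then 1 else 0)) * φ b =
        ∑ b ∈ B, (rep y b + (if b ∈ X then 1 else 0)) * φ b := sum_congr rfl fun b _ => by rw [hgf b]
    simp only [add_mul, sum_add_distrib] at h5
    rw [hsumφ Y hY, hsumφ X hX] at h5
    omega
  intro X Y hX hY hs
  have hd : ∑ x ∈ X \ Y, x = ∑ x ∈ Y \ X, x := by
    have h1 := sum_sdiff (f := fun x : A => x) (inter_subset_left : X ∩ Y ⊆ X)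
    have h2 := sum_sdiff (f := fun x : A => x) (inter_subset_right : X ∩ Y ⊆ Y)
    rw [sdiff_inter_self_left] at h1
    rw [sdiff_inter_self_right] at h2
    rw [← h1, ← h2] at hs
    exact add_right_cancel hs
  have hdis : Disjoint (X \ Y) (Y \ X) := by
    rw [disjoint_left]
    intro x h1 h2
    exact (mem_sdiff.1 h1).2 (mem_sdiff.1 h2).1
  have hX' : X \ Y ⊆ T := sdiff_subset.trans hX
  have hY' : Y \ X ⊆ T := sdiff_subset.trans hY
  have h1 := key _ _ hX' hY' hdis hd
  have h2 := key _ _ hY' hX' hdis.symm hd.symm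
  have h3 := hφ _ _ (hX'.trans hTB) (hY'.trans hTB) (le_antisymm h2 h1)
  have h4 : X \ Y = ∅ := by
    have h5 : Disjoint (X \ Y) (X \ Y) := by
      nth_rewrite 2 [h3]
      exact hdis
    exact disjoint_self.1 h5
  have h5 : Y \ X = ∅ := by rw [← h3, h4]
  exact subset_antisymm (sdiff_eq_empty_iff_subset.1 h4) (sdiff_eq_empty_iff_subset.1 h5)

/-- **ROW SH**, consequence -/
theorem exists_dis_of_card [DecidableEq A] (m : ℕ) (hm : 1 ≤ m) (δ : ℝ) (B P : Finset A)
    (hP : ∀ y ∈ P, ∃ f : A → ℕ, (∀ b, f b ≤ m) ∧ ∑ b ∈ B, f b • b = y)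
    (hcard : ((m : ℝ) + 1) ^ ((1 - δ) * B.card) ≤ (P.card : ℝ)) :
    ∃ T : Finset A, T ⊆ B ∧ Dis T ∧
      (1 - δ - Real.log 2 / Real.log (m + 1)) * B.card ≤ T.card := by
  classical
  obtain ⟨𝒯, h𝒯, hle⟩ := card_sums_le m hm B P hP
  have hm0 : (0 : ℝ) < (m : ℝ) + 1 := by positivity
  have hm1 : (1 : ℝ) < (m : ℝ) + 1 := by
    have : (1 : ℝ) ≤ m := by exact_mod_cast hm
    linarith
  have hlog : 0 < Real.log ((m : ℝ) + 1) := Real.log_pos hm1
  have hPpos : (0 : ℝ) < P.card := (Real.rpow_pos_of_pos hm0 _).trans_le hcard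
  have hne : 𝒯.Nonempty := by
    rw [nonempty_iff_ne_empty]
    rintro rfl
    rw [sum_empty] at hle
    have : (P.card : ℝ) ≤ 0 := by exact_mod_cast hle
    linarith
  obtain ⟨T, hT, hmax⟩ := exists_max_image 𝒯 card hne
  refine ⟨T, (h𝒯 T hT).1, (h𝒯 T hT).2, ?_⟩
  have h1 : P.card ≤ 2 ^ B.card * m ^ T.card := by
    refine hle.trans ?_
    have h2 : ∑ T' ∈ 𝒯, m ^ T'.card ≤ ∑ T' ∈ 𝒯, m ^ T.card :=
      sum_le_sum fun T' hT' => Nat.pow_le_pow_right hm (hmax T' hT')
    refine h2.trans ?_
    rw [sum_const, smul_eq_mul]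
    refine Nat.mul_le_mul_right _ ?_
    rw [← card_powerset]
    exact card_le_card fun T' hT' => mem_powerset.2 (h𝒯 T' hT').1
  have h2 : (P.card : ℝ) ≤ 2 ^ B.card * ((m : ℝ) + 1) ^ T.card := by
    have h3 : (P.card : ℝ) ≤ 2 ^ B.card * (m : ℝ) ^ T.card := by exact_mod_cast h1
    refine h3.trans (mul_le_mul_of_nonneg_left ?_ (by positivity))
    exact pow_le_pow_left₀ (Nat.cast_nonneg m) (by linarith) _
  have h3 := Real.log_le_log (Real.rpow_pos_of_pos hm0 _) (hcard.trans h2)
  rw [Real.log_rpow hm0, Real.log_mul (by positivity) (by positivity), Real.log_pow, Real.log_pow] at h3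
  have h4 : (1 - δ - Real.log 2 / Real.log ((m : ℝ) + 1)) * B.card * Real.log ((m : ℝ) + 1) ≤
      T.card * Real.log ((m : ℝ) + 1) := by
    have h5 : (1 - δ - Real.log 2 / Real.log ((m : ℝ) + 1)) * B.card * Real.log ((m : ℝ) + 1) =
        (1 - δ) * B.card * Real.log ((m : ℝ) + 1) - B.card * Real.log 2 := by
      field_simp
    rw [h5]
    linarith
  exact le_of_mul_le_mul_right h4 hlog

/-- subset sums: at most as many as dissociated subsets -/
theorem card_subset_sums_le [DecidableEq A] (B P : Finset A)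
    (hP : ∀ y ∈ P, ∃ F : Finset A, F ⊆ B ∧ ∑ x ∈ F, x = y) :
    ∃ 𝒯 : Finset (Finset A), (∀ T ∈ 𝒯, T ⊆ B ∧ Dis T) ∧ P.card ≤ 𝒯.card := by
  obtain ⟨𝒯, h1, h2⟩ := card_sums_le 1 le_rfl B P (by
    intro y hy
    obtain ⟨F, hF, hFy⟩ := hP y hy
    refine ⟨fun b => if b ∈ F then 1 else 0, fun b => ?_, ?_⟩
    · show (if b ∈ F then 1 else 0) ≤ 1
      split_ifs <;> omega
    · simp only [ite_smul, one_smul, zero_smul]
      rw [← sum_filter, ← hFy]
      congr 1
      ext b
      rw [mem_filter]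
      exact ⟨fun h => h.2, fun h => ⟨hF h, h⟩⟩)
  refine ⟨𝒯, h1, ?_⟩
  simpa using h2

end Pool.Agent.S12
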