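import Pool.Agent.S12.Defs
import Pool.Agent.Helper72.Sidon.Defs
import Pool.Agent.Helper56.SidonDiss.Walsh

/-!
# Sidon sets are proportionately dissociated
-/

namespace Pool.Agent.S12

open Finset
open Pool.Agent.Helper56.SidonDiss (ssum)

namespace SidonRow

variable {A : Type*} [AddCommGroup A] [DecidableEq A]

open Classical in
/-- Pajor: the number of subset sums is at most the number of dissociated subsets. -/
theorem card_ssum_le (B : Finset A) : #(ssum B) ≤ #{T ∈ B.powerset | Dis T} := by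
  classical
  -- an injective weight
  obtain ⟨W, hWinj, hWadd⟩ : ∃ W : Finset A → ℕ,
      (∀ X Y : Finset A, X ⊆ B → Y ⊆ B → W X = W Y → X = Y) ∧
      (∀ X Y : Finset A, Disjoint X Y → W (X ∪ Y) = W X + W Y) := by
    let e : A → ℕ := fun a => if h : a ∈ B then (B.equivFin ⟨a, h⟩ : ℕ) else 0
    have he : ∀ a ∈ B, ∀ b ∈ B, e a = e b → a = b := by
      intro a ha b hb hab
      simp only [e, dif_pos ha, dif_pos hb] at hab
      have := B.equivFin.injective (Fin.ext hab)
      exact congrArg Subtype.val this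
    refine ⟨fun X => ∑ x ∈ X, 2 ^ e x, ?_, ?_⟩
    · intro X Y hX hY hXY
      have h1 : ∀ Z : Finset A, Z ⊆ B → ∑ x ∈ Z, 2 ^ e x = ∑ i ∈ Z.image e, 2 ^ i := by
        intro Z hZ
        rw [Finset.sum_image]
        intro a ha b hb hab
        exact he a (hZ ha) b (hZ hb) hab
      have h2 : ∑ i ∈ X.image e, 2 ^ i = ∑ i ∈ Y.image e, 2 ^ i := by
        rw [← h1 X hX, ← h1 Y hY]; exact hXY
      have h3 := Finset.geomSum_injective (n := 2) le_rfl h2
      have h4 : ∀ U V : Finset A, U ⊆ B → V ⊆ B → U.image e = V.image e → U ⊆ V := by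
        intro U V hU hV hUV a ha
        have : e a ∈ V.image e := hUV ▸ Finset.mem_image_of_mem e ha
        obtain ⟨b, hb, hba⟩ := Finset.mem_image.mp this
        rw [← he b (hV hb) a (hU ha) hba]
        exact hb
      exact Finset.Subset.antisymm (h4 X Y hX hY h3) (h4 Y X hY hX h3.symm)
    · intro X Y hXY
      exact Finset.sum_union hXY
  set Fam : Finset (Finset A) := B.powerset.filter
    (fun F => ∀ F' ⊆ B, ∑ x ∈ F', x = ∑ x ∈ F, x → W F ≤ W F') with hFam
  have h1 : #(ssum B) ≤ #Fam := by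
    have : ssum B ⊆ Fam.image (fun F => ∑ x ∈ F, x) := by
      intro y hy
      obtain ⟨F0, hF0, hF0y⟩ := Finset.mem_image.mp hy
      have hne : (B.powerset.filter (fun F => ∑ x ∈ F, x = y)).Nonempty :=
        ⟨F0, Finset.mem_filter.mpr ⟨hF0, hF0y⟩⟩
      obtain ⟨F, hF, hmin⟩ := Finset.exists_min_image _ W hne
      rw [Finset.mem_filter] at hF
      refine Finset.mem_image.mpr ⟨F, ?_, hF.2⟩
      rw [hFam, Finset.mem_filter]
      refine ⟨hF.1, fun F' hF' hs => hmin F' ?_⟩
      rw [Finset.mem_filter, Finset.mem_powerset]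
      exact ⟨hF', hs.trans hF.2⟩
    exact (Finset.card_le_card this).trans Finset.card_image_le
  have h2 := Finset.card_le_card_shatterer Fam
  refine h1.trans (h2.trans (Finset.card_le_card ?_))
  intro T hT
  rw [Finset.mem_shatterer] at hT
  have hTB : T ⊆ B := by
    obtain ⟨u, hu, huT⟩ := hT (Finset.Subset.refl T)
    rw [hFam, Finset.mem_filter, Finset.mem_powerset] at hu
    rw [← huT]
    exact Finset.inter_subset_right.trans hu.1
  rw [Finset.mem_filter, Finset.mem_powerset]
  refine ⟨hTB, ?_⟩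
  -- key step
  have key : ∀ X Y : Finset A, X ⊆ T → Y ⊆ T → Disjoint X Y → ∑ x ∈ X, x = ∑ y ∈ Y, y →
      ¬ W X < W Y := by
    intro X Y hX hY hXY hs hlt
    obtain ⟨F, hF, hFT⟩ := hT hY
    rw [hFam, Finset.mem_filter, Finset.mem_powerset] at hF
    have hYF : Y ⊆ F := by rw [← hFT]; exact Finset.inter_subset_right
    have hXF : Disjoint X (F \ Y) := by
      rw [Finset.disjoint_left]
      intro a haX haF
      rw [Finset.mem_sdiff] at haF
      have : a ∈ T ∩ F := Finset.mem_inter.mpr ⟨hX haX, haF.1⟩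
      rw [hFT] at this
      exact haF.2 this
    have hFY : F = Y ∪ (F \ Y) := (Finset.union_sdiff_of_subset hYF).symm
    have hsum : ∑ x ∈ X ∪ (F \ Y), x = ∑ x ∈ F, x := by
      rw [Finset.sum_union hXF, hs]
      conv_rhs => rw [hFY]
      rw [Finset.sum_union Finset.disjoint_sdiff]
    have hle := hF.2 (X ∪ (F \ Y)) (Finset.union_subset (hX.trans hTB)
      (Finset.sdiff_subset.trans hF.1)) hsum
    rw [hWadd _ _ hXF] at hle
    have hWF : W F = W Y + W (F \ Y) := by
      conv_lhs => rw [hFY]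
      exact hWadd _ _ Finset.disjoint_sdiff
    omega
  intro X Y hX hY hs
  have hX' : X \ Y ⊆ T := Finset.sdiff_subset.trans hX
  have hY' : Y \ X ⊆ T := Finset.sdiff_subset.trans hY
  have hd : Disjoint (X \ Y) (Y \ X) := disjoint_sdiff_sdiff
  have hs' : ∑ x ∈ X \ Y, x = ∑ y ∈ Y \ X, y := by
    have e1 : ∑ x ∈ X \ Y, x + ∑ x ∈ X ∩ Y, x = ∑ x ∈ X, x := by
      rw [add_comm, Finset.sum_inter_add_sum_sdiff]
    have e2 : ∑ x ∈ Y \ X, x + ∑ x ∈ X ∩ Y, x = ∑ x ∈ Y, x := by
      rw [Finset.inter_comm, add_comm, Finset.sum_inter_add_sum_sdiff]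
    have : ∑ x ∈ X \ Y, x + ∑ x ∈ X ∩ Y, x = ∑ x ∈ Y \ X, x + ∑ x ∈ X ∩ Y, x := by
      rw [e1, e2, hs]
    exact add_right_cancel this
  have hWeq : W (X \ Y) = W (Y \ X) := by
    have k1 := key _ _ hX' hY' hd hs'
    have k2 := key _ _ hY' hX' hd.symm hs'.symm
    omega
  have heq := hWinj _ _ (hX'.trans hTB) (hY'.trans hTB) hWeq
  have hemp : X \ Y = ∅ := by
    have : Disjoint (X \ Y) (X \ Y) := by
      conv_rhs => rw [heq]
      exact hd
    exact Finset.disjoint_self_iff_empty _ |>.mp this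
  have hemp' : Y \ X = ∅ := heq ▸ hemp
  exact Finset.Subset.antisymm (Finset.sdiff_eq_empty_iff_subset.mp hemp)
    (Finset.sdiff_eq_empty_iff_subset.mp hemp')

omit [DecidableEq A] in
theorem dis_empty : Dis (∅ : Finset A) := by
  intro X Y hX hY _
  rw [Finset.subset_empty.mp hX, Finset.subset_empty.mp hY]

omit [DecidableEq A] in
theorem dis_singleton {b : A} (hb : b ≠ 0) : Dis ({b} : Finset A) := by
  intro X Y hX hY h
  rcases Finset.subset_singleton_iff.mp hX with rfl | rfl <;>
    rcases Finset.subset_singleton_iff.mp hY with rfl | rfl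
  · rfl
  · simp at h; exact absurd h.symm hb
  · simp at h; exact absurd h hb
  · rfl

/-- the size of the largest dissociated subset controls the number of subset sums -/
theorem exists_dis_log (B : Finset A) {x : ℝ} (hx0 : 0 < x) (hx1 : x ≤ 1)
    (hB : ∀ b ∈ B, b ≠ 0) :
    ∃ D : Finset A, D ⊆ B ∧ Dis D ∧ (B.Nonempty → D.Nonempty) ∧
      Real.log #(ssum B) ≤ #B * x + #D * Real.log (1 / x) := by
  classical
  have hne : (B.powerset.filter (fun T => Dis T)).Nonempty :=
    ⟨∅, Finset.mem_filter.mpr ⟨Finset.empty_mem_powerset B, dis_empty⟩⟩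
  obtain ⟨D, hD, hmax⟩ := Finset.exists_max_image _ Finset.card hne
  rw [Finset.mem_filter, Finset.mem_powerset] at hD
  refine ⟨D, hD.1, hD.2, ?_, ?_⟩
  · rintro ⟨b, hb⟩
    have := hmax {b} (Finset.mem_filter.mpr ⟨Finset.mem_powerset.mpr
      (Finset.singleton_subset_iff.mpr hb), dis_singleton (hB b hb)⟩)
    rw [Finset.card_singleton] at this
    exact Finset.card_pos.mp (by omega)
  · have h1 : (#(ssum B) : ℝ) ≤ #(B.powerset.filter (fun T => Dis T)) := by
      exact_mod_cast card_ssum_le B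
    have h2 : x ^ #D * (#(B.powerset.filter (fun T => Dis T)) : ℝ) ≤ (x + 1) ^ #B := by
      calc x ^ #D * (#(B.powerset.filter (fun T => Dis T)) : ℝ)
          = ∑ T ∈ B.powerset.filter (fun T => Dis T), x ^ #D := by
            rw [Finset.sum_const, nsmul_eq_mul, mul_comm]
        _ ≤ ∑ T ∈ B.powerset.filter (fun T => Dis T), x ^ #T := by
            refine Finset.sum_le_sum (fun T hT => ?_)
            exact pow_le_pow_of_le_one hx0.le hx1 (hmax T hT)
        _ ≤ ∑ T ∈ B.powerset, x ^ #T :=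
            Finset.sum_le_sum_of_subset_of_nonneg (Finset.filter_subset _ _)
              (fun _ _ _ => by positivity)
        _ = (x + 1) ^ #B := by
            rw [← Finset.sum_pow_mul_eq_add_pow x 1 B]
            refine Finset.sum_congr rfl (fun T _ => ?_)
            rw [one_pow, mul_one]
    have hN : (0 : ℝ) < #(ssum B) := by
      have : (ssum B).Nonempty := ⟨_, Finset.mem_image_of_mem _ (Finset.empty_mem_powerset B)⟩
      exact_mod_cast this.card_pos
    have h3 : (#(ssum B) : ℝ) ≤ Real.exp (#B * x) * (1 / x) ^ #D := by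
      have h4 : (x + 1) ^ #B ≤ Real.exp (#B * x) := by
        rw [Real.exp_nat_mul]
        exact pow_le_pow_left₀ (by linarith) (Real.add_one_le_exp x) _
      have h5 : x ^ #D * (#(ssum B) : ℝ) ≤ Real.exp (#B * x) :=
        (mul_le_mul_of_nonneg_left h1 (by positivity)).trans (h2.trans h4)
      rw [one_div, inv_pow, ← div_eq_mul_inv, le_div_iff₀ (by positivity), mul_comm]
      exact h5
    calc Real.log #(ssum B) ≤ Real.log (Real.exp (#B * x) * (1 / x) ^ #D) :=
          Real.log_le_log hN h3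
      _ = _ := by
          rw [Real.log_mul (Real.exp_pos _).ne' (by positivity), Real.log_exp, Real.log_pow]

end SidonRow

/-- ROW SID: Sidon sets are proportionately quasi-independent (Pisier). -/
theorem sidon_prop (C : ℝ) : ∃ c : ℝ, 0 < c ∧ ∀ (G : Type*) [CommGroup G] [TopologicalSpace G]
    (Λ : Set (PontryaginDual G)), 1 ∉ Λ →
      Pool.Agent.Helper72.Sidon.IsSidonWith C Λ →
      ∀ B : Finset (Additive (PontryaginDual G)), (∀ b ∈ B, b.toMul ∈ Λ) →
        ∃ D : Finset (Additive (PontryaginDual G)), D ⊆ B ∧ Dis D ∧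
          c * (B.card : ℝ) ≤ (D.card : ℝ) := by
  set C' : ℝ := max C 1 with hC'
  have hC1 : 1 ≤ C' := le_max_right _ _
  have hCC : C ≤ C' := le_max_left _ _
  have hCpos : 0 < C' := by linarith
  set x : ℝ := 1 / (40 * C' ^ 2) with hx
  have hx0 : 0 < x := by positivity
  have hC2 : 1 ≤ C' ^ 2 := one_le_pow₀ hC1
  have hx1 : x ≤ 1 := by
    rw [hx, div_le_one (by positivity)]
    linarith
  have hlx : 0 ≤ Real.log (1 / x) := Real.log_nonneg (by rw [le_div_iff₀ hx0]; linarith)
  have hl4 : 0 < Real.log 4 := Real.log_pos (by norm_num)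
  refine ⟨1 / (40 * C' ^ 2 * (Real.log 4 + Real.log (1 / x))), by positivity, ?_⟩
  intro G _ _ Λ h1 hS B hB
  classical
  have hB0 : ∀ b ∈ B, b ≠ 0 := by
    intro b hb h0
    apply h1
    have := hB b hb
    rw [h0] at this
    exact this
  obtain ⟨D, hDB, hD, hne, hlog⟩ := SidonRow.exists_dis_log B hx0 hx1 hB0
  refine ⟨D, hDB, hD, ?_⟩
  rcases B.eq_empty_or_nonempty with rfl | hBne
  · simp
  have hD1 : (1 : ℝ) ≤ #D := by exact_mod_cast (hne hBne).card_pos
  -- the Sidon inequality
  have hmain : (#B : ℝ) ≤ 20 * C' ^ 2 * Real.log (4 * #(ssum B)) := by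
    refine Pool.Agent.Helper56.SidonDiss.card_le_log B
      (fun (x : G) (a : Additive (PontryaginDual G)) => ((a.toMul x : Circle) : ℂ))
      (fun x => by simp) (fun x a b => by rw [toMul_add]; rfl) (fun x a => Circle.norm_coe _) hC1 ?_
    intro s hs M hM
    have hinj : Function.Injective (Additive.toMul : Additive (PontryaginDual G) → _) :=
      Additive.toMul.injective
    have := hS (B.map ⟨Additive.toMul, hinj⟩) (by
      intro γ hγ
      rw [Finset.mem_coe, Finset.mem_map] at hγ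
      obtain ⟨b, hb, rfl⟩ := hγ
      exact hB b hb) (fun γ => (s (Additive.ofMul γ) : ℂ))
    rw [Finset.sum_map] at this
    simp only [Function.Embedding.coeFn_mk, ofMul_toMul, Finset.sum_map] at this
    have e1 : ∑ a ∈ B, ‖((s a : ℝ) : ℂ)‖ = #B := by
      rw [Finset.sum_congr rfl (g := fun _ => (1 : ℝ)), Finset.sum_const, nsmul_eq_mul, mul_one]
      intro a _
      rcases hs a with h | h <;> rw [h] <;> simp
    rw [e1] at this
    have hM0 : 0 ≤ M := (norm_nonneg _).trans (hM 1)
    have hsup : (⨆ x : G, ‖∑ a ∈ B, ((s a : ℝ) : ℂ) * ((a.toMul x : Circle) : ℂ)‖) ≤ M :=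
      ciSup_le hM
    have hsup0 : 0 ≤ ⨆ x : G, ‖∑ a ∈ B, ((s a : ℝ) : ℂ) * ((a.toMul x : Circle) : ℂ)‖ :=
      Real.iSup_nonneg (fun _ => norm_nonneg _)
    calc (#B : ℝ) ≤ _ := this
      _ ≤ C' * _ := mul_le_mul_of_nonneg_right hCC hsup0
      _ ≤ C' * M := mul_le_mul_of_nonneg_left hsup hCpos.le
  have hN : (0 : ℝ) < #(ssum B) := by
    have : (ssum B).Nonempty := ⟨_, Finset.mem_image_of_mem _ (Finset.empty_mem_powerset B)⟩
    exact_mod_cast this.card_pos
  rw [Real.log_mul (by norm_num) hN.ne'] at hmain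
  have h20 : 20 * C' ^ 2 * (#B * x) = #B / 2 := by
    rw [hx]; field_simp; ring
  have hcalc : (#B : ℝ) ≤ 40 * C' ^ 2 * (Real.log 4 + #D * Real.log (1 / x)) := by
    have h21 : 20 * C' ^ 2 * (Real.log 4 + Real.log #(ssum B))
        ≤ 20 * C' ^ 2 * (Real.log 4 + (#B * x + #D * Real.log (1 / x))) := by
      apply mul_le_mul_of_nonneg_left _ (by positivity)
      linarith
    have h22 : 20 * C' ^ 2 * (Real.log 4 + (#B * x + #D * Real.log (1 / x)))
        = #B / 2 + 20 * C' ^ 2 * (Real.log 4 + #D * Real.log (1 / x)) := by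
      rw [← h20]; ring
    linarith
  rw [div_mul_eq_mul_div, one_mul, div_le_iff₀ (by positivity)]
  have h23 : Real.log 4 + #D * Real.log (1 / x) ≤ #D * (Real.log 4 + Real.log (1 / x)) := by
    nlinarith
  calc (#B : ℝ) ≤ _ := hcalc
    _ ≤ 40 * C' ^ 2 * (#D * (Real.log 4 + Real.log (1 / x))) :=
        mul_le_mul_of_nonneg_left h23 (by positivity)
    _ = _ := by ring

end Pool.Agent.S12
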