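import Pool.Agent.S12.BitGroup
import Pool.Agent.S12.Sidon
import Pool.Agent.Helper80.SU.Final

/-!
# Sidon sets are finite unions of almost quasi-independent sets
-/

set_option autoImplicit false

namespace Pool.Agent.S12

open Finset

/-- torsion-free groups, real parameters -/
theorem torsion_free {c ε : ℝ} (hc : 0 < c) (hε : 0 < ε) :
    ∃ K : ℕ, 0 < K ∧ ∀ (A : Type*) [AddCommGroup A] (W : Set A),
      (∀ (n : ℕ) (x : A), n ≠ 0 → n • x = 0 → x = 0) →
      (∀ B : Finset A, (B : Set A) ⊆ W → ∃ D : Finset A, D ⊆ B ∧ Dis D ∧ c * (B.card : ℝ) ≤ (D.card : ℝ)) →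
      ∃ col : A → Fin K, ∀ B : Finset A, (B : Set A) ⊆ W → (∀ x ∈ B, ∀ y ∈ B, col x = col y) →
        ∃ D : Finset A, D ⊆ B ∧ Dis D ∧ (1 - ε) * (B.card : ℝ) ≤ (D.card : ℝ) := by
  classical
  set C : ℕ := ⌈1 / c⌉₊ with hCdef
  have hC1 : 1 ≤ C := Nat.one_le_iff_ne_zero.mpr (by
    have : 0 < C := Nat.ceil_pos.mpr (by positivity)
    omega)
  have hCc : 1 ≤ (C : ℝ) * c := by
    have h := Nat.le_ceil (1 / c)
    rw [← hCdef, div_le_iff₀ hc] at h
    exact h
  set d : ℕ := ⌈1 / ε⌉₊ with hddef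
  have hd1 : 1 ≤ d := Nat.one_le_iff_ne_zero.mpr (by
    have : 0 < d := Nat.ceil_pos.mpr (by positivity)
    omega)
  have hdε : 1 ≤ (d : ℝ) * ε := by
    have h := Nat.le_ceil (1 / ε)
    rw [← hddef, div_le_iff₀ hε] at h
    exact h
  refine ⟨2 ^ (18 * d + 29) * (4 * d + 5) ^ 2 * C ^ 2, by positivity, fun A _ W hG hW => ?_⟩
  obtain ⟨f, hf⟩ := Helper80.SU.main_torsionFree hG W C d hC1 hd1 (by
    intro B hB
    obtain ⟨D, hDB, hD, hcard⟩ := hW B hB
    refine ⟨D, hDB, hD, ?_⟩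
    have h1 : (B.card : ℝ) ≤ (C : ℝ) * (D.card : ℝ) := by
      calc (B.card : ℝ) = 1 * (B.card : ℝ) := by ring
        _ ≤ ((C : ℝ) * c) * (B.card : ℝ) := mul_le_mul_of_nonneg_right hCc (by positivity)
        _ = (C : ℝ) * (c * (B.card : ℝ)) := by ring
        _ ≤ (C : ℝ) * (D.card : ℝ) := mul_le_mul_of_nonneg_left hcard (by positivity)
    exact_mod_cast h1)
  refine ⟨f, fun B hB hmono => ?_⟩
  obtain ⟨D, hDB, hD, hcard⟩ := hf B hB hmono
  refine ⟨D, hDB, hD, ?_⟩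
  have h2 : (((d - 1) * B.card : ℕ) : ℝ) ≤ ((d * D.card : ℕ) : ℝ) := by exact_mod_cast hcard
  push_cast [Nat.cast_sub hd1] at h2
  have hd0 : (0 : ℝ) < d := by exact_mod_cast hd1
  have hB0 : (0 : ℝ) ≤ B.card := Nat.cast_nonneg _
  have h3 : (d : ℝ) * ((1 - ε) * (B.card : ℝ)) ≤ d * D.card := by nlinarith
  exact le_of_mul_le_mul_left h3 hd0

/-- **Proportionately dissociated sets in abelian groups**, all properties with the same classes -/
theorem all_groups {c ε : ℝ} (hc : 0 < c) (hε : 0 < ε) (L : ℕ) :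
    ∃ K : ℕ, ∀ (A : Type*) [AddCommGroup A] (W : Set A),
      (∀ B : Finset A, (B : Set A) ⊆ W → ∃ D : Finset A, D ⊆ B ∧ Dis D ∧ c * (B.card : ℝ) ≤ (D.card : ℝ)) →
      ∃ col : A → Fin K, ∀ B : Finset A, (B : Set A) ⊆ W → (∀ x ∈ B, ∀ y ∈ B, col x = col y) →
        (∃ P : Finset A, (∀ y ∈ P, ∃ F : Finset A, F ⊆ B ∧ ∑ x ∈ F, x = y) ∧
          (2 : ℝ) ^ ((1 - ε) * B.card) ≤ P.card) ∧
        (∃ D : Finset A, D ⊆ B ∧ Dis D ∧ (1 / 2 - ε) * (B.card : ℝ) ≤ (D.card : ℝ)) ∧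
        (B.card ≤ L → Dis B) ∧
        ((∀ (n : ℕ) (x : A), n ≠ 0 → n • x = 0 → x = 0) →
          ∃ D : Finset A, D ⊆ B ∧ Dis D ∧ (1 - ε) * (B.card : ℝ) ≤ (D.card : ℝ)) := by
  classical
  obtain ⟨K1, h1⟩ := general_group hc hε hε L
  obtain ⟨K2, hK2, h2⟩ := torsion_free hc hε
  refine ⟨K1 * K2, fun A _ W hW => ?_⟩
  obtain ⟨c1, hc1⟩ := h1 A W hW
  have h3 : ∃ c2 : A → Fin K2, (∀ (n : ℕ) (x : A), n ≠ 0 → n • x = 0 → x = 0) → ∀ B : Finset A,
      (B : Set A) ⊆ W → (∀ x ∈ B, ∀ y ∈ B, c2 x = c2 y) →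
        ∃ D : Finset A, D ⊆ B ∧ Dis D ∧ (1 - ε) * (B.card : ℝ) ≤ (D.card : ℝ) := by
    by_cases hG : ∀ (n : ℕ) (x : A), n ≠ 0 → n • x = 0 → x = 0
    · obtain ⟨c2, hc2⟩ := h2 A W hG hW
      exact ⟨c2, fun _ => hc2⟩
    · exact ⟨fun _ => ⟨0, hK2⟩, fun h => absurd h hG⟩
  obtain ⟨c2, hc2⟩ := h3
  refine ⟨fun x => finProdFinEquiv (c1 x, c2 x), fun B hB hmono => ?_⟩
  have hm : ∀ x ∈ B, ∀ y ∈ B, c1 x = c1 y ∧ c2 x = c2 y := by
    intro x hx y hy
    have h4 := finProdFinEquiv.injective (hmono x hx y hy)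
    exact ⟨congrArg Prod.fst h4, congrArg Prod.snd h4⟩
  obtain ⟨r1, r2, r3⟩ := hc1 B hB (fun x hx y hy => (hm x hx y hy).1)
  exact ⟨r1, r2, r3, fun hG => hc2 hG B hB (fun x hx y hy => (hm x hx y hy).2)⟩

open Pool.Agent.Helper72.Sidon

variable {G : Type*} [CommGroup G] [TopologicalSpace G]

/-- a finite set of characters with different subset products is quasi-independent -/
theorem quasi_of_dis {D : Finset (Additive (PontryaginDual G))} {E : Finset (PontryaginDual G)}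
    (hE : ∀ γ, γ ∈ E → Additive.ofMul γ ∈ D) (hD : Dis D) : QuasiIndependent (E : Set (PontryaginDual G)) := by
  classical
  intro s hs e he hprod γ hγ
  set X : Finset (Additive (PontryaginDual G)) := (s.filter fun g => e g = 1).map Additive.ofMul.toEmbedding with hX
  set Y : Finset (Additive (PontryaginDual G)) := (s.filter fun g => e g = -1).map Additive.ofMul.toEmbedding with hY
  have hXD : X ⊆ D := by
    intro x hx
    rw [hX, mem_map] at hx
    obtain ⟨g, hg, rfl⟩ := hx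
    exact hE g (hs (mem_filter.1 hg).1)
  have hYD : Y ⊆ D := by
    intro x hx
    rw [hY, mem_map] at hx
    obtain ⟨g, hg, rfl⟩ := hx
    exact hE g (hs (mem_filter.1 hg).1)
  have hsum : ∑ x ∈ X, x = ∑ y ∈ Y, y := by
    rw [hX, hY, sum_map, sum_map]
    have h1 : ∏ g ∈ s, g ^ e g = (∏ g ∈ s.filter (fun g => e g = 1), g) *
        (∏ g ∈ s.filter (fun g => e g = -1), g)⁻¹ := by
      rw [← prod_inv_distrib, prod_filter, prod_filter, ← prod_mul_distrib]
      refine prod_congr rfl fun g hg => ?_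
      rcases he g hg with h | h | h <;> simp [h]
    rw [h1, mul_inv_eq_one] at hprod
    show ∑ g ∈ s.filter (fun g => e g = 1), Additive.ofMul g = ∑ g ∈ s.filter (fun g => e g = -1), Additive.ofMul g
    rw [← ofMul_prod, ← ofMul_prod, hprod]
  have hXY := hD X Y hXD hYD hsum
  have hnot : ∀ g, g ∈ s → e g ≠ 1 := by
    intro g hg h1
    have h2 : Additive.ofMul g ∈ X := by
      rw [hX, mem_map]
      exact ⟨g, mem_filter.2 ⟨hg, h1⟩, rfl⟩
    rw [hXY, hY, mem_map] at h2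
    obtain ⟨g', hg', hgg⟩ := h2
    have h3 : g' = g := Additive.ofMul.injective hgg
    rw [h3, mem_filter, h1] at hg'
    exact absurd hg'.2 (by norm_num)
  have hnot' : ∀ g, g ∈ s → e g ≠ -1 := by
    intro g hg h1
    have h2 : Additive.ofMul g ∈ Y := by
      rw [hY, mem_map]
      exact ⟨g, mem_filter.2 ⟨hg, h1⟩, rfl⟩
    rw [← hXY, hX, mem_map] at h2
    obtain ⟨g', hg', hgg⟩ := h2
    have h3 : g' = g := Additive.ofMul.injective hgg
    rw [h3, mem_filter, h1] at hg'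
    exact absurd hg'.2 (by norm_num)
  rcases he γ hγ with h | h | h
  · exact absurd h (hnot' γ hγ)
  · exact h
  · exact absurd h (hnot γ hγ)

/-- **Sidon sets are finite unions of almost quasi-independent sets** -/
theorem sidon_union (C ε : ℝ) (hε : 0 < ε) (L : ℕ) :
    ∃ K : ℕ, ∀ (G : Type*) [CommGroup G] [TopologicalSpace G] (Λ : Set (PontryaginDual G)),
      1 ∉ Λ → IsSidonWith C Λ →
        ∃ E : Fin K → Set (PontryaginDual G), Λ = ⋃ i, E i ∧
          ∀ (i : Fin K) (B : Finset (PontryaginDual G)), (B : Set (PontryaginDual G)) ⊆ E i →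
            (2 : ℝ) ^ ((1 - ε) * B.card) ≤ ({χ | ∃ F : Finset (PontryaginDual G), F ⊆ B ∧ ∏ γ ∈ F, γ = χ} :
              Set (PontryaginDual G)).ncard ∧
            (∃ D : Finset (PontryaginDual G), D ⊆ B ∧ QuasiIndependent (D : Set (PontryaginDual G)) ∧
              (1 / 2 - ε) * (B.card : ℝ) ≤ D.card) ∧
            (B.card ≤ L → QuasiIndependent (B : Set (PontryaginDual G))) ∧
            ((∀ (γ : PontryaginDual G) (n : ℕ), n ≠ 0 → γ ^ n = 1 → γ = 1) →
              ∃ D : Finset (PontryaginDual G), D ⊆ B ∧ QuasiIndependent (D : Set (PontryaginDual G)) ∧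
                (1 - ε) * (B.card : ℝ) ≤ D.card) := by
  classical
  obtain ⟨c, hc, hsid⟩ := sidon_prop C
  obtain ⟨K, hK⟩ := all_groups hc hε L
  refine ⟨K, fun G _ _ Λ h1 hS => ?_⟩
  set W : Set (Additive (PontryaginDual G)) := {x | x.toMul ∈ Λ} with hW
  obtain ⟨col, hcol⟩ := hK (Additive (PontryaginDual G)) W (by
    intro B hB
    exact hsid G Λ h1 hS B fun b hb => hB hb)
  refine ⟨fun i => {γ | γ ∈ Λ ∧ col (Additive.ofMul γ) = i}, ?_, ?_⟩
  · ext γ
    rw [Set.mem_iUnion]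
    exact ⟨fun h => ⟨_, h, rfl⟩, fun ⟨_, h, _⟩ => h⟩
  intro i B hB
  set B' : Finset (Additive (PontryaginDual G)) := B.map Additive.ofMul.toEmbedding with hB'
  have hcard : B'.card = B.card := card_map _
  obtain ⟨⟨P, hP, hPc⟩, ⟨D1, hD1B, hD1, hD1c⟩, hsmall, htf⟩ := hcol B' (by
    intro x hx
    rw [mem_coe, hB', mem_map] at hx
    obtain ⟨g, hg, rfl⟩ := hx
    exact (hB hg).1) (by
    intro x hx y hy
    rw [hB', mem_map] at hx hy
    obtain ⟨g, hg, rfl⟩ := hx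
    obtain ⟨g', hg', rfl⟩ := hy
    exact (hB hg).2.trans (hB hg').2.symm)
  rw [hcard] at hPc hD1c hsmall htf
  have hpull : ∀ D : Finset (Additive (PontryaginDual G)), D ⊆ B' → Dis D →
      ∃ D' : Finset (PontryaginDual G), D' ⊆ B ∧ QuasiIndependent (D' : Set (PontryaginDual G)) ∧
        D'.card = D.card := by
    intro D hDB hD
    refine ⟨D.map Additive.toMul.toEmbedding, ?_, ?_, card_map _⟩
    · intro g hg
      rw [mem_map] at hg
      obtain ⟨x, hx, rfl⟩ := hg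
      have h2 := hDB hx
      rw [hB', mem_map] at h2
      obtain ⟨g, hg, rfl⟩ := h2
      exact hg
    · refine quasi_of_dis (D := D) ?_ hD
      intro g hg
      rw [mem_map] at hg
      obtain ⟨x, hx, rfl⟩ := hg
      exact hx
  refine ⟨?_, ?_, ?_, ?_⟩
  · refine hPc.trans ?_
    have hfin : ({χ | ∃ F : Finset (PontryaginDual G), F ⊆ B ∧ ∏ γ ∈ F, γ = χ} :
        Set (PontryaginDual G)).Finite := by
      refine ((B.powerset.image fun F => ∏ γ ∈ F, γ).finite_toSet).subset ?_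
      rintro χ ⟨F, hF, rfl⟩
      rw [mem_coe, mem_image]
      exact ⟨F, mem_powerset.2 hF, rfl⟩
    have h2 : ((P.map Additive.toMul.toEmbedding : Finset (PontryaginDual G)) : Set (PontryaginDual G)) ⊆
        {χ | ∃ F : Finset (PontryaginDual G), F ⊆ B ∧ ∏ γ ∈ F, γ = χ} := by
      intro χ hχ
      rw [mem_coe, mem_map] at hχ
      obtain ⟨x, hx, rfl⟩ := hχ
      obtain ⟨F, hF, hFx⟩ := hP x hx
      refine ⟨F.map Additive.toMul.toEmbedding, ?_, ?_⟩
      · intro g hg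
        rw [mem_map] at hg
        obtain ⟨x, hx, rfl⟩ := hg
        have h2 := hF hx
        rw [hB', mem_map] at h2
        obtain ⟨g, hg, rfl⟩ := h2
        exact hg
      · rw [prod_map, ← hFx]
        show ∏ x ∈ F, Additive.toMul x = Additive.toMul (∑ x ∈ F, x)
        rw [toMul_sum]
    have h3 := Set.ncard_le_ncard h2 hfin
    rw [Set.ncard_coe_finset, card_map] at h3
    exact_mod_cast h3
  · obtain ⟨D', h2, h3, h4⟩ := hpull D1 hD1B hD1
    exact ⟨D', h2, h3, by rw [h4]; exact hD1c⟩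
  · intro hL
    refine quasi_of_dis (D := B') ?_ (hsmall hL)
    intro g hg
    rw [hB', mem_map]
    exact ⟨g, hg, rfl⟩
  · intro hG
    obtain ⟨D2, hD2B, hD2, hD2c⟩ := htf (by
      intro n x hn hx
      have h2 := hG x.toMul n hn (by
        rw [← toMul_nsmul, hx, toMul_zero])
      exact Additive.toMul.injective (h2.trans toMul_zero.symm))
    obtain ⟨D', h2, h3, h4⟩ := hpull D2 hD2B hD2
    exact ⟨D', h2, h3, by rw [h4]; exact hD2c⟩

end Pool.Agent.S12
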