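import Pool.Agent.S12.SHalf
import Pool.Agent.S12.Cpt
import Pool.Agent.Helper80.SU.Size
import Pool.Agent.Helper80.SU.Search

/-!
# Arbitrary abelian groups

Every proportionately dissociated set is a finite union of sets all of whose finite subsets `B` have at least
`2 ^ ((1 - ε) |B|)` subset sums, contain a dissociated subset of size `(1/2 - ε) |B|`, and are dissociated if
they are small.
-/

set_option autoImplicit false

namespace Pool.Agent.S12.Bit

open Finset

variable {G : Type*} [AddCommGroup G] [DecidableEq G]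

/-- the number of subsets of `B` with sum `y` -/
def r (B : Finset G) (y : G) : ℕ := (B.powerset.filter fun F => ∑ x ∈ F, x = y).card

/-- the set of subset sums -/
def sums (B : Finset G) : Finset G := B.powerset.image fun F => ∑ x ∈ F, x

/-- the numerator of the overlap of the laws of `S_B` and `S_B + v` -/
def ov (v : G) (B : Finset G) : ℕ := ∑ y ∈ sums B, min (r B y) (r B (y - v))

/-- every nonempty subset contains an element which is not spanned by the others -/
def Good (τ : ℝ) (C : Finset G) : Prop :=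
  ∀ Z ⊆ C, Z.Nonempty → ∃ z ∈ Z, (ov z (Z.erase z) : ℝ) ≤ τ * 2 ^ (Z.erase z).card

theorem Good.mono {τ : ℝ} {C D : Finset G} (h : Good τ C) (hD : D ⊆ C) : Good τ D :=
  fun Z hZ hne => h Z (hZ.trans hD) hne

theorem mem_sums {B : Finset G} {y : G} : y ∈ sums B ↔ ∃ F ⊆ B, ∑ x ∈ F, x = y := by
  simp [sums]

theorem sums_mono {B C : Finset G} (h : B ⊆ C) : sums B ⊆ sums C :=
  image_subset_image (powerset_mono.2 h)

theorem r_eq_zero {B : Finset G} {y : G} (h : y ∉ sums B) : r B y = 0 := by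
  rw [r, card_eq_zero, filter_eq_empty_iff]
  intro F hF hy
  exact h (mem_sums.2 ⟨F, mem_powerset.1 hF, hy⟩)

theorem r_empty (y : G) : r ∅ y = if y = 0 then 1 else 0 := by
  unfold r
  by_cases h : y = 0
  · subst h
    rw [powerset_empty, filter_singleton]
    simp
  · rw [if_neg h, card_eq_zero, filter_eq_empty_iff]
    intro F hF hy
    rw [mem_powerset, subset_empty] at hF
    subst hF
    exact h (by simpa using hy.symm)

theorem r_insert {B : Finset G} {z : G} (hz : z ∉ B) (y : G) : r (insert z B) y = r B y + r B (y - z) := by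
  unfold r
  rw [powerset_insert, filter_union, card_union_of_disjoint]
  · congr 1
    have h1 : ((B.powerset.image (insert z)).filter fun F => ∑ x ∈ F, x = y) =
        (B.powerset.filter fun F => ∑ x ∈ F, x = y - z).image (insert z) := by
      ext F
      simp only [mem_filter, mem_image, mem_powerset]
      constructor
      · rintro ⟨⟨F', hF', rfl⟩, h⟩
        refine ⟨F', ⟨hF', ?_⟩, rfl⟩
        rw [sum_insert (fun h2 => hz (hF' h2))] at h
        rw [← h]
        abel
      · rintro ⟨F', ⟨hF', h⟩, rfl⟩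
        refine ⟨⟨F', hF', rfl⟩, ?_⟩
        rw [sum_insert (fun h2 => hz (hF' h2)), h]
        abel
    rw [h1, card_image_of_injOn]
    intro F hF F' hF' h
    simp only [coe_filter, mem_powerset, Set.mem_ofPred_eq] at hF hF'
    have h2 : (insert z F).erase z = (insert z F').erase z := by
      have h3 : insert z F = insert z F' := h
      rw [h3]
    rwa [erase_insert (fun h2 => hz (hF.1 h2)), erase_insert (fun h2 => hz (hF'.1 h2))] at h2
  · refine disjoint_filter_filter ?_
    rw [disjoint_left]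
    intro F hF hF'
    rw [mem_image] at hF'
    obtain ⟨F', -, rfl⟩ := hF'
    exact hz (mem_powerset.1 hF (mem_insert_self z F'))

theorem sum_r (B : Finset G) : ∑ y ∈ sums B, r B y = 2 ^ B.card := by
  unfold r
  rw [← card_powerset B]
  exact (card_eq_sum_card_image _ _).symm

theorem mem_sums_insert {B : Finset G} {z : G} (hz : z ∉ B) {y : G} :
    y ∈ sums (insert z B) ↔ y ∈ sums B ∨ y - z ∈ sums B := by
  constructor
  · intro h
    obtain ⟨F, hF, rfl⟩ := mem_sums.1 h
    by_cases hzF : z ∈ F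
    · right
      refine mem_sums.2 ⟨F.erase z, ?_, ?_⟩
      · rwa [← subset_insert_iff]
      · rw [eq_sub_iff_add_eq]
        exact sum_erase_add F (fun x => x) hzF
    · left
      exact mem_sums.2 ⟨F, (subset_insert_iff_of_notMem hzF).1 hF, rfl⟩
  · rintro (h | h)
    · exact sums_mono (subset_insert z B) h
    · obtain ⟨F, hF, h1⟩ := mem_sums.1 h
      refine mem_sums.2 ⟨insert z F, insert_subset_insert z hF, ?_⟩
      rw [sum_insert (fun h2 => hz (hF h2)), h1]
      abel

/-- sums over the subset sums of `insert z B` -/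
theorem sum_shift {M : Type*} [AddCommMonoid M] {B : Finset G} {z : G} (hz : z ∉ B) (f : G → M)
    (hf : ∀ y, y ∉ sums B → f y = 0) :
    ∑ y ∈ sums (insert z B), f y = ∑ y ∈ sums B, f y ∧
      ∑ y ∈ sums (insert z B), f (y - z) = ∑ y ∈ sums B, f y := by
  constructor
  · symm
    refine sum_subset (sums_mono (subset_insert z B)) fun y _ hy => hf y hy
  · have h1 : ∑ y ∈ (sums B).image (· + z), f (y - z) = ∑ y ∈ sums B, f y := by
      rw [sum_image (fun a _ b _ h => add_right_cancel h)]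
      refine sum_congr rfl fun y _ => ?_
      rw [add_sub_cancel_right]
    rw [← h1]
    symm
    refine sum_subset ?_ ?_
    · intro y hy
      obtain ⟨x, hx, rfl⟩ := mem_image.1 hy
      refine (mem_sums_insert hz).2 (Or.inr ?_)
      rwa [add_sub_cancel_right]
    · intro y _ hy
      refine hf _ fun h => hy (mem_image.2 ⟨y - z, h, by abel⟩)

/-- the minority code -/
theorem exists_cnt (τ : ℝ) (B : Finset G) (hB : Good τ B) :
    ∃ c : G → ℕ → ℕ, (∀ y, ∑ k ∈ range (B.card + 1), c y k = r B y) ∧ (∀ y k, c y k ≤ B.card.choose k) ∧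
      (∀ y, y ∉ sums B → ∀ k, c y k = 0) ∧
      2 * ∑ y ∈ sums B, ∑ k ∈ range (B.card + 1), ((k * c y k : ℕ) : ℝ) ≤ τ * B.card * 2 ^ B.card := by
  induction hn : B.card generalizing B with
  | zero =>
    rw [card_eq_zero] at hn
    subst hn
    refine ⟨fun y k => if y = 0 ∧ k = 0 then 1 else 0, ?_, ?_, ?_, ?_⟩
    · intro y
      rw [r_empty, zero_add, sum_range_one]
      simp
    · intro y k
      by_cases h : y = 0 ∧ k = 0
      · simp [h]
      · simp only [if_neg h]
        exact Nat.zero_le _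
    · intro y hy k
      show (if y = 0 ∧ k = 0 then 1 else 0) = 0
      rw [if_neg]
      rintro ⟨rfl, -⟩
      exact hy (mem_sums.2 ⟨∅, subset_rfl, by simp⟩)
    · simp
  | succ n ih =>
    have hne : B.Nonempty := by
      rw [← card_pos]
      omega
    obtain ⟨z, hz, hw⟩ := hB B subset_rfl hne
    set B' := B.erase z with hB'
    have hzB' : z ∉ B' := notMem_erase z B
    have hins : insert z B' = B := insert_erase hz
    have hcard : B'.card = n := by
      rw [hB', card_erase_of_mem hz, hn]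
      rfl
    obtain ⟨c, h1, h2, h3, h4⟩ := ih B' (hB.mono (erase_subset z B)) hcard
    set maj : G → G := fun y => if r B' (y - z) ≤ r B' y then y else y - z with hmaj
    set mi : G → G := fun y => if r B' (y - z) ≤ r B' y then y - z else y with hmi
    have hmm : ∀ {M : Type} [AddCommMonoid M] (f : G → M) (y : G), f (maj y) + f (mi y) = f y + f (y - z) := by
      intro M _ f y
      by_cases h : r B' (y - z) ≤ r B' y
      · simp [hmaj, hmi, h]
      · simp [hmaj, hmi, h, add_comm]
    have hminr : ∀ y, r B' (mi y) = min (r B' y) (r B' (y - z)) := by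
      intro y
      by_cases h : r B' (y - z) ≤ r B' y
      · simp [hmi, h]
      · simp only [hmi, if_neg h]
        rw [min_eq_left (by omega)]
    have hcz : ∀ y, c y (n + 1) = 0 := by
      intro y
      have := h2 y (n + 1)
      rw [Nat.choose_succ_self] at this
      omega
    refine ⟨fun y k => Nat.casesOn k (c (maj y) 0) fun k => c (maj y) (k + 1) + c (mi y) k, ?_, ?_, ?_, ?_⟩
    · intro y
      rw [sum_range_succ']
      show ∑ k ∈ range (n + 1), (c (maj y) (k + 1) + c (mi y) k) + c (maj y) 0 = _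
      rw [sum_add_distrib, h1 (mi y)]
      have h5 : ∑ k ∈ range (n + 1), c (maj y) (k + 1) + c (maj y) 0 = r B' (maj y) := by
        rw [← h1 (maj y), ← sum_range_succ', sum_range_succ, hcz, add_zero]
      rw [← hins, r_insert hzB', ← hmm (fun y => r B' y) y]
      show _ = r B' (maj y) + r B' (mi y)
      omega
    · intro y k
      cases k with
      | zero =>
        show c (maj y) 0 ≤ _
        refine (h2 _ 0).trans ?_
        simp
      | succ k =>
        show c (maj y) (k + 1) + c (mi y) k ≤ _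
        rw [Nat.choose_succ_succ, add_comm]
        exact add_le_add (h2 _ _) (h2 _ _)
    · intro y hy k
      rw [← hins, mem_sums_insert hzB', not_or] at hy
      have h5 : maj y ∉ sums B' := by
        by_cases h : r B' (y - z) ≤ r B' y
        · simp only [hmaj, if_pos h]; exact hy.1
        · simp only [hmaj, if_neg h]; exact hy.2
      have h6 : mi y ∉ sums B' := by
        by_cases h : r B' (y - z) ≤ r B' y
        · simp only [hmi, if_pos h]; exact hy.2
        · simp only [hmi, if_neg h]; exact hy.1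
      cases k with
      | zero => exact h3 _ h5 0
      | succ k =>
        show c (maj y) (k + 1) + c (mi y) k = 0
        rw [h3 _ h5, h3 _ h6]
    · set T : G → ℝ := fun y => ∑ k ∈ range (n + 1), ((k * c y k : ℕ) : ℝ) with hT
      have hTz : ∀ y, y ∉ sums B' → T y = 0 := by
        intro y hy
        refine sum_eq_zero fun k _ => ?_
        rw [h3 y hy]
        simp
      have e1 : ∀ y, ∑ k ∈ range (n + 1 + 1), ((k * (Nat.casesOn k (c (maj y) 0) fun k => c (maj y) (k + 1) +
          c (mi y) k : ℕ) : ℕ) : ℝ) = (T y + T (y - z)) + (min (r B' y) (r B' (y - z)) : ℕ) := by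
        intro y
        rw [sum_range_succ']
        have e2 : ∀ k, (((k + 1) * (c (maj y) (k + 1) + c (mi y) k) : ℕ) : ℝ) =
            (((k + 1) * c (maj y) (k + 1) : ℕ) : ℝ) + ((k * c (mi y) k : ℕ) : ℝ) + (c (mi y) k : ℝ) := by
          intro k
          push_cast
          ring
        have e3 : ∑ k ∈ range (n + 1), (((k + 1) * c (maj y) (k + 1) : ℕ) : ℝ) = T (maj y) := by
          have e4 := sum_range_succ' (fun k => ((k * c (maj y) k : ℕ) : ℝ)) (n + 1)
          have e5 := sum_range_succ (fun k => ((k * c (maj y) k : ℕ) : ℝ)) (n + 1)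
          rw [e5] at e4
          simp only [hcz, mul_zero, Nat.cast_zero, zero_mul, add_zero] at e4
          exact e4.symm
        have e6 : ∑ k ∈ range (n + 1), (c (mi y) k : ℝ) = (min (r B' y) (r B' (y - z)) : ℕ) := by
          rw [← hminr, ← h1]
          push_cast
          rfl
        show ∑ k ∈ range (n + 1), (((k + 1) * (c (maj y) (k + 1) + c (mi y) k) : ℕ) : ℝ) +
          ((0 * c (maj y) 0 : ℕ) : ℝ) = _
        rw [sum_congr rfl fun k _ => e2 k, sum_add_distrib, sum_add_distrib, e3, e6, ← hmm T y]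
        simp [hT]
      have e7 : ∑ y ∈ sums B, ∑ k ∈ range (n + 1 + 1), ((k * (Nat.casesOn k (c (maj y) 0) fun k =>
          c (maj y) (k + 1) + c (mi y) k : ℕ) : ℕ) : ℝ) = 2 * ∑ y ∈ sums B', T y + (ov z B' : ℝ) := by
        rw [sum_congr rfl fun y _ => e1 y, sum_add_distrib, sum_add_distrib, ← hins, (sum_shift hzB' T hTz).1,
          (sum_shift hzB' T hTz).2, ov, Nat.cast_sum, two_mul]
        congr 1
        exact (sum_shift hzB' (fun y => ((min (r B' y) (r B' (y - z)) : ℕ) : ℝ)) (fun y hy => by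
          rw [r_eq_zero hy]
          simp)).1
      rw [e7]
      rw [hcard] at hw
      have h4' : 2 * ∑ y ∈ sums B', T y ≤ τ * n * 2 ^ n := h4
      calc 2 * (2 * ∑ y ∈ sums B', T y + (ov z B' : ℝ)) ≤ 2 * (τ * n * 2 ^ n + τ * 2 ^ n) := by linarith
        _ = τ * ((n + 1 : ℕ) : ℝ) * 2 ^ (n + 1) := by
          push_cast
          ring

/-- **Lemma 2**: a good set has many subset sums -/
theorem Good.many {τ : ℝ} (hτ : 0 < τ) {B : Finset G} (hB : Good τ B) :
    2 ^ B.card ≤ 2 * ((sums B).card * ∑ k ∈ range (⌊τ * B.card⌋₊ + 1), B.card.choose k) := by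
  rcases B.eq_empty_or_nonempty with rfl | hne
  · simp [sums]
  obtain ⟨c, h1, h2, h3, h4⟩ := exists_cnt τ B hB
  set n := B.card with hn
  have hn0 : 0 < n := hne.card_pos
  have hn0' : (0 : ℝ) < n := by exact_mod_cast hn0
  set K := ⌊τ * n⌋₊ + 1 with hK
  have e1 : (2 : ℝ) ^ n = ∑ y ∈ sums B, ∑ k ∈ range (n + 1), (c y k : ℝ) := by
    have := sum_r B
    have e2 : ((∑ y ∈ sums B, r B y : ℕ) : ℝ) = 2 ^ n := by
      rw [this]
      push_cast
      rfl
    rw [← e2, Nat.cast_sum]
    refine sum_congr rfl fun y _ => ?_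
    rw [← h1 y, Nat.cast_sum]
  have e3 : ∀ y k, (c y k : ℝ) ≤ (if k < K then (n.choose k : ℝ) else 0) + (τ * n)⁻¹ * ((k * c y k : ℕ) : ℝ) := by
    intro y k
    by_cases hk : k < K
    · rw [if_pos hk]
      have := h2 y k
      have h5 : (c y k : ℝ) ≤ n.choose k := by exact_mod_cast this
      have h6 : 0 ≤ (τ * n)⁻¹ * ((k * c y k : ℕ) : ℝ) := by positivity
      linarith
    · rw [if_neg hk, zero_add]
      have h5 : τ * n ≤ k := by
        have := Nat.lt_floor_add_one (τ * n)
        have h6 : (⌊τ * n⌋₊ + 1 : ℕ) ≤ k := by omega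
        have h7 : ((⌊τ * n⌋₊ + 1 : ℕ) : ℝ) ≤ k := by exact_mod_cast h6
        push_cast at h7
        linarith
      rw [inv_mul_eq_div, le_div_iff₀ (by positivity)]
      push_cast
      nlinarith [Nat.cast_nonneg (α := ℝ) (c y k)]
  have e4 : (2 : ℝ) ^ n ≤ (sums B).card * ∑ k ∈ range K, (n.choose k : ℝ) + (τ * n)⁻¹ * (τ * n * 2 ^ n / 2) := by
    have e5 : ∑ y ∈ sums B, ∑ k ∈ range (n + 1), (c y k : ℝ) ≤
        ∑ y ∈ sums B, ∑ k ∈ range (n + 1), ((if k < K then (n.choose k : ℝ) else 0) +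
          (τ * n)⁻¹ * ((k * c y k : ℕ) : ℝ)) := sum_le_sum fun y _ => sum_le_sum fun k _ => e3 y k
    refine e1.le.trans (e5.trans ?_)
    have e6 : ∑ y ∈ sums B, ∑ k ∈ range (n + 1), ((if k < K then (n.choose k : ℝ) else 0) +
          (τ * n)⁻¹ * ((k * c y k : ℕ) : ℝ)) =
        (sums B).card * ∑ k ∈ range (n + 1), (if k < K then (n.choose k : ℝ) else 0) +
          (τ * n)⁻¹ * ∑ y ∈ sums B, ∑ k ∈ range (n + 1), ((k * c y k : ℕ) : ℝ) := by
      simp only [sum_add_distrib, sum_const, nsmul_eq_mul, ← mul_sum]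
    rw [e6]
    refine add_le_add ?_ ?_
    · refine mul_le_mul_of_nonneg_left ?_ (Nat.cast_nonneg _)
      rw [← sum_filter]
      refine sum_le_sum_of_subset_of_nonneg ?_ fun _ _ _ => Nat.cast_nonneg _
      intro k hk
      exact mem_range.2 (mem_filter.1 hk).2
    · refine mul_le_mul_of_nonneg_left ?_ (by positivity)
      linarith
  have e7 : (τ * n)⁻¹ * (τ * n * 2 ^ n / 2) = 2 ^ n / 2 := by
    field_simp
  rw [e7] at e4
  have e8 : (2 : ℝ) ^ n ≤ 2 * ((sums B).card * ∑ k ∈ range K, (n.choose k : ℝ)) := by linarith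
  exact_mod_cast e8


/-- few subsets of size `≤ τ n` -/
theorem tail_small {x τ : ℝ} (hx : 0 < x) (hx1 : x ≤ 1) (hτ : 0 ≤ τ) (n : ℕ) :
    ∑ k ∈ range (⌊τ * n⌋₊ + 1), (n.choose k : ℝ) ≤ Real.exp (n * (x + τ * Real.log (1 / x))) := by
  refine (tail_le n _ hx hx1).trans ?_
  have h1 : (1 + x) ^ n ≤ Real.exp (n * x) := by
    rw [Real.exp_nat_mul]
    refine pow_le_pow_left₀ (by linarith) ?_ n
    rw [add_comm]
    exact Real.add_one_le_exp x
  have h2 : (x ^ ⌊τ * (n : ℝ)⌋₊)⁻¹ ≤ Real.exp (n * (τ * Real.log (1 / x))) := by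
    have e1 : (x ^ ⌊τ * (n : ℝ)⌋₊)⁻¹ = Real.exp (⌊τ * (n : ℝ)⌋₊ * Real.log (1 / x)) := by
      rw [Real.exp_nat_mul, Real.exp_log (by positivity), one_div, inv_pow]
    rw [e1]
    refine Real.exp_le_exp.2 ?_
    have e2 : 0 ≤ Real.log (1 / x) := Real.log_nonneg (by rw [le_div_iff₀ hx]; linarith)
    have e3 : (⌊τ * (n : ℝ)⌋₊ : ℝ) ≤ τ * n := Nat.floor_le (by positivity)
    nlinarith
  rw [div_eq_mul_inv, mul_add, Real.exp_add]
  exact mul_le_mul h1 h2 (by positivity) (Real.exp_pos _).le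

theorem dis_empty : Dis (∅ : Finset G) := by
  intro F F' hF hF' _
  rw [subset_empty] at hF hF'
  rw [hF, hF']

theorem Dis.mono' {C D : Finset G} (h : Dis C) (hD : D ⊆ C) : Dis D :=
  fun X Y hX hY => h X Y (hX.trans hD) (hY.trans hD)

/-- an element which is not spanned -/
theorem dis_ins {B : Finset G} {z : G} (hB : Dis B) (h0 : ov z B = 0) :
    Dis (insert z B) := by
  have key : ∀ F F' : Finset G, F ⊆ B → F' ⊆ B → ∑ x ∈ F, x ≠ z + ∑ x ∈ F', x := by
    intro F F' hF hF' h
    rw [ov, sum_eq_zero_iff] at h0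
    have h1 := h0 (∑ x ∈ F, x) (mem_sums.2 ⟨F, hF, rfl⟩)
    have h2 : 0 < r B (∑ x ∈ F, x) := card_pos.2 ⟨F, mem_filter.2 ⟨mem_powerset.2 hF, rfl⟩⟩
    have h3 : 0 < r B (∑ x ∈ F, x - z) :=
      card_pos.2 ⟨F', mem_filter.2 ⟨mem_powerset.2 hF', by rw [h]; abel⟩⟩
    rcases min_choice (r B (∑ x ∈ F, x)) (r B (∑ x ∈ F, x - z)) with h4 | h4 <;> omega
  intro F F' hF hF' h'
  have e1 : ∀ F : Finset G, F ⊆ insert z B → F.erase z ⊆ B := fun F hF => by
    rwa [← subset_insert_iff]
  by_cases h1 : z ∈ F <;> by_cases h2 : z ∈ F'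
  · rw [← add_sum_erase F _ h1, ← add_sum_erase F' _ h2] at h'
    have h3 : F.erase z = F'.erase z := hB _ _ (e1 F hF) (e1 F' hF') (add_left_cancel h')
    rw [← insert_erase h1, ← insert_erase h2, h3]
  · rw [← add_sum_erase F _ h1] at h'
    exact absurd h'.symm (key F' (F.erase z) ((subset_insert_iff_of_notMem h2).1 hF') (e1 F hF))
  · rw [← add_sum_erase F' _ h2] at h'
    exact absurd h' (key F (F'.erase z) ((subset_insert_iff_of_notMem h1).1 hF) (e1 F' hF'))
  · exact hB _ _ ((subset_insert_iff_of_notMem h1).1 hF) ((subset_insert_iff_of_notMem h2).1 hF') h'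

/-- small subsets of good sets are dissociated -/
theorem Good.small {τ : ℝ} {L : ℕ} (hτ : τ * 2 ^ L < 1) {B : Finset G} (hB : Good τ B) (hL : B.card ≤ L + 1) :
    Dis B := by
  induction hn : B.card generalizing B with
  | zero =>
    rw [card_eq_zero] at hn
    subst hn
    exact dis_empty
  | succ n ih =>
    have hne : B.Nonempty := by
      rw [← card_pos]
      omega
    obtain ⟨z, hz, hw⟩ := hB B subset_rfl hne
    have hcard : (B.erase z).card = n := by
      rw [card_erase_of_mem hz, hn]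
      rfl
    have h1 := ih (hB.mono (erase_subset z B)) (by omega) hcard
    have h0 : ov z (B.erase z) = 0 := by
      have h2 : (ov z (B.erase z) : ℝ) < 1 := by
        refine hw.trans_lt ?_
        rw [hcard]
        rcases le_or_gt τ 0 with h3 | h3
        · have : 0 < (2 : ℝ) ^ n := by positivity
          nlinarith
        · refine (mul_le_mul_of_nonneg_left ?_ h3.le).trans_lt hτ
          exact pow_le_pow_right₀ (by norm_num) (by omega)
      have h3 : ov z (B.erase z) < 1 := by exact_mod_cast h2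
      omega
    rw [← insert_erase hz]
    exact dis_ins h1 h0

/-- the number of subset sums of a dissociated set -/
theorem card_sums_of_dis {B : Finset G} (h : Dis B) : (sums B).card = 2 ^ B.card := by
  rw [sums, card_image_of_injOn, card_powerset]
  intro X hX Y hY hXY
  rw [mem_coe, mem_powerset] at hX hY
  exact h X Y hX hY hXY

/-- **good sets have almost all subset sums** -/
theorem good_many {δ : ℝ} (hδ : 0 < δ) (L : ℕ) : ∃ τ : ℝ, 0 < τ ∧
    ∀ {G : Type*} [AddCommGroup G] [DecidableEq G] (B : Finset G), Good τ B →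
      (2 : ℝ) ^ ((1 - δ) * B.card) ≤ (sums B).card ∧ (B.card ≤ L → Dis B) := by
  set δ' := min δ 1 with hδ'
  have hδ0 : 0 < δ' := lt_min hδ (by norm_num)
  have hδ1 : δ' ≤ 1 := min_le_right _ _
  have hδδ : δ' ≤ δ := min_le_left _ _
  have hl2 : 0 < Real.log 2 := Real.log_pos (by norm_num)
  have hl21 : Real.log 2 < 1 := by
    have := Real.log_two_lt_d9
    linarith
  set x := δ' * Real.log 2 / 4 with hx
  have hx0 : 0 < x := by positivity
  have hx1 : x < 1 := by
    have h1 : δ' * Real.log 2 < 1 := by nlinarith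
    rw [hx]
    linarith
  have hlog : 0 < Real.log (1 / x) := Real.log_pos (by rw [lt_div_iff₀ hx0]; linarith)
  obtain ⟨n₀, hn₀⟩ := exists_nat_gt (2 / δ')
  set M := max n₀ L with hM
  set τ := min (x / Real.log (1 / x)) ((1 / 2) ^ (M + 1)) with hτ
  have hτ0 : 0 < τ := lt_min (by positivity) (by positivity)
  have hτ1 : τ * Real.log (1 / x) ≤ x := by
    have h1 : τ ≤ x / Real.log (1 / x) := min_le_left _ _
    rwa [le_div_iff₀ hlog] at h1
  have hτ2 : τ * 2 ^ M < 1 := by
    have h1 : τ ≤ (1 / 2) ^ (M + 1) := min_le_right _ _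
    have h2 : τ * 2 ^ M ≤ (1 / 2) ^ (M + 1) * 2 ^ M := mul_le_mul_of_nonneg_right h1 (by positivity)
    have h3 : ((1 : ℝ) / 2) ^ (M + 1) * 2 ^ M = 1 / 2 := by
      rw [pow_succ, mul_right_comm, ← mul_pow]
      norm_num
    linarith
  refine ⟨τ, hτ0, fun {G} _ _ B hB => ⟨?_, fun hBL => hB.small hτ2 (hBL.trans (by omega))⟩⟩
  set n := B.card with hn
  have hmono : (2 : ℝ) ^ ((1 - δ) * (n : ℝ)) ≤ 2 ^ ((1 - δ') * (n : ℝ)) := by
    refine Real.rpow_le_rpow_of_exponent_le (by norm_num) ?_
    have : (0 : ℝ) ≤ n := Nat.cast_nonneg _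
    nlinarith
  refine hmono.trans ?_
  rcases Nat.lt_or_ge n (n₀ + 1) with hlt | hge
  · rw [card_sums_of_dis (hB.small hτ2 (by omega)), ← hn]
    push_cast
    rw [← Real.rpow_natCast]
    refine Real.rpow_le_rpow_of_exponent_le (by norm_num) ?_
    have : (0 : ℝ) ≤ n := Nat.cast_nonneg _
    nlinarith
  have hn1 : 2 / δ' < n := by
    refine hn₀.trans_le ?_
    exact_mod_cast (by omega : n₀ ≤ n)
  rw [div_lt_iff₀ hδ0] at hn1
  have h2 := hB.many hτ0
  rw [← hn] at h2
  have h4 : (2 : ℝ) ^ n ≤ 2 * ((sums B).card * ∑ k ∈ range (⌊τ * (n : ℝ)⌋₊ + 1), (n.choose k : ℝ)) := by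
    exact_mod_cast h2
  have h7 := tail_small hx0 hx1.le hτ0.le n
  have h8 : Real.exp (n * (x + τ * Real.log (1 / x))) ≤ Real.exp (n * (δ' / 2 * Real.log 2)) := by
    refine Real.exp_le_exp.2 ?_
    have h9 : x + τ * Real.log (1 / x) ≤ δ' / 2 * Real.log 2 := by
      have : x + x = δ' / 2 * Real.log 2 := by
        rw [hx]
        ring
      linarith
    exact mul_le_mul_of_nonneg_left h9 (Nat.cast_nonneg _)
  have h9 : Real.exp (n * (δ' / 2 * Real.log 2)) * 2 ≤ 2 ^ (δ' * (n : ℝ)) := by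
    have e1 : (2 : ℝ) ^ (δ' * (n : ℝ)) = Real.exp (Real.log 2 * (δ' * n)) := by
      rw [Real.rpow_def_of_pos (by norm_num)]
    have e2 : (2 : ℝ) = Real.exp (Real.log 2) := (Real.exp_log (by norm_num)).symm
    rw [e1]
    nth_rewrite 3 [e2]
    rw [← Real.exp_add]
    refine Real.exp_le_exp.2 ?_
    nlinarith
  have h10 : (2 : ℝ) ^ n ≤ (sums B).card * 2 ^ (δ' * (n : ℝ)) := by
    have hs : (0 : ℝ) ≤ (sums B).card := Nat.cast_nonneg _
    calc (2 : ℝ) ^ n ≤ 2 * ((sums B).card * ∑ k ∈ range (⌊τ * (n : ℝ)⌋₊ + 1), (n.choose k : ℝ)) := h4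
      _ ≤ 2 * ((sums B).card * Real.exp (n * (δ' / 2 * Real.log 2))) := by
        refine mul_le_mul_of_nonneg_left (mul_le_mul_of_nonneg_left (h7.trans h8) hs) (by norm_num)
      _ = (sums B).card * (Real.exp (n * (δ' / 2 * Real.log 2)) * 2) := by ring
      _ ≤ (sums B).card * 2 ^ (δ' * (n : ℝ)) := mul_le_mul_of_nonneg_left h9 hs
  have h11 : (2 : ℝ) ^ n = 2 ^ ((1 - δ') * (n : ℝ)) * 2 ^ (δ' * (n : ℝ)) := by
    rw [← Real.rpow_add (by norm_num), ← Real.rpow_natCast]
    congr 1
    ring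
  rw [h11] at h10
  exact le_of_mul_le_mul_right h10 (Real.rpow_pos_of_pos (by norm_num) _)

/-- the overlap is superadditive -/
theorem ov_insert {B : Finset G} {z : G} (hz : z ∉ B) (v : G) : 2 * ov v B ≤ ov v (insert z B) := by
  have h1 := sum_shift hz (fun y => min (r B y) (r B (y - v))) (fun y hy => by
    rw [r_eq_zero hy]
    exact Nat.zero_min _)
  have h2 : 2 * ov v B = ∑ y ∈ sums (insert z B), (min (r B y) (r B (y - v)) +
      min (r B (y - z)) (r B (y - z - v))) := by
    rw [sum_add_distrib, h1.1, h1.2, ov, two_mul]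
  rw [h2, ov]
  refine sum_le_sum fun y _ => ?_
  rw [r_insert hz, r_insert hz]
  have e1 : y - v - z = y - z - v := by abel
  rw [e1]
  refine le_min ?_ ?_
  · exact add_le_add (min_le_left _ _) (min_le_left _ _)
  · exact add_le_add (min_le_right _ _) (min_le_right _ _)

/-- `v` is spanned by `B` -/
def Spb (s : ℕ) (v : G) (B : Finset G) : Prop := 2 ^ B.card ≤ 2 ^ s * ov v B

theorem ov_union {B D : Finset G} (h : Disjoint B D) (v : G) : 2 ^ D.card * ov v B ≤ ov v (B ∪ D) := by
  induction D using Finset.induction_on with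
  | empty => simp
  | insert z D hz ih =>
    rw [disjoint_insert_right] at h
    have hzBD : z ∉ B ∪ D := by
      rw [mem_union, not_or]
      exact ⟨h.1, hz⟩
    rw [union_insert, card_insert_of_notMem hz, pow_succ]
    calc 2 ^ D.card * 2 * ov v B = 2 * (2 ^ D.card * ov v B) := by ring
      _ ≤ 2 * ov v (B ∪ D) := Nat.mul_le_mul_left 2 (ih h.2)
      _ ≤ ov v (insert z (B ∪ D)) := ov_insert hzBD v

theorem Spb.mono {s : ℕ} {v : G} {B B' : Finset G} (h : B ⊆ B') (hB : Spb s v B) : Spb s v B' := by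
  unfold Spb at hB ⊢
  have h1 := ov_union (B := B) (D := B' \ B) disjoint_sdiff v
  rw [union_sdiff_of_subset h] at h1
  have h2 : B'.card = B.card + (B' \ B).card := by
    have := card_sdiff_add_card_eq_card h
    omega
  rw [h2, pow_add]
  calc 2 ^ B.card * 2 ^ (B' \ B).card ≤ (2 ^ s * ov v B) * 2 ^ (B' \ B).card := Nat.mul_le_mul_right _ hB
    _ = 2 ^ s * (2 ^ (B' \ B).card * ov v B) := by ring
    _ ≤ 2 ^ s * ov v B' := Nat.mul_le_mul_left _ h1

/-- the size bound -/
theorem size_bound {s : ℕ} {B D : Finset G} (hD : Dis D) (h : ∀ u ∈ D, Spb s u B) :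
    D.card ≤ 2 ^ (s + 1) * B.card := by
  classical
  set P : G →₀ ℕ := Finsupp.onFinset (sums B) (r B) (fun y hy => by
    by_contra hn
    exact hy (r_eq_zero hn)) with hP
  have hPv : ∀ y, P y = r B y := fun y => rfl
  have hsupp : P.support = sums B := by
    ext y
    rw [Finsupp.mem_support_iff, hPv]
    constructor
    · intro hy
      by_contra hn
      exact hy (r_eq_zero hn)
    · intro hy
      obtain ⟨F, hF, hFy⟩ := mem_sums.1 hy
      have : 0 < r B y := card_pos.2 ⟨F, mem_filter.2 ⟨mem_powerset.2 hF, hFy⟩⟩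
      omega
  have hov : ∀ u, Helper80.SU.ov P u = ov u B := by
    intro u
    unfold Helper80.SU.ov ov
    rw [hsupp]
    rfl
  have h1 := Helper80.SU.overlap_sum P D hD
  rw [hsupp] at h1
  have h2 : ∑ y ∈ sums B, P y = 2 ^ B.card := sum_r B
  rw [h2] at h1
  have h3 : Nat.log 2 (sums B).card ≤ B.card := by
    have h4 : (sums B).card ≤ 2 ^ B.card := by
      rw [← card_powerset]
      exact card_image_le
    refine (Nat.log_mono_right h4).trans ?_
    rw [Nat.log_pow (by norm_num)]
  have h5 : D.card * 2 ^ B.card ≤ 2 ^ s * ∑ u ∈ D, Helper80.SU.ov P u := by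
    rw [mul_sum, ← smul_eq_mul, ← sum_const]
    refine sum_le_sum fun u hu => ?_
    rw [hov]
    exact h u hu
  have h6 : D.card * 2 ^ B.card ≤ (2 ^ (s + 1) * B.card) * 2 ^ B.card := by
    calc D.card * 2 ^ B.card ≤ 2 ^ s * ∑ u ∈ D, Helper80.SU.ov P u := h5
      _ ≤ 2 ^ s * (2 * (Nat.log 2 (sums B).card * 2 ^ B.card)) := Nat.mul_le_mul_left _ h1
      _ ≤ 2 ^ s * (2 * (B.card * 2 ^ B.card)) :=
        Nat.mul_le_mul_left _ (Nat.mul_le_mul_left _ (Nat.mul_le_mul_right _ h3))
      _ = (2 ^ (s + 1) * B.card) * 2 ^ B.card := by ring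
  exact Nat.le_of_mul_le_mul_right h6 (by positivity)

end Pool.Agent.S12.Bit

namespace Pool.Agent.S12

open Finset

/-- **Proportionately dissociated sets in arbitrary abelian groups** are finite unions of sets all of whose finite
subsets `B` have at least `2 ^ ((1 - δ) |B|)` subset sums, contain a dissociated subset with at least
`(1/2 - ε) |B|` elements, and are dissociated if `|B| ≤ L`. The number of sets depends only on `c, δ, ε, L`. -/
theorem general_group {c δ ε : ℝ} (hc : 0 < c) (hδ : 0 < δ) (hε : 0 < ε) (L : ℕ) :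
    ∃ K : ℕ, ∀ (A : Type*) [AddCommGroup A] (W : Set A),
      (∀ B : Finset A, (B : Set A) ⊆ W → ∃ D : Finset A, D ⊆ B ∧ Dis D ∧ c * (B.card : ℝ) ≤ (D.card : ℝ)) →
      ∃ col : A → Fin K, ∀ B : Finset A, (B : Set A) ⊆ W → (∀ x ∈ B, ∀ y ∈ B, col x = col y) →
        (∃ P : Finset A, (∀ y ∈ P, ∃ F : Finset A, F ⊆ B ∧ ∑ x ∈ F, x = y) ∧
          (2 : ℝ) ^ ((1 - δ) * B.card) ≤ P.card) ∧
        (∃ D : Finset A, D ⊆ B ∧ Dis D ∧ (1 / 2 - ε) * (B.card : ℝ) ≤ (D.card : ℝ)) ∧
        (B.card ≤ L → Dis B) := by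
  classical
  have hl2 : 0 < Real.log 2 := Real.log_pos (by norm_num)
  set δ' := min δ (ε ^ 2 / Real.log 2) with hδ'
  have hδ0 : 0 < δ' := lt_min hδ (by positivity)
  have hδ1 : δ' * Real.log 2 < 2 * ε ^ 2 := by
    have h1 : δ' ≤ ε ^ 2 / Real.log 2 := min_le_right _ _
    rw [le_div_iff₀ hl2] at h1
    have : 0 < ε ^ 2 := by positivity
    linarith
  obtain ⟨τ, hτ0, hτ⟩ := Bit.good_many hδ0 L
  obtain ⟨s, hs⟩ := exists_pow_lt_of_lt_one hτ0 (by norm_num : (1 / 2 : ℝ) < 1)
  obtain ⟨q, hq⟩ := exists_nat_ge ((2 : ℝ) ^ (s + 1) / c)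
  set q' := q + 1 with hq'
  refine ⟨32 * q' ^ 2, fun A _ W hW => ?_⟩
  -- finite sets
  obtain ⟨col, hcol⟩ := compactness' (32 * q' ^ 2) W (Bit.Good τ) (fun Z hZ hne => by
      rw [subset_empty] at hZ
      exact absurd hZ hne.ne_empty) (fun X Y hXY hY => hY.mono hXY) (by
    intro V hV
    obtain ⟨f, hf⟩ := Helper80.SU.exists_partition (Sp := Bit.Spb s)
      (fun v B B' hBB' h => Bit.Spb.mono hBB' h) (q := q') (K := 32 * q' ^ 2) (by omega) le_rfl V
      (by
        intro T B hT hB _ hsp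
        obtain ⟨D, hDT, hD, hcD⟩ := hW T (fun x hx => hV (hT hx))
        have h1 := Bit.size_bound hD (fun u hu => hsp u (hDT hu))
        have h2 : (D.card : ℝ) ≤ 2 ^ (s + 1) * B.card := by exact_mod_cast h1
        have h3 : (T.card : ℝ) ≤ q * B.card := by
          have h4 : c * (T.card : ℝ) ≤ 2 ^ (s + 1) * B.card := hcD.trans h2
          have h5 : (T.card : ℝ) ≤ 2 ^ (s + 1) / c * B.card := by
            rw [div_mul_eq_mul_div, le_div_iff₀ hc]
            linarith
          exact h5.trans (mul_le_mul_of_nonneg_right hq (Nat.cast_nonneg _))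
        have h4 : T.card ≤ q * B.card := by exact_mod_cast h3
        exact h4.trans (Nat.mul_le_mul_right _ (by omega)))
    refine ⟨f, fun k Z hZ hne => ?_⟩
    by_contra hcon
    push Not at hcon
    have h1 : Z ⊆ Helper80.SU.core (Bit.Spb s) (Helper80.SU.cls V f k) ∅ := by
      refine Helper80.SU.core_max hZ fun z hz => ?_
      have h2 := hcon z hz
      rw [union_empty]
      unfold Bit.Spb
      have h3 : (2 : ℝ) ^ (Z.erase z).card ≤ 2 ^ s * (Bit.ov z (Z.erase z) : ℝ) := by
        have h4 : (1 : ℝ) ≤ 2 ^ s * τ := by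
          have h5 : (1 / 2 : ℝ) ^ s * 2 ^ s = 1 := by
            rw [← mul_pow]
            norm_num
          have h6 : (0 : ℝ) < 2 ^ s := by positivity
          nlinarith
        have h7 : (0 : ℝ) < 2 ^ (Z.erase z).card := by positivity
        calc (2 : ℝ) ^ (Z.erase z).card = 1 * 2 ^ (Z.erase z).card := by ring
          _ ≤ (2 ^ s * τ) * 2 ^ (Z.erase z).card := mul_le_mul_of_nonneg_right h4 h7.le
          _ = 2 ^ s * (τ * 2 ^ (Z.erase z).card) := by ring
          _ ≤ 2 ^ s * (Bit.ov z (Z.erase z) : ℝ) := mul_le_mul_of_nonneg_left h2.le (by positivity)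
      exact_mod_cast h3
    rw [hf k, subset_empty] at h1
    exact hne.ne_empty h1)
  refine ⟨col, fun B hB hmono => ?_⟩
  have hG := hcol B hB hmono
  obtain ⟨h1, h2⟩ := hτ B hG
  have hP : ∀ y ∈ Bit.sums B, ∃ F : Finset A, F ⊆ B ∧ ∑ x ∈ F, x = y := fun y hy => Bit.mem_sums.1 hy
  refine ⟨⟨Bit.sums B, hP, ?_⟩, exists_dis_half hε.le hδ1 B (Bit.sums B) hP h1, h2⟩
  refine le_trans (Real.rpow_le_rpow_of_exponent_le (by norm_num) ?_) h1
  have h3 : δ' ≤ δ := min_le_left _ _
  have h4 : (0 : ℝ) ≤ B.card := Nat.cast_nonneg _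
  nlinarith

end Pool.Agent.S12
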