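import Mathlib

/-!
# Sums with coefficients `0..m`, dissociated sets, entropy of the random sum
-/

namespace Pool.Agent.S12

open Finset

variable {A : Type*} [AddCommGroup A]

/-- all subset sums of `D` are different -/
def Dis (D : Finset A) : Prop :=
  ∀ X Y : Finset A, X ⊆ D → Y ⊆ D → ∑ x ∈ X, x = ∑ y ∈ Y, y → X = Y

/-- for every `1 ≤ j ≤ m` all subset sums of the dilate `j • D` are different (and `D → j • D` is
injective).  In a torsion-free group this is the same as `Dis D`. -/
def DisM (m : ℕ) (D : Finset A) : Prop :=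
  ∀ j : ℕ, 1 ≤ j → j ≤ m →
    ∀ X Y : Finset A, X ⊆ D → Y ⊆ D → ∑ x ∈ X, j • x = ∑ y ∈ Y, j • y → X = Y

/-- uniform law on `0, w, 2w, ..., m w` -/
noncomputable def unif (m : ℕ) (w : A) : AddMonoidAlgebra ℝ A :=
  ∑ j ∈ range (m + 1), AddMonoidAlgebra.single (j • w) ((m + 1 : ℝ)⁻¹)

/-- law of the random sum `∑ x_s s` (`s ∈ S`), `x_s` independent uniform on `0..m` -/
noncomputable def law (m : ℕ) (S : Finset A) : AddMonoidAlgebra ℝ A := ∏ s ∈ S, unif m s

/-- entropy (natural logarithm) -/
noncomputable def ent (p : AddMonoidAlgebra ℝ A) : ℝ :=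
  ∑ y ∈ p.coeff.support, Real.negMulLog (p.coeff y)

/-- `u` is absorbed by `S`: adding the variable of `u` to the random sum of `S` increases the
entropy by at most `(1 - δ) log (m + 1)` -/
def Ab (m : ℕ) (δ : ℝ) (S : Finset A) (u : A) : Prop :=
  ent (unif m u * law m S) ≤ ent (law m S) + (1 - δ) * Real.log (m + 1)

end Pool.Agent.S12
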