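import Mathlib

/-!
SWARM 12, row G2: a finitely generated subgroup contains few elements killed by `Q`.
-/

set_option autoImplicit false

namespace Pool.Agent.S12

open Finset

/-- the elements killed by `Q` in a subgroup with `n` generators: at most `Q ^ n` -/
theorem card_le_pow_of_closure {G : Type*} [AddCommGroup G] (S : Finset G) (Q : ℕ) (hQ : 1 ≤ Q) (X : Finset G)
    (hX : ∀ x ∈ X, x ∈ AddSubgroup.closure (S : Set G) ∧ Q • x = 0) : X.card ≤ Q ^ S.card := by
  classical
  -- the map from the free group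
  let φ : (S → ℤ) →ₗ[ℤ] G := Fintype.linearCombination ℤ (fun s : S => (s : G))
  have hφ : ∀ z, φ z = ∑ s : S, z s • (s : G) := fun z => Fintype.linearCombination_apply ℤ _ z
  -- the preimage of the kernel of `Q`
  let H : Submodule ℤ (S → ℤ) := LinearMap.ker ((Q : ℤ) • φ)
  have hH : ∀ z, z ∈ H ↔ (Q : ℤ) • φ z = 0 := fun z => LinearMap.mem_ker
  obtain ⟨d, b⟩ := Submodule.basisOfPid (Pi.basisFun ℤ S) H
  have hd : d ≤ S.card := by
    have h1 := b.mk_eq_rank
    have h2 := Submodule.finrank_le H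
    rw [Module.finrank_eq_card_basis b, Module.finrank_fintype_fun_eq_card, Fintype.card_fin, Fintype.card_coe] at h2
    exact h2
  -- the elements of `X` are combinations with coefficients below `Q`
  have hQz : (Q : ℤ) ≠ 0 := by
    have : Q ≠ 0 := by omega
    exact_mod_cast this
  let ψ : (Fin d → Fin Q) → G := fun c => ∑ i, (c i : ℕ) • φ (b i)
  have hsub : X ⊆ (univ : Finset (Fin d → Fin Q)).image ψ := by
    intro x hx
    obtain ⟨hx1, hx2⟩ := hX x hx
    have hx3 : ∃ z : S → ℤ, φ z = x := by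
      rw [← Submodule.span_int_eq_addSubgroupClosure, Submodule.mem_toAddSubgroup] at hx1
      rw [Submodule.mem_span_finset] at hx1
      obtain ⟨f, -, hf⟩ := hx1
      refine ⟨fun s => f s, ?_⟩
      rw [hφ, ← hf]
      exact Finset.sum_coe_sort S (fun s => f s • s)
    obtain ⟨z, hz⟩ := hx3
    have hzH : z ∈ H := by
      rw [hH, hz, natCast_zsmul, hx2]
    have h1 := b.sum_repr ⟨z, hzH⟩
    have h2 : ∑ i, (b.repr ⟨z, hzH⟩ i) • φ (b i) = x := by
      rw [← hz]
      have h3 := congrArg (fun y : H => φ (y : S → ℤ)) h1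
      simp only at h3
      rw [← h3]
      rw [AddSubmonoidClass.coe_finsetSum, map_sum]
      refine Finset.sum_congr rfl fun i _ => ?_
      rw [Submodule.coe_smul, map_smul]
    have hmod : ∀ i, 0 ≤ b.repr ⟨z, hzH⟩ i % (Q : ℤ) ∧ b.repr ⟨z, hzH⟩ i % (Q : ℤ) < Q := fun i =>
      ⟨Int.emod_nonneg _ hQz, Int.emod_lt_of_pos _ (by omega)⟩
    refine Finset.mem_image.2 ⟨fun i => ⟨(b.repr ⟨z, hzH⟩ i % (Q : ℤ)).toNat, by
      have := hmod i
      omega⟩, Finset.mem_univ _, ?_⟩
    show ∑ i, ((b.repr ⟨z, hzH⟩ i % (Q : ℤ)).toNat : ℕ) • φ (b i) = x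
    rw [← h2]
    refine Finset.sum_congr rfl fun i _ => ?_
    have h4 : (Q : ℤ) • φ (b i) = 0 := (hH _).1 (b i).2
    have h5 : ((b.repr ⟨z, hzH⟩ i % (Q : ℤ)).toNat : ℤ) = b.repr ⟨z, hzH⟩ i % (Q : ℤ) :=
      Int.toNat_of_nonneg (hmod i).1
    rw [← natCast_zsmul, h5]
    conv_rhs => rw [← Int.emod_add_mul_ediv (b.repr ⟨z, hzH⟩ i) (Q : ℤ)]
    rw [add_smul, mul_comm, mul_smul, h4, smul_zero, add_zero]
  calc X.card ≤ ((univ : Finset (Fin d → Fin Q)).image ψ).card := Finset.card_le_card hsub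
    _ ≤ (univ : Finset (Fin d → Fin Q)).card := Finset.card_image_le
    _ = Q ^ d := by rw [Finset.card_univ, Fintype.card_fun, Fintype.card_fin, Fintype.card_fin]
    _ ≤ Q ^ S.card := Nat.pow_le_pow_right hQ hd

end Pool.Agent.S12
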