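import Pool.Agent.S12.SH

/-!
# Subset sums in arbitrary abelian groups: dissociated subsets of density almost 1/2
-/

set_option autoImplicit false

namespace Pool.Agent.S12

open Finset

/-- the exponential bound for the lower tail of the binomial coefficients -/
theorem tail_le (n s : ℕ) {x : ℝ} (hx : 0 < x) (hx1 : x ≤ 1) :
    ∑ k ∈ range (s + 1), (n.choose k : ℝ) ≤ (1 + x) ^ n / x ^ s := by
  rw [le_div_iff₀ (pow_pos hx s), sum_mul]
  have h1 : ∑ k ∈ range (s + 1), (n.choose k : ℝ) * x ^ s ≤ ∑ k ∈ range (s + 1), x ^ k * (n.choose k : ℝ) := by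
    refine sum_le_sum fun k hk => ?_
    rw [mul_comm]
    refine mul_le_mul_of_nonneg_right ?_ (Nat.cast_nonneg _)
    exact pow_le_pow_of_le_one hx.le hx1 (by have := mem_range.1 hk; omega)
  refine h1.trans ?_
  have h2 : (1 + x) ^ n = ∑ k ∈ range (n + 1), x ^ k * (n.choose k : ℝ) := by
    rw [add_comm 1 x, add_pow]
    refine sum_congr rfl fun k _ => ?_
    rw [one_pow, mul_one]
  rw [h2]
  rcases le_total s n with h | h
  · exact sum_le_sum_of_subset_of_nonneg (range_subset_range.2 (by omega)) fun _ _ _ => by positivity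
  · refine le_of_eq ?_
    symm
    refine sum_subset (range_subset_range.2 (by omega)) fun k _ hk => ?_
    rw [Nat.choose_eq_zero_of_lt (by rw [mem_range] at hk; omega)]
    simp

/-- few subsets of size `≤ (1/2 - ε) n` -/
theorem tail_half {ε : ℝ} (hε : 0 ≤ ε) (n m : ℕ) (hm : (m : ℝ) ≤ (1 / 2 - ε) * n) :
    ∑ k ∈ range (m + 1), (n.choose k : ℝ) ≤ 2 ^ n * Real.exp (-(2 * ε ^ 2 * n)) := by
  have hx : 0 < Real.exp (-(4 * ε)) := Real.exp_pos _
  refine (tail_le n m hx (Real.exp_le_one_iff.2 (by linarith))).trans ?_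
  have e1 : 1 + Real.exp (-(4 * ε)) = 2 * (Real.exp (-(2 * ε)) * Real.cosh (2 * ε)) := by
    rw [Real.cosh_eq, mul_div_assoc', mul_add, ← Real.exp_add, ← Real.exp_add]
    have h1 : -(2 * ε) + 2 * ε = 0 := by ring
    have h2 : -(2 * ε) + -(2 * ε) = -(4 * ε) := by ring
    rw [h1, h2, Real.exp_zero]
    ring
  have e2 : 1 + Real.exp (-(4 * ε)) ≤ 2 * Real.exp (-(2 * ε) + (2 * ε) ^ 2 / 2) := by
    rw [e1, Real.exp_add]
    have := Real.cosh_le_exp_half_sq (2 * ε)
    have h3 := Real.exp_pos (-(2 * ε))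
    nlinarith
  have e3 : (1 + Real.exp (-(4 * ε))) ^ n ≤ 2 ^ n * Real.exp (n * (-(2 * ε) + (2 * ε) ^ 2 / 2)) := by
    rw [Real.exp_nat_mul, ← mul_pow]
    exact pow_le_pow_left₀ (by positivity) e2 n
  have e4 : (Real.exp (-(4 * ε)) ^ m)⁻¹ = Real.exp (4 * ε * m) := by
    rw [← Real.exp_nat_mul, ← Real.exp_neg]
    congr 1
    ring
  rw [div_eq_mul_inv, e4]
  refine (mul_le_mul_of_nonneg_right e3 (Real.exp_pos _).le).trans ?_
  rw [mul_assoc, ← Real.exp_add]
  refine mul_le_mul_of_nonneg_left (Real.exp_le_exp.2 ?_) (by positivity)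
  nlinarith

variable {A : Type*} [AddCommGroup A]

/-- many subset sums give a dissociated subset of density almost `1/2` (every abelian group) -/
theorem exists_dis_half [DecidableEq A] {δ ε : ℝ} (hε : 0 ≤ ε) (hδ : δ * Real.log 2 < 2 * ε ^ 2) (B P : Finset A)
    (hP : ∀ y ∈ P, ∃ F : Finset A, F ⊆ B ∧ ∑ x ∈ F, x = y)
    (hcard : (2 : ℝ) ^ ((1 - δ) * B.card) ≤ (P.card : ℝ)) :
    ∃ T : Finset A, T ⊆ B ∧ Dis T ∧ (1 / 2 - ε) * B.card ≤ T.card := by
  classical
  obtain ⟨𝒯, h𝒯, hle⟩ := card_subset_sums_le B P hP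
  by_contra hcon
  push Not at hcon
  set n := B.card with hn
  have hPpos : (0 : ℝ) < P.card := (Real.rpow_pos_of_pos (by norm_num) _).trans_le hcard
  have hne : 𝒯.Nonempty := by
    rw [nonempty_iff_ne_empty]
    rintro rfl
    rw [card_empty] at hle
    have : (P.card : ℝ) ≤ 0 := by exact_mod_cast hle
    linarith
  obtain ⟨T0, hT0⟩ := hne
  have hpos : 0 < (1 / 2 - ε) * n := lt_of_le_of_lt (Nat.cast_nonneg _) (hcon T0 (h𝒯 T0 hT0).1 (h𝒯 T0 hT0).2)
  have hn0 : (0 : ℝ) < n := by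
    rcases (Nat.cast_nonneg (α := ℝ) n).lt_or_eq with h | h
    · exact h
    · rw [← h, mul_zero] at hpos
      exact absurd hpos (lt_irrefl _)
  set k := ⌊(1 / 2 - ε) * (n : ℝ)⌋₊ with hk
  have hk1 : (k : ℝ) ≤ (1 / 2 - ε) * n := Nat.floor_le hpos.le
  have h1 : (𝒯.card : ℝ) ≤ ∑ j ∈ range (k + 1), (n.choose j : ℝ) := by
    have h2 : 𝒯 ⊆ (range (k + 1)).biUnion fun j => B.powersetCard j := by
      intro T hT
      have h3 := hcon T (h𝒯 T hT).1 (h𝒯 T hT).2
      rw [mem_biUnion]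
      refine ⟨T.card, ?_, mem_powersetCard.2 ⟨(h𝒯 T hT).1, rfl⟩⟩
      rw [mem_range, Nat.lt_succ_iff, hk]
      exact Nat.le_floor h3.le
    have h3 := (card_le_card h2).trans card_biUnion_le
    simp only [card_powersetCard] at h3
    have h4 : ((∑ j ∈ range (k + 1), n.choose j : ℕ) : ℝ) = ∑ j ∈ range (k + 1), (n.choose j : ℝ) := by
      rw [Nat.cast_sum]
    rw [← h4]
    exact_mod_cast h3
  have h2 := tail_half hε n k hk1
  have h3 : (P.card : ℝ) ≤ 𝒯.card := by exact_mod_cast hle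
  have h4 : (2 : ℝ) ^ ((1 - δ) * (n : ℝ)) ≤ 2 ^ n * Real.exp (-(2 * ε ^ 2 * n)) :=
    hcard.trans (h3.trans (h1.trans h2))
  have h5 : (2 : ℝ) ^ ((1 - δ) * (n : ℝ)) = 2 ^ n * Real.exp (-(δ * Real.log 2 * n)) := by
    rw [Real.rpow_def_of_pos (by norm_num), ← Real.rpow_natCast 2 n, Real.rpow_def_of_pos (by norm_num),
      ← Real.exp_add]
    congr 1
    ring
  rw [h5] at h4
  have h6 := Real.exp_le_exp.1 (le_of_mul_le_mul_left h4 (by positivity))
  nlinarith

end Pool.Agent.S12
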