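import Pool.Agent.Helper72.Sidon.Analysis

/-!
# Sidon sets: exponentially many points of `G` which are separated on average
-/

namespace Pool.Agent.S12

open Finset Real Pool.Agent.Helper72.Sidon

variable {G : Type*} [CommGroup G] [TopologicalSpace G]

/-- A Sidon set is not well approximated by few points of `G`. -/
lemma sidon_card_approx {C : ℝ} (hC : 0 < C) {Λ : Set (PontryaginDual G)} (h : IsSidonWith C Λ)
    (A : Finset (PontryaginDual G)) (hA : (A : Set (PontryaginDual G)) ⊆ Λ)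
    (X : Finset G) (hX : ∀ x : G, ∃ x' ∈ X,
      ∑ γ ∈ A, ‖((γ x : Circle) : ℂ) - ((γ x' : Circle) : ℂ)‖ ≤ (#A : ℝ) / (2 * C)) :
    (#A : ℝ) ≤ 64 * C ^ 2 * log (4 * #X) := by
  classical
  set R : Finset (A → ℝ) := X.image (fun x => fun γ : A => ((γ.1 x : Circle) : ℂ).re) ∪
    X.image (fun x => fun γ : A => ((γ.1 x : Circle) : ℂ).im) with hR
  obtain ⟨x0, hx0, -⟩ := hX 1
  have hXpos : (0 : ℝ) < #X := by exact_mod_cast Finset.card_pos.mpr ⟨x0, hx0⟩
  have hRne : R.Nonempty := ⟨_, Finset.mem_union_left _ (Finset.mem_image_of_mem _ hx0)⟩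
  have hRcard : #R ≤ 2 * #X := by
    calc #R ≤ _ := Finset.card_union_le _ _
      _ ≤ #X + #X := add_le_add Finset.card_image_le Finset.card_image_le
      _ = 2 * #X := by ring
  have hR1 : ∀ r ∈ R, ∀ a, |r a| ≤ 1 := by
    intro r hr a
    rw [hR, Finset.mem_union, Finset.mem_image, Finset.mem_image] at hr
    rcases hr with ⟨x, -, rfl⟩ | ⟨x, -, rfl⟩
    · exact (Complex.abs_re_le_norm _).trans (Circle.norm_coe _).le
    · exact (Complex.abs_im_le_norm _).trans (Circle.norm_coe _).le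
  obtain ⟨σ, hσ, hσR⟩ := exists_signs R hR1 hRne (1 / (4 * C))
  rw [Fintype.card_coe] at hσR
  have hRpos : (0 : ℝ) < #R := by exact_mod_cast hRne.card_pos
  set M : ℝ := 4 * C * (log (4 * #X) + (1 / (4 * C)) ^ 2 * #A / 2) with hM
  have hσR' : ∀ r ∈ R, |∑ a, σ a * r a| ≤ M := by
    intro r hr
    have h1 := hσR r hr
    have h2 : log (2 * #R) ≤ log (4 * #X) := by
      apply log_le_log (by positivity)
      have : (#R : ℝ) ≤ 2 * #X := by exact_mod_cast hRcard
      linarith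
    have h3 : 1 / (4 * C) * |∑ a, σ a * r a| ≤ log (4 * #X) + (1 / (4 * C)) ^ 2 * #A / 2 := by
      linarith
    rw [hM]
    calc |∑ a, σ a * r a| = 4 * C * (1 / (4 * C) * |∑ a, σ a * r a|) := by
          field_simp
      _ ≤ _ := mul_le_mul_of_nonneg_left h3 (by positivity)
  -- apply the Sidon inequality
  let a : PontryaginDual G → ℂ := fun γ => if hγ : γ ∈ A then ((σ ⟨γ, hγ⟩ : ℝ) : ℂ) else 0
  have ha1 : ∀ γ ∈ A, ‖a γ‖ = 1 := by
    intro γ hγ
    simp only [a, dif_pos hγ]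
    rcases hσ ⟨γ, hγ⟩ with h1 | h1 <;> rw [h1] <;> simp
  have hs := h A hA a
  have hsum : ∑ γ ∈ A, ‖a γ‖ = #A := by
    rw [Finset.sum_congr rfl ha1]
    simp
  have hsup : (⨆ x : G, ‖∑ γ ∈ A, a γ * (γ x : ℂ)‖) ≤ 2 * M + (#A : ℝ) / (2 * C) := by
    apply ciSup_le
    intro x
    obtain ⟨x', hx', hxx'⟩ := hX x
    have hsplit : ∑ γ ∈ A, a γ * (γ x : ℂ) = ∑ γ ∈ A, a γ * (γ x' : ℂ) +
        ∑ γ ∈ A, a γ * ((γ x : ℂ) - (γ x' : ℂ)) := by
      rw [← Finset.sum_add_distrib]
      apply Finset.sum_congr rfl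
      intro γ _
      ring
    have hsmall : ‖∑ γ ∈ A, a γ * ((γ x : ℂ) - (γ x' : ℂ))‖ ≤ (#A : ℝ) / (2 * C) := by
      refine (norm_sum_le _ _).trans (le_trans (le_of_eq ?_) hxx')
      apply Finset.sum_congr rfl
      intro γ hγ
      rw [norm_mul, ha1 γ hγ, one_mul]
    have heq : ∑ γ ∈ A, a γ * (γ x' : ℂ) = ∑ γ : A, ((σ γ : ℝ) : ℂ) * ((γ.1 x' : Circle) : ℂ) := by
      rw [← Finset.sum_coe_sort A]
      apply Finset.sum_congr rfl
      intro γ _
      simp only [a, dif_pos γ.2]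
    have hmain : ‖∑ γ ∈ A, a γ * (γ x' : ℂ)‖ ≤ 2 * M := by
      rw [heq]
      refine (Complex.norm_le_abs_re_add_abs_im _).trans ?_
      have hre : (∑ γ : A, ((σ γ : ℝ) : ℂ) * ((γ.1 x' : Circle) : ℂ)).re
          = ∑ γ : A, σ γ * ((γ.1 x' : Circle) : ℂ).re := by
        rw [Complex.re_sum]
        apply Finset.sum_congr rfl
        intro γ _
        rw [Complex.re_ofReal_mul]
      have him : (∑ γ : A, ((σ γ : ℝ) : ℂ) * ((γ.1 x' : Circle) : ℂ)).im
          = ∑ γ : A, σ γ * ((γ.1 x' : Circle) : ℂ).im := by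
        rw [Complex.im_sum]
        apply Finset.sum_congr rfl
        intro γ _
        rw [Complex.im_ofReal_mul]
      rw [hre, him]
      have h1 : |∑ γ : A, σ γ * ((γ.1 x' : Circle) : ℂ).re| ≤ M :=
        hσR' (fun γ : A => ((γ.1 x' : Circle) : ℂ).re)
          (Finset.mem_union_left _ (Finset.mem_image_of_mem _ hx'))
      have h2 : |∑ γ : A, σ γ * ((γ.1 x' : Circle) : ℂ).im| ≤ M :=
        hσR' (fun γ : A => ((γ.1 x' : Circle) : ℂ).im)
          (Finset.mem_union_right _ (Finset.mem_image_of_mem _ hx'))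
      linarith
    rw [hsplit]
    exact (norm_add_le _ _).trans (add_le_add hmain hsmall)
  rw [hsum] at hs
  have hfin : (#A : ℝ) ≤ C * (2 * M + (#A : ℝ) / (2 * C)) :=
    hs.trans (mul_le_mul_of_nonneg_left hsup hC.le)
  have hMexp : C * (2 * M + (#A : ℝ) / (2 * C)) = 8 * C ^ 2 * log (4 * #X) + 3 * #A / 4 := by
    rw [hM]
    field_simp
    ring
  rw [hMexp] at hfin
  have hnn : 0 ≤ C ^ 2 * log (4 * #X) := by
    have hX1 : (1 : ℝ) ≤ #X := by exact_mod_cast Finset.card_pos.mpr ⟨x0, hx0⟩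
    have : 0 ≤ log (4 * #X) := log_nonneg (by linarith)
    positivity
  nlinarith

/-- ROW SID (a), (b): many points of `G` which are separated on average over `A`. -/
theorem sidon_separated {C : ℝ} (hC : 0 < C) {Λ : Set (PontryaginDual G)} (h : IsSidonWith C Λ)
    (A : Finset (PontryaginDual G)) (hA : (A : Set (PontryaginDual G)) ⊆ Λ) (N : ℕ)
    (hN : 64 * C ^ 2 * log (4 * N) < (#A : ℝ)) :
    ∃ X : Finset G, #X = N ∧ ∀ x ∈ X, ∀ y ∈ X, x ≠ y →
      (#A : ℝ) / (2 * C) < ∑ γ ∈ A, ‖((γ x : Circle) : ℂ) - ((γ y : Circle) : ℂ)‖ := by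
  classical
  induction N with
  | zero => exact ⟨∅, by simp, by simp⟩
  | succ N ih =>
    rcases Nat.eq_zero_or_pos N with rfl | hNpos
    · exact ⟨{1}, by simp, by simp⟩
    have hlog : log (4 * (N : ℝ)) ≤ log (4 * ((N + 1 : ℕ) : ℝ)) := by
      have : (0 : ℝ) < N := by exact_mod_cast hNpos
      apply log_le_log (by positivity)
      push_cast
      linarith
    have hN' : 64 * C ^ 2 * log (4 * N) < (#A : ℝ) :=
      lt_of_le_of_lt (mul_le_mul_of_nonneg_left hlog (by positivity)) hN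
    obtain ⟨X, hXc, hXs⟩ := ih hN'
    have hex : ∃ x : G, ∀ x' ∈ X, (#A : ℝ) / (2 * C) <
        ∑ γ ∈ A, ‖((γ x : Circle) : ℂ) - ((γ x' : Circle) : ℂ)‖ := by
      by_contra hcon
      push Not at hcon
      have := sidon_card_approx hC h A hA X hcon
      rw [hXc] at this
      linarith
    obtain ⟨x, hx⟩ := hex
    have hxX : x ∉ X := by
      intro hmem
      have h1 := hx x hmem
      have h2 : (0 : ℝ) ≤ (#A : ℝ) / (2 * C) := by positivity
      simp only [sub_self, norm_zero, Finset.sum_const_zero] at h1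
      linarith
    refine ⟨insert x X, by rw [Finset.card_insert_of_notMem hxX, hXc], ?_⟩
    intro u hu v hv huv
    rw [Finset.mem_insert] at hu hv
    rcases hu with rfl | hu <;> rcases hv with rfl | hv
    · exact absurd rfl huv
    · exact hx v hv
    · have := hx u hu
      refine lt_of_lt_of_eq this ?_
      apply Finset.sum_congr rfl
      intro γ _
      rw [norm_sub_rev]
    · exact hXs u hu v hv huv

end Pool.Agent.S12
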