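import Pool.Agent.Helper80.SU.Size

/-!
# The size bound in arbitrary abelian groups
-/

set_option autoImplicit false

namespace Pool.Agent.S12

open Finset Helper80.SU

variable {G : Type*} [AddCommGroup G] [DecidableEq G]

/-- **G4** the size bound without hypothesis on the group: `D` is a set such that all families `(j d)`, `d ∈ D`,
`1 ≤ j < 2 ^ p`, have different subset sums -/
theorem size_boundM (p s : ℕ) (B D : Finset G)
    (hD : ∀ j : ℕ, 1 ≤ j → j < 2 ^ p → ∀ X Y : Finset G, X ⊆ D → Y ⊆ D →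
      ∑ x ∈ X, j • x = ∑ y ∈ Y, j • y → X = Y)
    (h : ∀ u ∈ D, Sp (2 ^ p) s u B) :
    D.card ≤ 2 ^ p * 2 ^ (s + 1) * p * B.card := by
  classical
  let Dj : ℕ → Finset G := fun j =>
    D.filter (fun u => (2 ^ p) ^ B.card ≤ 2 ^ s * ov (law (2 ^ p) B) (j • u))
  have hinj : ∀ j : ℕ, 1 ≤ j → j < 2 ^ p → ∀ a ∈ D, ∀ b ∈ D, j • a = j • b → a = b := by
    intro j hj hj2 a ha b hb hab
    have h1 := hD j hj hj2 {a} {b} (singleton_subset_iff.2 ha) (singleton_subset_iff.2 hb) (by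
      rw [sum_singleton, sum_singleton, hab])
    exact singleton_injective h1
  have hlog : Nat.log 2 (law (2 ^ p) B).support.card ≤ p * B.card := by
    refine le_trans (Nat.log_mono_right (law_support_le (2 ^ p) B)) ?_
    rw [← pow_mul, Nat.log_pow (by norm_num)]
  have hDj : ∀ j ∈ Finset.Ico 1 (2 ^ p), (Dj j).card ≤ 2 ^ (s + 1) * p * B.card := by
    intro j hj
    rw [Finset.mem_Ico] at hj
    have hsubD : Dj j ⊆ D := Finset.filter_subset _ _
    have hdiss : Diss ((Dj j).image (fun u => j • u)) := by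
      intro X Y hX hY hXY
      obtain ⟨X', hX', rfl⟩ := Finset.subset_image_iff.mp hX
      obtain ⟨Y', hY', rfl⟩ := Finset.subset_image_iff.mp hY
      have hX'' : X' ⊆ Dj j := by exact_mod_cast hX'
      have hY'' : Y' ⊆ Dj j := by exact_mod_cast hY'
      rw [Finset.sum_image (fun a ha b hb hab => hinj j hj.1 hj.2 a (hsubD (hX'' ha)) b (hsubD (hX'' hb)) hab),
        Finset.sum_image (fun a ha b hb hab => hinj j hj.1 hj.2 a (hsubD (hY'' ha)) b (hsubD (hY'' hb)) hab)]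
        at hXY
      rw [hD j hj.1 hj.2 X' Y' (hX''.trans hsubD) (hY''.trans hsubD) hXY]
    have h1 := overlap_sum (law (2 ^ p) B) _ hdiss
    rw [Finset.sum_image (fun a ha b hb hab => hinj j hj.1 hj.2 a (hsubD ha) b (hsubD hb) hab)] at h1
    have h2 : (Dj j).card * (2 ^ p) ^ B.card
        ≤ 2 ^ s * ∑ u ∈ Dj j, ov (law (2 ^ p) B) (j • u) := by
      rw [Finset.mul_sum, ← smul_eq_mul, ← Finset.sum_const]
      refine Finset.sum_le_sum (fun u hu => ?_)
      exact (Finset.mem_filter.mp hu).2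
    have h3 : 2 ^ s * ∑ u ∈ Dj j, ov (law (2 ^ p) B) (j • u)
        ≤ 2 ^ s * (2 * (p * B.card * (2 ^ p) ^ B.card)) := by
      refine Nat.mul_le_mul_left _ (le_trans h1 ?_)
      exact Nat.mul_le_mul_left _ (Nat.mul_le_mul hlog (law_sum_le _ _ _))
    have h4 : (Dj j).card * (2 ^ p) ^ B.card
        ≤ (2 ^ (s + 1) * p * B.card) * (2 ^ p) ^ B.card := by
      refine le_trans h2 (le_trans h3 (le_of_eq ?_))
      ring
    exact Nat.le_of_mul_le_mul_right h4 (by positivity)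
  have hcov : D ⊆ (Finset.Ico 1 (2 ^ p)).biUnion Dj := by
    intro u hu
    obtain ⟨j, hj1, hj2, hj3⟩ := h u hu
    rw [Finset.mem_biUnion]
    exact ⟨j, Finset.mem_Ico.mpr ⟨hj1, hj2⟩, Finset.mem_filter.mpr ⟨hu, hj3⟩⟩
  calc D.card ≤ ((Finset.Ico 1 (2 ^ p)).biUnion Dj).card := Finset.card_le_card hcov
    _ ≤ ∑ j ∈ Finset.Ico 1 (2 ^ p), (Dj j).card := Finset.card_biUnion_le
    _ ≤ ∑ _j ∈ Finset.Ico 1 (2 ^ p), 2 ^ (s + 1) * p * B.card := Finset.sum_le_sum hDj
    _ = (2 ^ p - 1) * (2 ^ (s + 1) * p * B.card) := by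
        rw [Finset.sum_const, smul_eq_mul, Nat.card_Ico]
    _ ≤ 2 ^ p * (2 ^ (s + 1) * p * B.card) := Nat.mul_le_mul_right _ (Nat.sub_le _ _)
    _ = 2 ^ p * 2 ^ (s + 1) * p * B.card := by ring

end Pool.Agent.S12
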