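import Pool.Agent.S12.SidonThm
import Pool.Agent.S12.SizeM
import Pool.Agent.S12.Kernel
import Pool.Agent.Helper56.S12G.All

/-!
# Sidon sets in the dual of any compact abelian group are finite unions of almost quasi-independent sets
-/

set_option autoImplicit false

namespace Pool.Agent.S12

open Finset Helper56.S12G

/-- **Proportionately dissociated sets in arbitrary abelian groups** -/
theorem all_groups_one {c ε : ℝ} (hc : 0 < c) (hε : 0 < ε) :
    ∃ K : ℕ, ∀ (A : Type*) [AddCommGroup A] (W : Set A),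
      (∀ B : Finset A, (B : Set A) ⊆ W → ∃ D : Finset A, D ⊆ B ∧ Dis D ∧ c * (B.card : ℝ) ≤ (D.card : ℝ)) →
      ∃ col : A → Fin K, ∀ B : Finset A, (B : Set A) ⊆ W → (∀ x ∈ B, ∀ y ∈ B, col x = col y) →
        ∃ D : Finset A, D ⊆ B ∧ Dis D ∧ (1 - ε) * (B.card : ℝ) ≤ (D.card : ℝ) := by
  classical
  set C : ℕ := ⌈1 / c⌉₊ with hCdef
  have hCc : 1 ≤ (C : ℝ) * c := by
    have h := Nat.le_ceil (1 / c)
    rw [← hCdef, div_le_iff₀ hc] at h
    exact h
  set d : ℕ := ⌈1 / ε⌉₊ with hddef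
  have hd1 : 1 ≤ d := Nat.one_le_iff_ne_zero.mpr (by
    have : 0 < d := Nat.ceil_pos.mpr (by positivity)
    omega)
  have hdε : 1 ≤ (d : ℝ) * ε := by
    have h := Nat.le_ceil (1 / ε)
    rw [← hddef, div_le_iff₀ hε] at h
    exact h
  refine ⟨2 * (2 * (1 + C * (2 * (2 ^ (4 * d + 5) * (4 * d + 5)) +
    10 * (2 ^ (4 * d + 5) * 2 ^ (4 * d + 5 + d + 1 + 1) * (4 * d + 5))))), fun A _ W hW => ?_⟩
  have hker : KernelBound A := fun S X Q hQ h => card_le_pow_of_closure S Q hQ X h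
  have hsz : SizeBound A := fun p s B D hD h => size_boundM p s B D (fun j h1 h2 => hD j h1 h2) h
  obtain ⟨f, hf⟩ := main_all hker hsz W C d _ hd1 le_rfl (by
    intro B hB
    obtain ⟨D, hDB, hD, hcard⟩ := hW B hB
    refine ⟨D, hDB, hD, ?_⟩
    have h1 : (B.card : ℝ) ≤ (C : ℝ) * (D.card : ℝ) := by
      calc (B.card : ℝ) = 1 * (B.card : ℝ) := by ring
        _ ≤ ((C : ℝ) * c) * (B.card : ℝ) := mul_le_mul_of_nonneg_right hCc (by positivity)
        _ = (C : ℝ) * (c * (B.card : ℝ)) := by ring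
        _ ≤ (C : ℝ) * (D.card : ℝ) := mul_le_mul_of_nonneg_left hcard (by positivity)
    exact_mod_cast h1)
  refine ⟨f, fun B hB hmono => ?_⟩
  obtain ⟨D, hDB, hD, hcard⟩ := hf B hB hmono
  refine ⟨D, hDB, hD, ?_⟩
  have h2 : (((d - 1) * B.card : ℕ) : ℝ) ≤ ((d * D.card : ℕ) : ℝ) := by exact_mod_cast hcard
  push_cast [Nat.cast_sub hd1] at h2
  have hd0 : (0 : ℝ) < d := by exact_mod_cast hd1
  have hB0 : (0 : ℝ) ≤ B.card := Nat.cast_nonneg _
  have h3 : (d : ℝ) * ((1 - ε) * (B.card : ℝ)) ≤ d * D.card := by nlinarith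
  exact le_of_mul_le_mul_left h3 hd0

open Pool.Agent.Helper72.Sidon

/-- **Sidon sets are finite unions of almost quasi-independent sets** -/
theorem sidon_union_one (C ε : ℝ) (hε : 0 < ε) :
    ∃ K : ℕ, ∀ (G : Type*) [CommGroup G] [TopologicalSpace G] (Λ : Set (PontryaginDual G)),
      1 ∉ Λ → IsSidonWith C Λ →
        ∃ E : Fin K → Set (PontryaginDual G), Λ = ⋃ i, E i ∧
          ∀ (i : Fin K) (B : Finset (PontryaginDual G)), (B : Set (PontryaginDual G)) ⊆ E i →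
            ∃ D : Finset (PontryaginDual G), D ⊆ B ∧ QuasiIndependent (D : Set (PontryaginDual G)) ∧
              (1 - ε) * (B.card : ℝ) ≤ D.card := by
  classical
  obtain ⟨c, hc, hsid⟩ := sidon_prop C
  obtain ⟨K, hK⟩ := all_groups_one hc hε
  refine ⟨K, fun G _ _ Λ h1 hS => ?_⟩
  set W : Set (Additive (PontryaginDual G)) := {x | x.toMul ∈ Λ} with hW
  obtain ⟨col, hcol⟩ := hK (Additive (PontryaginDual G)) W (by
    intro B hB
    exact hsid G Λ h1 hS B fun b hb => hB hb)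
  refine ⟨fun i => {γ | γ ∈ Λ ∧ col (Additive.ofMul γ) = i}, ?_, ?_⟩
  · ext γ
    rw [Set.mem_iUnion]
    exact ⟨fun h => ⟨_, h, rfl⟩, fun ⟨_, h, _⟩ => h⟩
  intro i B hB
  set B' : Finset (Additive (PontryaginDual G)) := B.map Additive.ofMul.toEmbedding with hB'
  have hcard : B'.card = B.card := card_map _
  obtain ⟨D, hDB, hD, hDc⟩ := hcol B' (by
    intro x hx
    rw [mem_coe, hB', mem_map] at hx
    obtain ⟨g, hg, rfl⟩ := hx
    exact (hB hg).1) (by
    intro x hx y hy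
    rw [hB', mem_map] at hx hy
    obtain ⟨g, hg, rfl⟩ := hx
    obtain ⟨g', hg', rfl⟩ := hy
    exact (hB hg).2.trans (hB hg').2.symm)
  rw [hcard] at hDc
  refine ⟨D.map Additive.toMul.toEmbedding, ?_, ?_, by rw [card_map]; exact hDc⟩
  · intro g hg
    rw [mem_map] at hg
    obtain ⟨x, hx, rfl⟩ := hg
    have h2 := hDB hx
    rw [hB', mem_map] at h2
    obtain ⟨g, hg, rfl⟩ := h2
    exact hg
  · refine quasi_of_dis (D := D) ?_ hD
    intro g hg
    rw [mem_map] at hg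
    obtain ⟨x, hx, rfl⟩ := hg
    exact hx

end Pool.Agent.S12
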